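import Pool.Agent.K7.H14.TG.Stm

/-!
# Project TG (MP_fa7001_co), job DEC
-/

set_option autoImplicit false

namespace Pool.Agent.K7.H60.TGDEC

open Pool.Agent.K7.H14.TG

theorem wk_trans {α : Type} (G : α → α → Prop) (m : ℕ) (x y : α) (h : Wk G m x y) :
    ∀ (n : ℕ) (z : α), Wk G n y z → Wk G (m + n) x z := by
  intro n
  induction n with
  | zero =>
    intro z hz
    have : y = z := hz
    rw [← this]
    exact h
  | succ n ih =>
    rintro z ⟨u, hu, huz⟩
    exact ⟨u, ih u hu, huz⟩

theorem wk_fun {α : Type} (G : α → α → Prop) (k : ℕ) : ∀ (x y : α), Wk G k x y →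
    ∃ w : ℕ → α, w 0 = x ∧ w k = y ∧ ∀ i < k, G (w i) (w (i + 1)) := by
  induction k with
  | zero =>
    intro x y h
    exact ⟨fun _ => x, rfl, h, fun i hi => absurd hi (by omega)⟩
  | succ k ih =>
    rintro x y ⟨z, hz, hzy⟩
    obtain ⟨w, h0, hk, hw⟩ := ih x z hz
    refine ⟨fun i => if i ≤ k then w i else y, ?_, ?_, ?_⟩
    · simp [h0]
    · simp
    · intro i hi
      rcases Nat.lt_or_ge i k with h | h
      · simp only [show i ≤ k by omega, show i + 1 ≤ k by omega, if_true]
        exact hw i h
      · have : i = k := by omega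
        subst this
        simp only [le_refl, if_true, show ¬ (i + 1 ≤ i) by omega, if_false]
        rw [hk]
        exact hzy

theorem fun_wk {α : Type} (G : α → α → Prop) (w : ℕ → α) (p : ℕ) : ∀ q, p ≤ q →
    (∀ i, p ≤ i → i < q → G (w i) (w (i + 1))) → Wk G (q - p) (w p) (w q) := by
  intro q
  induction q with
  | zero =>
    intro hp _
    have : p = 0 := by omega
    subst this
    exact rfl
  | succ q ih =>
    intro hp h
    rcases Nat.lt_or_ge q p with h1 | h1
    · have : p = q + 1 := by omega
      rw [← this, Nat.sub_self]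
      exact rfl
    · rw [show q + 1 - p = (q - p) + 1 by omega]
      exact ⟨w q, ih h1 (fun i hi hq => h i hi (by omega)), h q h1 (by omega)⟩

/-- **JOB DEC.** -/
theorem t : StDec := by
  intro α _ G a ha hG L
  induction L using Nat.strong_induction_on with
  | _ L ih =>
    intro x hx
    rcases Nat.eq_zero_or_pos L with h0 | h0
    · exact ⟨[], by rw [h0]; rfl, fun i hi => absurd hi (by simp)⟩
    · rcases Nat.lt_or_ge (Fintype.card α) L with hc | hc
      · obtain ⟨w, w0, wL, hw⟩ := wk_fun G L x x hx
        obtain ⟨i, j, hij, he⟩ := Fintype.exists_ne_map_eq_of_card_lt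
          (fun i : Fin (Fintype.card α + 1) => w i) (by simp)
        obtain ⟨i', j', hlt, hj', he'⟩ : ∃ i' j' : ℕ, i' < j' ∧ j' ≤ Fintype.card α ∧
            w i' = w j' := by
          rcases Nat.lt_or_gt_of_ne (fun h => hij (Fin.ext h)) with h | h
          · exact ⟨i, j, h, by omega, he⟩
          · exact ⟨j, i, h, by omega, he.symm⟩
        have h1 : Wk G (i' - 0) (w 0) (w i') :=
          fun_wk G w 0 i' (by omega) (fun k _ hk => hw k (by omega))
        have h2 : Wk G (L - j') (w j') (w L) :=
          fun_wk G w j' L (by omega) (fun k _ hk => hw k (by omega))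
        have h3 : Wk G (j' - i') (w i') (w j') :=
          fun_wk G w i' j' (by omega) (fun k _ hk => hw k (by omega))
        rw [he'] at h1 h3
        have h4 := wk_trans G _ _ _ h1 _ _ h2
        rw [w0, wL] at h4
        have h5 : a ≤ j' - i' := by
          by_contra hlt'
          exact hG (j' - i') (w j') (by omega) (by omega) h3
        obtain ⟨l, hl, hl'⟩ := ih (i' - 0 + (L - j')) (by omega) x h4
        refine ⟨(j' - i') :: l, ?_, ?_⟩
        · rw [List.sum_cons, hl]
          omega
        · intro k hk
          rcases List.mem_cons.mp hk with rfl | hk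
          · exact ⟨h5, by omega⟩
          · exact hl' k hk
      · refine ⟨[L], by simp, ?_⟩
        intro i hi
        rw [List.mem_singleton] at hi
        subst hi
        refine ⟨?_, hc⟩
        by_contra hlt
        exact hG _ x h0 (by omega) hx

end Pool.Agent.K7.H60.TGDEC
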