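import Pool.Agent.K7.H25.SB.Stm

/-! Project SB, job ALL: from the plane to all dimensions. -/

set_option autoImplicit false

open scoped MeasureTheory ENNReal Topology InnerProductSpace
open MeasureTheory Set Filter Metric

namespace Pool.Agent.K7.H60.SB

open Pool.Agent.R154.Steiner Pool.Agent.K7.H25.SB

/-- the plane in `ℝ^d` -/
theorem exists_iota (d : ℕ) (hd : 2 ≤ d) : Nonempty (Pl →ₗᵢ[ℝ] EuclideanSpace ℝ (Fin d)) := by
  let i0 : Fin d := ⟨0, by omega⟩
  let i1 : Fin d := ⟨1, by omega⟩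
  have hne : i0 ≠ i1 := by
    intro h
    have := congrArg Fin.val h
    simp [i0, i1] at this
  let f : Pl →ₗ[ℝ] EuclideanSpace ℝ (Fin d) :=
    { toFun := fun x => x 0 • EuclideanSpace.single i0 (1 : ℝ) + x 1 • EuclideanSpace.single i1 (1 : ℝ)
      map_add' := fun x y => by
        simp only [PiLp.add_apply, add_smul]
        abel
      map_smul' := fun a x => by
        simp only [PiLp.smul_apply, smul_eq_mul, mul_smul, RingHom.id_apply, smul_add] }
  refine ⟨⟨f, fun x => ?_⟩⟩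
  have h1 : ‖f x‖ ^ 2 = ‖x‖ ^ 2 := by
    change ‖x 0 • EuclideanSpace.single i0 (1 : ℝ) + x 1 • EuclideanSpace.single i1 (1 : ℝ)‖ ^ 2 = _
    rw [norm_add_sq_real, real_inner_smul_left, real_inner_smul_right, EuclideanSpace.norm_sq_eq x,
      Fin.sum_univ_two, norm_smul, norm_smul]
    have h2 : ⟪(EuclideanSpace.single i0 (1 : ℝ) : EuclideanSpace ℝ (Fin d)),
        EuclideanSpace.single i1 (1 : ℝ)⟫_ℝ = 0 := by
      rw [EuclideanSpace.inner_single_left]
      simp [hne]
    rw [h2]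
    simp
  have h3 := congrArg Real.sqrt h1
  rwa [Real.sqrt_sq (norm_nonneg _), Real.sqrt_sq (norm_nonneg _)] at h3

section

variable {d : ℕ} (ι : Pl →ₗᵢ[ℝ] EuclideanSpace ℝ (Fin d))

theorem br_image {S : Set Pl} {b : Pl} (h : Br S b) : Br (ι '' S) (ι b) := by
  obtain ⟨F, r, h1, h2, h3, h4⟩ := h
  classical
  refine ⟨F.map ⟨ι, ι.injective⟩, r, by rw [Finset.card_map]; exact h1, ?_, h3, ?_⟩
  · intro v hv
    rw [Finset.mem_map] at hv
    obtain ⟨w, hw, rfl⟩ := hv
    simp only [Function.Embedding.coeFn_mk, LinearIsometry.norm_map]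
    exact h2 w hw
  · have hseg : ∀ v : Pl, segment ℝ (ι b) (ι b + r • ι v) = ι '' segment ℝ b (b + r • v) := by
      intro v
      have := image_segment ℝ (ι.toLinearMap.toAffineMap) b (b + r • v)
      simpa using this.symm
    ext x
    constructor
    · rintro ⟨⟨s, hs, rfl⟩, hx⟩
      have hb : s ∈ ball b r := by
        rw [mem_ball] at hx ⊢
        rwa [ι.isometry.dist_eq] at hx
      have h5 : s ∈ (⋃ v ∈ F, segment ℝ b (b + r • v)) ∩ ball b r := by
        rw [← h4]; exact ⟨hs, hb⟩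
      obtain ⟨h6, -⟩ := h5
      rw [mem_iUnion₂] at h6
      obtain ⟨v, hv, h7⟩ := h6
      refine ⟨?_, hx⟩
      rw [mem_iUnion₂]
      refine ⟨ι v, Finset.mem_map_of_mem _ hv, ?_⟩
      rw [hseg]
      exact ⟨s, h7, rfl⟩
    · rintro ⟨hx, hx'⟩
      rw [mem_iUnion₂] at hx
      obtain ⟨w, hw, h7⟩ := hx
      rw [Finset.mem_map] at hw
      obtain ⟨v, hv, rfl⟩ := hw
      simp only [Function.Embedding.coeFn_mk] at h7
      rw [hseg] at h7
      obtain ⟨s, hs, rfl⟩ := h7
      have hb : s ∈ ball b r := by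
        rw [mem_ball] at hx' ⊢
        rwa [ι.isometry.dist_eq] at hx'
      have h5 : s ∈ S ∩ ball b r := by
        rw [h4]
        refine ⟨?_, hb⟩
        rw [mem_iUnion₂]
        exact ⟨v, hv, hs⟩
      exact ⟨⟨s, h5.1, rfl⟩, hx'⟩

theorem steiner_image {A S : Set Pl} (h : IsSteinerTree A S) : IsSteinerTree (ι '' A) (ι '' S) := by
  obtain ⟨h1, h2, h3, h4, h5⟩ := h
  have hH : μH[1] (ι '' S) = μH[1] S := ι.isometry.hausdorffMeasure_image (Or.inl zero_le_one) S
  refine ⟨ι.isometry.isClosedEmbedding.isClosedMap S h1, h2.image _ ι.continuous.continuousOn,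
    image_mono h3, hH ▸ h4, ?_⟩
  intro T hT1 hT2 hT3
  rw [hH]
  by_cases hfin : μH[1] T = ⊤
  · rw [hfin]; exact le_top
  have hTc : IsCompact T := compact_of_finite hT1 hT2.isPreconnected hfin
  let π : EuclideanSpace ℝ (Fin d) →L[ℝ] Pl := ContinuousLinearMap.adjoint ι.toContinuousLinearMap
  have hπ : ∀ x, π (ι x) = x := by
    intro x
    have := (ContinuousLinearMap.norm_map_iff_adjoint_comp_self ι.toContinuousLinearMap).1
      (fun x => ι.norm_map x)
    exact congrArg (fun f : Pl →L[ℝ] Pl => f x) this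
  have hnorm : ‖π‖ ≤ 1 := by
    have : ‖π‖ = ‖ι.toContinuousLinearMap‖ := LinearIsometryEquiv.norm_map _ _
    rw [this]
    exact ι.norm_toContinuousLinearMap_le
  have hlip : LipschitzWith 1 π := π.lipschitz.weaken hnorm
  have h6 : μH[1] (π '' T) ≤ μH[1] T := by
    have := hlip.lipschitzOnWith.hausdorffMeasure_image_le (s := T) (zero_le_one (α := ℝ))
    simpa using this
  refine le_trans (h5 (π '' T) (hTc.image π.continuous).isClosed
    (hT2.image _ π.continuous.continuousOn) ?_) h6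
  intro a ha
  exact ⟨ι a, hT3 ⟨a, ha, rfl⟩, hπ a⟩

end

/-- Job ALL. -/
theorem stAll (h : StPlane) : StAll := by
  intro d hd N
  obtain ⟨ι⟩ := exists_iota d hd
  obtain ⟨A, S, c, B, h1, h2, h3, h4, h5⟩ := h N
  refine ⟨ι '' A, ι '' S, ι c, B.map ⟨ι, ι.injective⟩, h1.image _, steiner_image ι h2, ?_,
    by rw [Finset.card_map]; exact h4, ?_⟩
  · rw [eq_empty_iff_forall_notMem]
    rintro _ ⟨⟨a, ha, rfl⟩, hb⟩
    rw [mem_ball, ι.isometry.dist_eq] at hb
    have : a ∈ A ∩ ball c 1 := ⟨ha, mem_ball.2 hb⟩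
    rw [h3] at this
    exact this
  · intro b hb
    rw [Finset.mem_map] at hb
    obtain ⟨b, hb, rfl⟩ := hb
    obtain ⟨h6, h7, h8⟩ := h5 b hb
    refine ⟨?_, ⟨b, h7, rfl⟩, br_image ι h8⟩
    simp only [Function.Embedding.coeFn_mk]
    rw [mem_ball, ι.isometry.dist_eq]
    exact mem_ball.1 h6

end Pool.Agent.K7.H60.SB
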