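import Pool.Agent.K7.H25.SB.Stm

/-! Project SB, job PLANE: iteration of the induction step. -/

set_option autoImplicit false

open scoped MeasureTheory ENNReal Topology InnerProductSpace
open MeasureTheory Set Filter Metric

namespace Pool.Agent.K7.H60.SB

open Pool.Agent.R154.Steiner Pool.Agent.K7.H25.SB

theorem br_mem {S : Set Pl} {b : Pl} (h : Br S b) : b ∈ S := by
  obtain ⟨F, r, h1, h2, h3, h4⟩ := h
  obtain ⟨v, hv⟩ : F.Nonempty := by
    rw [← Finset.card_pos]; omega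
  have : b ∈ S ∩ ball b r := by
    rw [h4]
    refine ⟨?_, mem_ball_self h3⟩
    rw [mem_iUnion₂]
    exact ⟨v, hv, left_mem_segment ℝ _ _⟩
  exact this.1

theorem iterate (h1 : StBase) (h2 : StInd) (N : ℕ) :
    ∃ (A₀ S₀ : Set Pl) (q u n : Pl) (κ δ : ℝ) (B : Finset Pl), State A₀ S₀ q u n κ δ B ∧
      B.card = N := by
  induction N with
  | zero =>
    obtain ⟨A₀, S₀, q, u, n, κ, δ, h⟩ := h1
    exact ⟨A₀, S₀, q, u, n, κ, δ, ∅, h, rfl⟩
  | succ N ih =>
    obtain ⟨A₀, S₀, q, u, n, κ, δ, B, h, hB⟩ := ih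
    obtain ⟨A₀', S₀', q', u', κ', δ', B', h', hB'⟩ := h2 A₀ S₀ q u n κ δ B h
    exact ⟨A₀', S₀', q', u', n, κ', δ', B', h', by rw [hB', hB]⟩

/-- Job PLANE. -/
theorem stPlane (h1 : StBase) (h2 : StInd) (h3 : StTrunc) (h4 : StBr) : StPlane := by
  intro N
  obtain ⟨A₀, S₀, q, u, n, κ, δ, B, h, hB⟩ := iterate h1 h2 N
  have hbq : ∀ b ∈ B, 0 < dist b q := by
    intro b hb
    rw [dist_pos]
    rintro rfl
    have h5 := (h.br b hb).1
    rw [dist_eq_norm] at h5
    have : b - (b - n) = n := by abel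
    rw [this, h.hn] at h5
    exact lt_irrefl _ h5
  obtain ⟨l, hl0, hlκ, hlB⟩ : ∃ l : ℝ, 0 < l ∧ l ≤ κ ∧ ∀ b ∈ B, 2 * l < dist b q := by
    have e1 : ∀ᶠ l : ℝ in 𝓝[>] 0, 0 < l := self_mem_nhdsWithin
    have e2 : ∀ᶠ l : ℝ in 𝓝[>] 0, l ≤ κ := by
      have : ∀ᶠ l : ℝ in 𝓝 0, l < κ := Iio_mem_nhds h.κpos
      exact (this.filter_mono nhdsWithin_le_nhds).mono fun l hl => hl.le
    have e3 : ∀ᶠ l : ℝ in 𝓝[>] 0, ∀ b ∈ B, 2 * l < dist b q := by
      rw [Finset.eventually_all]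
      intro b hb
      have : ∀ᶠ l : ℝ in 𝓝 0, l < dist b q / 2 := Iio_mem_nhds (by have := hbq b hb; positivity)
      refine (this.filter_mono nhdsWithin_le_nhds).mono fun l hl => by linarith
    obtain ⟨l, h6, h7, h8⟩ := (e1.and (e2.and e3)).exists
    exact ⟨l, h6, h7, h8⟩
  have hU := h3 A₀ S₀ q u κ δ l h.hu h.κpos h.κle hl0.le hlκ h.cl h.con h.sub h.loc h.uniq
  refine ⟨insert (q + l • u) A₀, S₀ ∪ segment ℝ q (q + l • u), q - n, B, h.fin.insert _, hU.1, ?_,
    hB.ge, ?_⟩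
  · rw [eq_empty_iff_forall_notMem]
    rintro x ⟨hx, hx'⟩
    rw [mem_ball] at hx'
    rcases hx with rfl | hx
    · rw [dist_eq_norm] at hx'
      have e1 : q + l • u - (q - n) = l • u + n := by abel
      rw [e1] at hx'
      have e2 : ‖l • u + n‖ ^ 2 = l ^ 2 + 2 * (l * (Real.sqrt 3 / 2)) + 1 := by
        rw [norm_add_sq_real, norm_smul, real_inner_smul_left, h.hun, h.hu, h.hn]
        simp
      have h30 : 0 ≤ Real.sqrt 3 := Real.sqrt_nonneg _
      have e3 : ‖l • u + n‖ ^ 2 < 1 := by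
        have := norm_nonneg (l • u + n)
        nlinarith
      rw [e2] at e3
      nlinarith [mul_nonneg hl0.le h30, sq_nonneg l]
    · exact absurd (h.out x hx) (not_lt.2 hx'.le)
  · intro b hb
    obtain ⟨h5, h6⟩ := h.br b hb
    refine ⟨mem_ball.2 h5, Or.inl (br_mem h6), ?_⟩
    refine h4 S₀ _ b (dist b q / 2) h6 (by have := hbq b hb; positivity) ?_
    ext x
    constructor
    · rintro ⟨hx | hx, hxb⟩
      · exact ⟨hx, hxb⟩
      · exfalso
        rw [mem_ball] at hxb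
        have e1 : dist x q ≤ l := by
          have hseg : segment ℝ q (q + l • u) ⊆ closedBall q l := by
            refine (convex_closedBall q l).segment_subset (mem_closedBall_self hl0.le) ?_
            rw [mem_closedBall, dist_eq_norm, add_sub_cancel_left, norm_smul, h.hu,
              Real.norm_of_nonneg hl0.le, mul_one]
          exact mem_closedBall.1 (hseg hx)
        have e2 := hlB b hb
        have e3 := dist_triangle_left b q x
        linarith
    · rintro ⟨hx, hxb⟩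
      exact ⟨Or.inl hx, hxb⟩

end Pool.Agent.K7.H60.SB
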