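import Pool.Agent.K7.H32.FT.Stm
import Pool.Agent.H756R3.J.Cont

/-! Project FT, job JH: the coloured Jones polynomials are holomorphic at the admissible points. -/

set_option autoImplicit false

namespace Pool.Agent.K7.H60.FT_JH

open Finset Matrix Filter Topology Pool.Agent.H550R3.Jones Pool.Agent.W709.QAT
open Pool.Agent.H756R3.J (brf_ne)

theorem zpow_diff {v : ℂ} (hv : v ≠ 0) (n : ℤ) : DifferentiableAt ℂ (fun v : ℂ => v ^ n) v :=
  differentiableAt_zpow.2 (Or.inl hv)

theorem br_diff {v : ℂ} (hv : v ≠ 0) (n : ℤ) : DifferentiableAt ℂ (fun v : ℂ => br v n) v :=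
  (zpow_diff hv n).sub (zpow_diff hv (-n))

theorem prod_diff {ι : Type} {v : ℂ} (s : Finset ι) (f : ι → ℂ → ℂ)
    (h : ∀ i ∈ s, DifferentiableAt ℂ (f i) v) :
    DifferentiableAt ℂ (fun w => ∏ i ∈ s, f i w) v := by
  have := DifferentiableAt.fun_finsetProd (u := s) (f := f) (x := v) (𝕜 := ℂ) h
  exact this

theorem brf_diff {v : ℂ} (hv : v ≠ 0) (m : ℕ) : DifferentiableAt ℂ (fun v : ℂ => brf v m) v := by
  unfold brf
  exact prod_diff _ _ fun j _ => br_diff hv _

theorem crossP_diff {N : ℕ} {v : ℂ} (hv : v ≠ 0) (hN : ∀ k : ℕ, 0 < k → k < N → br v k ≠ 0)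
    (p q : Fin N × Fin N) : DifferentiableAt ℂ (fun v : ℂ => crossP N v p q) v := by
  unfold crossP
  by_cases h : (p.1 : ℕ) + p.2 = q.1 + q.2 ∧ (q.2 : ℕ) ≤ p.1
  · simp only [h, and_self, if_true]
    refine ((((zpow_diff hv _).mul (differentiableAt_id.pow _)).mul ((brf_diff hv _).div
      ((brf_diff hv _).mul (brf_diff hv _)) (mul_ne_zero (brf_ne hN q.2.2)
        (brf_ne hN (by have := p.1.2; omega))))).mul
        (prod_diff _ _ fun j _ => br_diff hv _))
  · simp only [h, if_false]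
    exact differentiableAt_const _

theorem crossN_diff {N : ℕ} {v : ℂ} (hv : v ≠ 0) (hN : ∀ k : ℕ, 0 < k → k < N → br v k ≠ 0)
    (p q : Fin N × Fin N) : DifferentiableAt ℂ (fun v : ℂ => crossN N v p q) v := by
  unfold crossN
  by_cases h : (p.1 : ℕ) + p.2 = q.1 + q.2 ∧ (q.1 : ℕ) ≤ p.2
  · simp only [h, and_self, if_true]
    refine (((((differentiableAt_const _).mul (zpow_diff hv _)).div (differentiableAt_id.pow _)
      (pow_ne_zero _ hv)).mul ((brf_diff hv _).div
      ((brf_diff hv _).mul (brf_diff hv _)) (mul_ne_zero (brf_ne hN q.1.2)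
        (brf_ne hN (by have := p.2.2; omega))))).mul
        (prod_diff _ _ fun j _ => br_diff hv _))
  · simp only [h, if_false]
    exact differentiableAt_const _

theorem kap_diff {N : ℕ} {v : ℂ} (hv : v ≠ 0) (hN : ∀ k : ℕ, 0 < k → k < N → br v k ≠ 0)
    (hN1 : 1 ≤ N) (k : ℕ) : DifferentiableAt ℂ (fun v : ℂ => kap N v k) v := by
  unfold kap
  exact ((differentiableAt_const _).mul (zpow_diff hv _)).mul
    (((brf_diff hv _).mul (brf_diff hv _)).div (brf_diff hv _) (brf_ne hN (by omega)))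

theorem kap_ne {N : ℕ} {v : ℂ} (hv : v ≠ 0) (hN : ∀ k : ℕ, 0 < k → k < N → br v k ≠ 0)
    (hN1 : 1 ≤ N) {k : ℕ} (hk : k < N) : kap N v k ≠ 0 := by
  unfold kap
  exact mul_ne_zero (mul_ne_zero (pow_ne_zero _ (by norm_num)) (zpow_ne_zero _ hv))
    (div_ne_zero (mul_ne_zero (brf_ne hN hk) (brf_ne hN (by omega))) (brf_ne hN (by omega)))

theorem cup_diff {N : ℕ} {v : ℂ} (hv : v ≠ 0) (hN : ∀ k : ℕ, 0 < k → k < N → br v k ≠ 0)
    (hN1 : 1 ≤ N) (p : Fin N × Fin N) :
    DifferentiableAt ℂ (fun v : ℂ => Pool.Agent.W709.QAT.cup N v p) v := by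
  unfold Pool.Agent.W709.QAT.cup
  by_cases h : (p.1 : ℕ) + p.2 = N - 1
  · simp only [h, if_true]
    exact kap_diff hv hN hN1 _
  · simp only [h, if_false]
    exact differentiableAt_const _

theorem cap_diff {N : ℕ} {v : ℂ} (hv : v ≠ 0) (hN : ∀ k : ℕ, 0 < k → k < N → br v k ≠ 0)
    (hN1 : 1 ≤ N) (p : Fin N × Fin N) :
    DifferentiableAt ℂ (fun v : ℂ => Pool.Agent.W709.QAT.cap N v p) v := by
  unfold Pool.Agent.W709.QAT.cap
  by_cases h : (p.1 : ℕ) + p.2 = N - 1
  · simp only [h, if_true]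
    exact (kap_diff hv hN hN1 _).inv (kap_ne hv hN hN1 p.2.2)
  · simp only [h, if_false]
    exact differentiableAt_const _

theorem sum_diff {ι : Type} {v : ℂ} (s : Finset ι) (f : ι → ℂ → ℂ)
    (h : ∀ i ∈ s, DifferentiableAt ℂ (f i) v) :
    DifferentiableAt ℂ (fun w => ∑ i ∈ s, f i w) v :=
  DifferentiableAt.fun_sum h

theorem cross_diff {N : ℕ} {v : ℂ} (hv : v ≠ 0) (hN : ∀ k : ℕ, 0 < k → k < N → br v k ≠ 0)
    (σ : Bool) (m : ℕ) : ∀ (p q : Fin N × Fin N),
    DifferentiableAt ℂ (fun v : ℂ => ((if σ then crossP N v else crossN N v) ^ m) p q) v := by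
  have h : ∀ p q, DifferentiableAt ℂ (fun v : ℂ => (if σ then crossP N v else crossN N v) p q) v := by
    cases σ
    · exact fun p q => crossN_diff hv hN p q
    · exact fun p q => crossP_diff hv hN p q
  induction m with
  | zero =>
    intro p q
    simp only [pow_zero]
    exact differentiableAt_const _
  | succ m ih =>
    intro p q
    simp only [pow_succ, Matrix.mul_apply]
    exact sum_diff _ _ fun x _ => (ih p x).mul (h x q)

theorem act_diff {N : ℕ} {v : ℂ} (hv : v ≠ 0) (hN : ∀ k : ℕ, 0 < k → k < N → br v k ≠ 0)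
    (hN1 : 1 ≤ N) (P : Piece) (f : ℂ → List (Fin N) → ℂ)
    (hf : ∀ s, DifferentiableAt ℂ (fun w => f w s) v) (s : List (Fin N)) :
    DifferentiableAt ℂ (fun w => P.act N w (f w) s) v := by
  cases P with
  | cup i =>
    simp only [Piece.act]
    match h : s.drop i with
    | [] => exact differentiableAt_const _
    | [a] => exact differentiableAt_const _
    | a :: b :: r => exact (cup_diff hv hN hN1 _).mul (hf _)
  | cap i =>
    simp only [Piece.act]
    exact sum_diff _ _ fun p _ => (cap_diff hv hN hN1 _).mul (hf _)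
  | twist i σ m =>
    simp only [Piece.act]
    match h : s.drop i with
    | [] => exact differentiableAt_const _
    | [a] => exact differentiableAt_const _
    | a :: b :: r =>
      exact sum_diff _ _ fun p _ => (cross_diff hv hN σ m _ p).mul (hf _)

theorem run_diff {N : ℕ} {v : ℂ} (hv : v ≠ 0) (hN : ∀ k : ℕ, 0 < k → k < N → br v k ≠ 0)
    (hN1 : 1 ≤ N) (D : Diag) : ∀ (f : ℂ → List (Fin N) → ℂ),
    (∀ s, DifferentiableAt ℂ (fun w => f w s) v) → ∀ s : List (Fin N),
    DifferentiableAt ℂ (fun w => run N w D (f w) s) v := by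
  induction D with
  | nil => intro f hf s; exact hf s
  | cons P D ih =>
    intro f hf s
    exact ih (fun w => P.act N w (f w)) (act_diff hv hN hN1 P f hf) s

theorem t : Pool.Agent.K7.H32.FT.S_HOL := by
  intro N D v hN1 hv
  have hN : 0 < N := hN1
  have h : jones N D = fun v => run N v D (fun s => if s = [⟨0, hN⟩] then 1 else 0) [⟨0, hN⟩] := by
    funext v
    unfold jones
    rw [dif_pos hN]
  rw [h]
  exact run_diff hv.1 hv.2 hN1 D (fun _ s => if s = [⟨0, hN⟩] then 1 else 0)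
    (fun s => differentiableAt_const _) _

end Pool.Agent.K7.H60.FT_JH
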