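import Pool.Agent.K7.H32.FT.Stm
import Pool.Agent.W709.QAT.One
import Pool.Agent.W563.QAT.Fe
import Pool.Agent.W28.QAT.SS

/-! Project FT, job JE: the entries of the crossings, the cups and the caps near the root of unity. -/

set_option autoImplicit false

namespace Pool.Agent.K7.H60.FT_JE

open Finset Matrix Filter Topology Pool.Agent.H550R3.Jones
open Pool.Agent.W715.VC hiding kap
open Pool.Agent.W709.QAT (Fa kap)
open Pool.Agent.K7.H32.FT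
open GapVol (lob)
open scoped Real

lemma prod_br' (v : ℂ) (a n : ℕ) :
    brf v a * ∏ t ∈ range n, br v ((a : ℤ) + 1 + t) = brf v (a + n) := by
  unfold brf
  rw [prod_range_add]
  congr 1
  refine prod_congr rfl fun t _ => ?_
  congr 1
  push_cast
  ring

/-- the absolute value of a quotient of factorials -/
noncomputable def Y (v : ℂ) (a b c d e : ℕ) : ℝ :=
  ‖brf v a‖ / (‖brf v b‖ * ‖brf v c‖) * (‖brf v d‖ / ‖brf v e‖)

lemma norm_crossP {N : ℕ} (v : ℂ) (p q : Fin N × Fin N) (hs : (p.1 : ℕ) + p.2 = q.1 + q.2)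
    (hle : (q.2 : ℕ) ≤ p.1) (hne : brf v (N - 1 - q.1) ≠ 0) :
    ‖crossP N v p q‖ =
      ‖v ^ (-((N : ℤ) - 1) * (1 + (q.1 : ℕ) + (q.2 : ℕ)) + 2 * (p.1 : ℕ) * (p.2 : ℕ))‖ *
        ‖v ^ ((((p.1 : ℕ) - q.2) * ((p.1 : ℕ) - q.2 - 1) / 2 : ℕ) : ℤ)‖ *
        Y v p.1 q.2 ((p.1 : ℕ) - q.2) (N - 1 - p.2) (N - 1 - q.1) := by
  have h1 := prod_br' v (N - 1 - q.1) ((p.1 : ℕ) - q.2)
  have hq1 := q.1.2
  have e1 : N - 1 - (q.1 : ℕ) + ((p.1 : ℕ) - q.2) = N - 1 - p.2 := by omega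
  rw [e1] at h1
  have e2 : ∏ t ∈ range ((p.1 : ℕ) - q.2), br v ((N : ℤ) - (q.1 : ℕ) + t) =
      brf v (N - 1 - p.2) / brf v (N - 1 - q.1) := by
    rw [eq_div_iff hne, mul_comm, ← h1]
    congr 1
    refine prod_congr rfl fun t _ => ?_
    congr 1
    have : ((N - 1 - (q.1 : ℕ) : ℕ) : ℤ) = (N : ℤ) - 1 - (q.1 : ℕ) := by omega
    rw [this]
    ring
  unfold crossP Y
  rw [if_pos ⟨hs, hle⟩, e2, _root_.zpow_natCast]
  simp only [norm_mul, norm_div]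
  ring

lemma norm_crossN {N : ℕ} (v : ℂ) (p q : Fin N × Fin N) (hs : (p.1 : ℕ) + p.2 = q.1 + q.2)
    (hle : (q.1 : ℕ) ≤ p.2) (hne : brf v (N - 1 - q.2) ≠ 0) :
    ‖crossN N v p q‖ =
      ‖v ^ (((N : ℤ) - 1) * (1 + (q.1 : ℕ) + (q.2 : ℕ)) - 2 * (q.1 : ℕ) * (q.2 : ℕ))‖ *
        ‖v ^ (-((((p.2 : ℕ) - q.1) * ((p.2 : ℕ) - q.1 - 1) / 2 : ℕ) : ℤ))‖ *
        Y v p.2 q.1 ((p.2 : ℕ) - q.1) (N - 1 - p.1) (N - 1 - q.2) := by
  have h1 := prod_br' v (N - 1 - q.2) ((p.2 : ℕ) - q.1)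
  have hq1 := q.2.2
  have e1 : N - 1 - (q.2 : ℕ) + ((p.2 : ℕ) - q.1) = N - 1 - p.1 := by omega
  rw [e1] at h1
  have e2 : ∏ t ∈ range ((p.2 : ℕ) - q.1), br v ((N : ℤ) - (q.2 : ℕ) + t) =
      brf v (N - 1 - p.1) / brf v (N - 1 - q.2) := by
    rw [eq_div_iff hne, mul_comm, ← h1]
    congr 1
    refine prod_congr rfl fun t _ => ?_
    congr 1
    have : ((N - 1 - (q.2 : ℕ) : ℕ) : ℤ) = (N : ℤ) - 1 - (q.2 : ℕ) := by omega
    rw [this]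
    ring
  unfold crossN Y
  rw [if_pos ⟨hs, hle⟩, e2, _root_.zpow_neg, _root_.zpow_natCast]
  simp only [norm_mul, norm_div, norm_inv, norm_pow, norm_neg, norm_one, one_pow, one_mul]
  ring

/-- the estimate of `S_FAC` at the point `v` -/
def Fac (N : ℕ) (v : ℂ) : Prop :=
  ∀ k : ℕ, k < N → 0 < Fa N k ∧ ‖brf v k‖ ≤ 2 * Fa N k ∧ Fa N k ≤ 2 * ‖brf v k‖

lemma Fac.pos {N : ℕ} {v : ℂ} (h : Fac N v) {k : ℕ} (hk : k < N) : 0 < ‖brf v k‖ := by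
  obtain ⟨h1, -, h3⟩ := h k hk
  linarith

lemma Fac.ne {N : ℕ} {v : ℂ} (h : Fac N v) {k : ℕ} (hk : k < N) : brf v k ≠ 0 :=
  norm_pos_iff.1 (h.pos hk)

lemma Y_le {N : ℕ} {v : ℂ} (h : Fac N v) {a b c d e : ℕ} (ha : a < N) (hb : b < N) (hc : c < N)
    (hd : d < N) (he : e < N) : Y v a b c d e ≤ 32 * Y (rt N) a b c d e := by
  obtain ⟨a1, a2, a3⟩ := h a ha
  obtain ⟨b1, b2, b3⟩ := h b hb
  obtain ⟨c1, c2, c3⟩ := h c hc
  obtain ⟨d1, d2, d3⟩ := h d hd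
  obtain ⟨e1, e2, e3⟩ := h e he
  have hb' := h.pos hb
  have hc' := h.pos hc
  have he' := h.pos he
  have hE : Y (rt N) a b c d e = Fa N a / (Fa N b * Fa N c) * (Fa N d / Fa N e) := rfl
  rw [hE]
  unfold Y
  rw [div_mul_div_comm, div_mul_div_comm, mul_div_assoc', div_le_div_iff₀ (by positivity)
    (by positivity)]
  have h1 : ‖brf v a‖ * ‖brf v d‖ ≤ (2 * Fa N a) * (2 * Fa N d) :=
    mul_le_mul a2 d2 (norm_nonneg _) (by positivity)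
  have h2 : Fa N b * Fa N c * Fa N e ≤ (2 * ‖brf v b‖) * (2 * ‖brf v c‖) * (2 * ‖brf v e‖) :=
    mul_le_mul (mul_le_mul b3 c3 c1.le (by positivity)) e3 e1.le (by positivity)
  calc ‖brf v a‖ * ‖brf v d‖ * (Fa N b * Fa N c * Fa N e)
      ≤ ((2 * Fa N a) * (2 * Fa N d)) * ((2 * ‖brf v b‖) * (2 * ‖brf v c‖) * (2 * ‖brf v e‖)) :=
        mul_le_mul h1 h2 (by positivity) (by positivity)
    _ = 32 * (Fa N a * Fa N d) * (‖brf v b‖ * ‖brf v c‖ * ‖brf v e‖) := by ring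

lemma Y_nonneg (v : ℂ) (a b c d e : ℕ) : 0 ≤ Y v a b c d e := by
  unfold Y; positivity

lemma half_bd {N a b : ℕ} (ha : a < N) : |(((a - b) * (a - b - 1) / 2 : ℕ) : ℤ)| ≤ 4 * (N : ℤ) ^ 2 := by
  rw [abs_of_nonneg (by positivity)]
  have h1 : (a - b) * (a - b - 1) / 2 ≤ N * N :=
    (Nat.div_le_self _ _).trans (Nat.mul_le_mul (by omega) (by omega))
  have h2 : (((a - b) * (a - b - 1) / 2 : ℕ) : ℤ) ≤ ((N * N : ℕ) : ℤ) := Int.ofNat_le.2 h1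
  have h3 : ((N * N : ℕ) : ℤ) ≤ 4 * (N : ℤ) ^ 2 := by push_cast; nlinarith [sq_nonneg (N : ℤ)]
  exact h2.trans h3

lemma exp_bdP {N : ℕ} (p q : Fin N × Fin N) :
    |-((N : ℤ) - 1) * (1 + (q.1 : ℕ) + (q.2 : ℕ)) + 2 * (p.1 : ℕ) * (p.2 : ℕ)| ≤
      4 * (N : ℤ) ^ 2 := by
  have h1 : ((q.1 : ℕ) : ℤ) + 1 ≤ N := by exact_mod_cast q.1.2
  have h2 : ((q.2 : ℕ) : ℤ) + 1 ≤ N := by exact_mod_cast q.2.2
  have h3 : ((p.1 : ℕ) : ℤ) + 1 ≤ N := by exact_mod_cast p.1.2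
  have h4 : ((p.2 : ℕ) : ℤ) + 1 ≤ N := by exact_mod_cast p.2.2
  have g1 : (0 : ℤ) ≤ ((q.1 : ℕ) : ℤ) := by positivity
  have g2 : (0 : ℤ) ≤ ((q.2 : ℕ) : ℤ) := by positivity
  have g3 : (0 : ℤ) ≤ ((p.1 : ℕ) : ℤ) := by positivity
  have g4 : (0 : ℤ) ≤ ((p.2 : ℕ) : ℤ) := by positivity
  have k1 : ((N : ℤ) - 1) * (1 + ((q.1 : ℕ) : ℤ) + ((q.2 : ℕ) : ℤ)) ≤ N * (2 * N) :=
    mul_le_mul (by linarith) (by linarith) (by linarith) (by linarith)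
  have k2 : (0 : ℤ) ≤ ((N : ℤ) - 1) * (1 + ((q.1 : ℕ) : ℤ) + ((q.2 : ℕ) : ℤ)) :=
    mul_nonneg (by linarith) (by linarith)
  have k3 : ((p.1 : ℕ) : ℤ) * ((p.2 : ℕ) : ℤ) ≤ N * N :=
    mul_le_mul (by linarith) (by linarith) g4 (by linarith)
  have k4 : (0 : ℤ) ≤ ((p.1 : ℕ) : ℤ) * ((p.2 : ℕ) : ℤ) := mul_nonneg g3 g4
  rw [abs_le]
  constructor <;> nlinarith

lemma exp_bdN {N : ℕ} (q : Fin N × Fin N) :
    |((N : ℤ) - 1) * (1 + (q.1 : ℕ) + (q.2 : ℕ)) - 2 * (q.1 : ℕ) * (q.2 : ℕ)| ≤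
      4 * (N : ℤ) ^ 2 := by
  have h := exp_bdP q q
  rw [← abs_neg]
  refine le_trans (le_of_eq ?_) h
  congr 1
  ring

lemma rt_zpow {N : ℕ} (k : ℤ) : ‖rt N ^ k‖ = 1 := norm_rt_zpow N k

lemma crossP_le {N : ℕ} {v : ℂ} (h : Fac N v)
    (hp : ∀ k : ℤ, |k| ≤ 4 * (N : ℤ) ^ 2 → ‖v ^ k‖ ≤ Real.exp 1) (p q : Fin N × Fin N) :
    ‖crossP N v p q‖ ≤ 32 * Real.exp 1 ^ 2 * ‖PP N p q‖ := by
  have hq1 := q.1.2
  have hp1 := p.1.2
  have hfr : brf (rt N) (N - 1 - q.1) ≠ 0 := norm_pos_iff.1 (h (N - 1 - q.1) (by omega)).1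
  by_cases hh : (p.1 : ℕ) + p.2 = q.1 + q.2 ∧ (q.2 : ℕ) ≤ p.1
  · rw [norm_crossP v p q hh.1 hh.2 (h.ne (by omega))]
    have e1 : ‖PP N p q‖ = Y (rt N) p.1 q.2 ((p.1 : ℕ) - q.2) (N - 1 - p.2) (N - 1 - q.1) := by
      unfold PP
      rw [norm_crossP (rt N) p q hh.1 hh.2 hfr, rt_zpow, rt_zpow, one_mul, one_mul]
    rw [e1]
    calc _ ≤ Real.exp 1 * Real.exp 1 *
          (32 * Y (rt N) p.1 q.2 ((p.1 : ℕ) - q.2) (N - 1 - p.2) (N - 1 - q.1)) :=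
          mul_le_mul (mul_le_mul (hp _ (exp_bdP p q)) (hp _ (half_bd p.1.2)) (norm_nonneg _)
            (Real.exp_pos _).le) (Y_le h p.1.2 q.2.2 (by omega) (by omega) (by omega))
            (Y_nonneg _ _ _ _ _ _) (by positivity)
      _ = _ := by ring
  · unfold crossP
    rw [if_neg hh, norm_zero]
    positivity

lemma crossN_le {N : ℕ} {v : ℂ} (h : Fac N v)
    (hp : ∀ k : ℤ, |k| ≤ 4 * (N : ℤ) ^ 2 → ‖v ^ k‖ ≤ Real.exp 1) (p q : Fin N × Fin N) :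
    ‖crossN N v p q‖ ≤ 32 * Real.exp 1 ^ 2 * ‖QQ N p q‖ := by
  have hq1 := q.2.2
  have hp1 := p.2.2
  have hfr : brf (rt N) (N - 1 - q.2) ≠ 0 := norm_pos_iff.1 (h (N - 1 - q.2) (by omega)).1
  by_cases hh : (p.1 : ℕ) + p.2 = q.1 + q.2 ∧ (q.1 : ℕ) ≤ p.2
  · rw [norm_crossN v p q hh.1 hh.2 (h.ne (by omega))]
    have e1 : ‖QQ N p q‖ = Y (rt N) p.2 q.1 ((p.2 : ℕ) - q.1) (N - 1 - p.1) (N - 1 - q.2) := by
      unfold QQ
      rw [norm_crossN (rt N) p q hh.1 hh.2 hfr, rt_zpow, rt_zpow, one_mul, one_mul]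
    rw [e1]
    calc _ ≤ Real.exp 1 * Real.exp 1 *
          (32 * Y (rt N) p.2 q.1 ((p.2 : ℕ) - q.1) (N - 1 - p.1) (N - 1 - q.2)) :=
          mul_le_mul (mul_le_mul (hp _ (exp_bdN q)) (hp _ (by
              rw [abs_neg]; exact half_bd p.2.2)) (norm_nonneg _)
            (Real.exp_pos _).le) (Y_le h p.2.2 q.1.2 (by omega) (by omega) (by omega))
            (Y_nonneg _ _ _ _ _ _) (by positivity)
      _ = _ := by ring
  · unfold crossN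
    rw [if_neg hh, norm_zero]
    positivity

lemma kap_bd {N k : ℕ} (hk : k < N) : |(k : ℤ) * ((N : ℤ) - 2 - k)| ≤ 4 * (N : ℤ) ^ 2 := by
  have h1 : (k : ℤ) + 1 ≤ N := by exact_mod_cast hk
  have h2 : (0 : ℤ) ≤ k := by positivity
  rw [abs_le]
  constructor <;> nlinarith

lemma kap_le {N : ℕ} {v : ℂ} (h : Fac N v)
    (hp : ∀ k : ℤ, |k| ≤ 4 * (N : ℤ) ^ 2 → ‖v ^ k‖ ≤ Real.exp 1) {k : ℕ} (hk : k < N) :
    ‖kap N v k‖ ≤ 8 * Real.exp 1 ∧ ‖(kap N v k)⁻¹‖ ≤ 8 * Real.exp 1 := by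
  obtain ⟨a1, a2, a3⟩ := h k hk
  obtain ⟨b1, b2, b3⟩ := h (N - 1 - k) (by omega)
  obtain ⟨c1, c2, c3⟩ := h (N - 1) (by omega)
  have ha := h.pos hk
  have hb := h.pos (k := N - 1 - k) (by omega)
  have hc := h.pos (k := N - 1) (by omega)
  have e1 : Fa N k * Fa N (N - 1 - k) = Fa N (N - 1) := by
    have := Pool.Agent.W28.QAT.norm_kap_one hk
    unfold kap at this
    rw [norm_mul, norm_mul, norm_div, norm_mul, rt_zpow, norm_pow, norm_neg, norm_one, one_pow,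
      one_mul, one_mul] at this
    have h4 : Fa N k * Fa N (N - 1 - k) / Fa N (N - 1) = 1 := this
    rwa [div_eq_one_iff_eq c1.ne'] at h4
  have e2 : ‖kap N v k‖ = ‖v ^ ((k : ℤ) * ((N : ℤ) - 2 - k))‖ *
      (‖brf v k‖ * ‖brf v (N - 1 - k)‖ / ‖brf v (N - 1)‖) := by
    unfold kap
    rw [norm_mul, norm_mul, norm_div, norm_mul, norm_pow, norm_neg, norm_one, one_pow, one_mul]
  have e3 : ‖(kap N v k)⁻¹‖ = ‖v ^ (-((k : ℤ) * ((N : ℤ) - 2 - k)))‖ *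
      (‖brf v (N - 1)‖ / (‖brf v k‖ * ‖brf v (N - 1 - k)‖)) := by
    rw [norm_inv, e2, mul_inv, inv_div, _root_.zpow_neg, norm_inv]
  have r1 : ‖brf v k‖ * ‖brf v (N - 1 - k)‖ / ‖brf v (N - 1)‖ ≤ 8 := by
    rw [div_le_iff₀ hc]
    calc ‖brf v k‖ * ‖brf v (N - 1 - k)‖ ≤ (2 * Fa N k) * (2 * Fa N (N - 1 - k)) :=
          mul_le_mul a2 b2 hb.le (by positivity)
      _ = 4 * Fa N (N - 1) := by rw [← e1]; ring
      _ ≤ 4 * (2 * ‖brf v (N - 1)‖) := by linarith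
      _ = 8 * ‖brf v (N - 1)‖ := by ring
  have r2 : ‖brf v (N - 1)‖ / (‖brf v k‖ * ‖brf v (N - 1 - k)‖) ≤ 8 := by
    rw [div_le_iff₀ (by positivity)]
    calc ‖brf v (N - 1)‖ ≤ 2 * Fa N (N - 1) := c2
      _ = 2 * (Fa N k * Fa N (N - 1 - k)) := by rw [e1]
      _ ≤ 2 * ((2 * ‖brf v k‖) * (2 * ‖brf v (N - 1 - k)‖)) :=
        mul_le_mul_of_nonneg_left (mul_le_mul a3 b3 b1.le (by positivity)) (by norm_num)
      _ = 8 * (‖brf v k‖ * ‖brf v (N - 1 - k)‖) := by ring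
  constructor
  · rw [e2, mul_comm (8 : ℝ)]
    exact mul_le_mul (hp _ (kap_bd hk)) r1 (by positivity) (Real.exp_pos _).le
  · rw [e3, mul_comm (8 : ℝ)]
    exact mul_le_mul (hp _ (by rw [abs_neg]; exact kap_bd hk)) r2 (by positivity)
      (Real.exp_pos _).le

/-- Job JE. -/
theorem t (hP : S_POW) (hF : S_FAC) : S_ENTRY := by
  intro ε hε
  have hONE := Pool.Agent.W709.QAT.one Pool.Agent.W563.QAT.lb (ε / 2) (by positivity)
  have hLB := Pool.Agent.W563.QAT.lb 1 one_pos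
  have hexp : ∀ᶠ N : ℕ in atTop, 32 * Real.exp 1 ^ 2 ≤ Real.exp (N * (ε / 2)) := by
    have h1 : Tendsto (fun N : ℕ => Real.exp ((N : ℝ) * (ε / 2))) atTop atTop :=
      Real.tendsto_exp_atTop.comp
        (tendsto_natCast_atTop_atTop.atTop_mul_const (by positivity : (0 : ℝ) < ε / 2))
    exact h1.eventually_ge_atTop _
  filter_upwards [hP 4 1 one_pos, hF, hONE, hLB, hexp, eventually_ge_atTop 1] with
    N h1 h2 h3 h4 h5 h6 v hv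
  have hN1 : (1 : ℝ) ≤ N := by exact_mod_cast h6
  have hp : ∀ k : ℤ, |k| ≤ 4 * (N : ℤ) ^ 2 → ‖v ^ k‖ ≤ Real.exp 1 := by
    intro k hk
    refine (h1 v hv k (by exact_mod_cast hk)).trans (Real.exp_le_exp.2 ?_)
    rw [div_le_one (by linarith)]
    exact hN1
  have hFac : Fac N v := fun k hk => ⟨(h4 k hk).1, ((h2 v hv).2 k hk)⟩
  have key : ∀ x : ℝ, 0 ≤ x → x ≤ Real.exp (N * (4 * lob (π / 4) / π + ε / 2)) →
      32 * Real.exp 1 ^ 2 * x ≤ Real.exp (N * (4 * lob (π / 4) / π + ε)) := by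
    intro x hx0 hx
    calc 32 * Real.exp 1 ^ 2 * x ≤ Real.exp (N * (ε / 2)) *
          Real.exp (N * (4 * lob (π / 4) / π + ε / 2)) :=
          mul_le_mul h5 hx hx0 (Real.exp_pos _).le
      _ = Real.exp (N * (4 * lob (π / 4) / π + ε)) := by
        rw [← Real.exp_add]
        congr 1
        ring
  have h8 : 8 * Real.exp 1 ≤ Real.exp (N * ε) := by
    have e1 : (1 : ℝ) ≤ Real.exp 1 := Real.one_le_exp (by norm_num)
    calc 8 * Real.exp 1 ≤ 32 * Real.exp 1 ^ 2 := by nlinarith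
      _ ≤ Real.exp (N * (ε / 2)) := h5
      _ ≤ Real.exp (N * ε) := Real.exp_le_exp.2 (by nlinarith)
  refine ⟨fun p q => ⟨?_, ?_⟩, fun p => ⟨?_, ?_⟩⟩
  · exact (crossP_le hFac hp p q).trans (key _ (norm_nonneg _) (h3 p q).1)
  · exact (crossN_le hFac hp p q).trans (key _ (norm_nonneg _) (h3 p q).2)
  · unfold Pool.Agent.W709.QAT.cup
    split_ifs with h
    · exact (kap_le hFac hp p.1.2).1.trans h8
    · rw [norm_zero]; exact (Real.exp_pos _).le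
  · unfold Pool.Agent.W709.QAT.cap
    split_ifs with h
    · exact (kap_le hFac hp p.2.2).2.trans h8
    · rw [norm_zero]; exact (Real.exp_pos _).le

end Pool.Agent.K7.H60.FT_JE
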