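import Pool.Agent.K7.H47.DM.Stm

/-!
# Project DM (MP_344d54_co), job QUAD
-/

set_option autoImplicit false

open Polynomial

namespace Pool.Agent.K7.H60.DMQUAD

open Pool.Agent.K7.H47.DM

/-- divisibility from the derivatives -/
theorem dvd_iff (Q : ℂ[X]) (hQ : Q ≠ 0) (t : ℂ) (m : ℕ) :
    (∀ j < m, (derivative^[j] Q).eval t = 0) ↔ (X - C t) ^ m ∣ Q := by
  rw [← le_rootMultiplicity_iff hQ]
  rcases m with _ | m
  · simp
  · rw [Nat.succ_le_iff, lt_rootMultiplicity_iff_isRoot_iterate_derivative hQ]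
    constructor
    · intro h i hi
      exact h i (by omega)
    · intro h i hi
      exact h i (by omega)

theorem desc (n : ℕ) : (n + 1).descFactorial n = (n + 1).factorial := by
  have := Nat.factorial_mul_descFactorial (n := n + 1) (k := n) (by omega)
  simpa using this

/-- the model polynomial -/
noncomputable def F (a b c : ℕ) (x u k : ℂ) : ℂ[X] :=
  C k * ((X - C 0) ^ a * ((X - C 1) ^ b * (X - C x) ^ c * (X - C u)))

theorem F_ne (a b c : ℕ) (x u k : ℂ) (hk : k ≠ 0) : F a b c x u k ≠ 0 := by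
  unfold F
  refine mul_ne_zero (by simpa using hk) (mul_ne_zero (pow_ne_zero _ (X_sub_C_ne_zero _))
    (mul_ne_zero (mul_ne_zero (pow_ne_zero _ (X_sub_C_ne_zero _))
      (pow_ne_zero _ (X_sub_C_ne_zero _))) (X_sub_C_ne_zero _)))

theorem monic (a b c : ℕ) (x u : ℂ) :
    ((X - C 0) ^ a * ((X - C 1) ^ b * (X - C x) ^ c * (X - C u)) : ℂ[X]).Monic :=
  ((monic_X_sub_C _).pow _).mul ((((monic_X_sub_C _).pow _).mul ((monic_X_sub_C _).pow _)).mul
    (monic_X_sub_C _))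

theorem deg0 (a b c : ℕ) (x u : ℂ) :
    ((X - C 0) ^ a * ((X - C 1) ^ b * (X - C x) ^ c * (X - C u)) : ℂ[X]).natDegree
      = a + b + c + 1 := by
  rw [Monic.natDegree_mul ((monic_X_sub_C _).pow _)
    ((((monic_X_sub_C _).pow _).mul ((monic_X_sub_C _).pow _)).mul (monic_X_sub_C _)),
    Monic.natDegree_mul (((monic_X_sub_C _).pow _).mul ((monic_X_sub_C _).pow _))
      (monic_X_sub_C _),
    Monic.natDegree_mul ((monic_X_sub_C _).pow _) ((monic_X_sub_C _).pow _),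
    (monic_X_sub_C _).natDegree_pow, (monic_X_sub_C _).natDegree_pow,
    (monic_X_sub_C _).natDegree_pow]
  simp only [natDegree_X_sub_C]
  ring

theorem F_deg (a b c : ℕ) (x u k : ℂ) (hk : k ≠ 0) :
    (F a b c x u k).natDegree = a + b + c + 1 := by
  unfold F
  rw [natDegree_C_mul hk, deg0]

theorem F_dvd0 (a b c : ℕ) (x u k : ℂ) : (X - C 0) ^ a ∣ F a b c x u k := by
  unfold F
  exact Dvd.dvd.mul_left (Dvd.intro _ rfl) _

theorem F_dvd1 (a b c : ℕ) (x u k : ℂ) : (X - C 1) ^ b ∣ F a b c x u k := by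
  unfold F
  refine Dvd.dvd.mul_left (Dvd.dvd.mul_left (Dvd.dvd.mul_right (Dvd.dvd.mul_right ?_ _) _) _) _
  exact dvd_rfl

theorem F_dvdx (a b c : ℕ) (x u k : ℂ) : (X - C x) ^ c ∣ F a b c x u k := by
  unfold F
  refine Dvd.dvd.mul_left (Dvd.dvd.mul_left (Dvd.dvd.mul_right (Dvd.dvd.mul_left ?_ _) _) _) _
  exact dvd_rfl

/-- (G) -/
theorem F_G (a b c : ℕ) (x u k : ℂ) (hk : k ≠ 0) (hx : x ≠ 0) :
    (derivative^[a + 1] (F a (b + 1) (c + 1) x u k)).eval 0 = 0 ↔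
      x + u * ((b + 1 : ℕ) * x + (c + 1 : ℕ)) = 0 := by
  have h1 : (derivative^[a + 1] (F a (b + 1) (c + 1) x u k)).eval 0
      = ((a + 1).factorial : ℂ) * (F a (b + 1) (c + 1) x u k).coeff (a + 1) := by
    rw [← coeff_zero_eq_eval_zero, coeff_iterate_derivative, zero_add, Nat.descFactorial_self,
      nsmul_eq_mul]
  have h2 : (F a (b + 1) (c + 1) x u k).coeff (a + 1)
      = k * ((X - C 1) ^ (b + 1) * (X - C x) ^ (c + 1) * (X - C u) : ℂ[X]).coeff 1 := by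
    unfold F
    rw [coeff_C_mul, C_0, sub_zero, add_comm a 1, coeff_X_pow_mul]
  have h3 : ((X - C 1) ^ (b + 1) * (X - C x) ^ (c + 1) * (X - C u) : ℂ[X]).coeff 1
      = (derivative ((X - C 1) ^ (b + 1) * (X - C x) ^ (c + 1) * (X - C u) : ℂ[X])).eval 0 := by
    rw [← coeff_zero_eq_eval_zero, coeff_derivative]
    simp
  have h4 : (derivative ((X - C 1) ^ (b + 1) * (X - C x) ^ (c + 1) * (X - C u) : ℂ[X])).eval 0
      = (-1) ^ b * (-x) ^ c * (x + u * ((b + 1 : ℕ) * x + (c + 1 : ℕ))) := by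
    simp only [derivative_mul, derivative_pow, derivative_sub, derivative_X, derivative_C,
      eval_add, eval_mul, eval_sub, eval_pow, eval_X, eval_C, sub_zero, eval_one,
      Nat.add_sub_cancel]
    push_cast
    ring
  rw [h1, h2, h3, h4]
  have hf : ((a + 1).factorial : ℂ) ≠ 0 := by exact_mod_cast Nat.factorial_ne_zero _
  have hp1 : ((-1 : ℂ)) ^ b ≠ 0 := pow_ne_zero _ (by norm_num)
  have hp2 : (-x : ℂ) ^ c ≠ 0 := pow_ne_zero _ (neg_ne_zero.mpr hx)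
  constructor
  · intro h
    rcases mul_eq_zero.mp h with h | h
    · exact absurd h hf
    rcases mul_eq_zero.mp h with h | h
    · exact absurd h hk
    rcases mul_eq_zero.mp h with h | h
    · exact absurd h (mul_ne_zero hp1 hp2)
    exact h
  · intro h
    rw [h]
    simp

/-- (C) -/
theorem F_C (a b c : ℕ) (x u k : ℂ) (hk : k ≠ 0) :
    (derivative^[a + b + c] (F a b c x u k)).eval 1 = 0 ↔
      (a + b + c + 1 : ℕ) = (b : ℂ) + c * x + u := by
  set n := a + b + c with hn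
  have hdeg : (F a b c x u k).natDegree = n + 1 := F_deg a b c x u k hk
  have hd : (derivative^[n] (F a b c x u k)).natDegree < 2 := by
    have := natDegree_iterate_derivative (F a b c x u k) n
    omega
  have h1 : (derivative^[n] (F a b c x u k)).eval 1
      = (n.factorial : ℂ) * (F a b c x u k).coeff n
        + ((n + 1).factorial : ℂ) * (F a b c x u k).coeff (n + 1) := by
    rw [eval_eq_sum_range' hd]
    rw [Finset.sum_range_succ, Finset.sum_range_one, coeff_iterate_derivative,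
      coeff_iterate_derivative]
    rw [zero_add, add_comm 1 n, desc n, Nat.descFactorial_self]
    simp
  have h2 : (F a b c x u k).coeff (n + 1) = k := by
    unfold F
    rw [coeff_C_mul]
    have := (monic a b c x u).coeff_natDegree
    rw [deg0] at this
    rw [this, mul_one]
  have h3 : (F a b c x u k).coeff n = k * (-((b : ℂ) + c * x + u)) := by
    unfold F
    rw [coeff_C_mul]
    have hnc : ((X - C 0) ^ a * ((X - C 1) ^ b * (X - C x) ^ c * (X - C u)) : ℂ[X]).nextCoeff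
        = -((b : ℂ) + c * x + u) := by
      rw [Monic.nextCoeff_mul ((monic_X_sub_C _).pow _)
        ((((monic_X_sub_C _).pow _).mul ((monic_X_sub_C _).pow _)).mul (monic_X_sub_C _)),
        Monic.nextCoeff_mul (((monic_X_sub_C _).pow _).mul ((monic_X_sub_C _).pow _))
          (monic_X_sub_C _),
        Monic.nextCoeff_mul ((monic_X_sub_C _).pow _) ((monic_X_sub_C _).pow _),
        (monic_X_sub_C _).nextCoeff_pow, (monic_X_sub_C _).nextCoeff_pow,
        (monic_X_sub_C _).nextCoeff_pow]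
      simp only [nextCoeff_X_sub_C, nsmul_eq_mul]
      ring
    rw [nextCoeff_of_natDegree_pos (by rw [deg0]; omega), deg0] at hnc
    rw [← hnc]
    rfl
  rw [h1, h2, h3]
  have hf : ((n.factorial : ℕ) : ℂ) ≠ 0 := by exact_mod_cast Nat.factorial_ne_zero _
  have e : (n.factorial : ℂ) * (k * (-((b : ℂ) + c * x + u))) + ((n + 1).factorial : ℂ) * k
      = n.factorial * k * (((n + 1 : ℕ) : ℂ) - ((b : ℂ) + c * x + u)) := by
    rw [Nat.factorial_succ]
    push_cast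
    ring
  rw [e, mul_eq_zero, or_iff_right (mul_ne_zero hf hk), sub_eq_zero]

/-- the factorization of `Q` -/
theorem fact (a b c : ℕ) (y : ℂ) (hy0 : y ≠ 0) (hy1 : y ≠ 1) (Q : ℂ[X]) (hQ : Q ≠ 0)
    (hd : Q.natDegree = a + b + c + 1)
    (h0 : (X - C 0) ^ a ∣ Q) (h1 : (X - C 1) ^ b ∣ Q) (hy : (X - C y) ^ c ∣ Q) :
    ∃ k v : ℂ, k ≠ 0 ∧ Q = F a b c y v k := by
  have cop : ∀ (s t : ℂ) (i j : ℕ), s ≠ t → IsCoprime ((X - C s : ℂ[X]) ^ i) ((X - C t) ^ j) :=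
    fun s t i j hst => (isCoprime_X_sub_C_of_isUnit_sub
      (isUnit_iff_ne_zero.mpr (sub_ne_zero.mpr hst))).pow
  have h2 : (X - C 1) ^ b * (X - C y) ^ c ∣ Q := (cop 1 y b c (Ne.symm hy1)).mul_dvd h1 hy
  have h3 : (X - C 0) ^ a * ((X - C 1) ^ b * (X - C y) ^ c) ∣ Q :=
    ((cop 0 1 a b (by norm_num)).mul_right (cop 0 y a c (Ne.symm hy0))).mul_dvd h0 h2
  obtain ⟨L, hL⟩ := h3
  have hL0 : L ≠ 0 := by
    rintro rfl
    exact hQ (by rw [hL, mul_zero])
  have hm : ((X - C 0) ^ a * ((X - C 1) ^ b * (X - C y) ^ c) : ℂ[X]).Monic :=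
    ((monic_X_sub_C _).pow _).mul (((monic_X_sub_C _).pow _).mul ((monic_X_sub_C _).pow _))
  have hmd : ((X - C 0) ^ a * ((X - C 1) ^ b * (X - C y) ^ c) : ℂ[X]).natDegree = a + b + c := by
    rw [Monic.natDegree_mul ((monic_X_sub_C _).pow _)
      (((monic_X_sub_C _).pow _).mul ((monic_X_sub_C _).pow _)),
      Monic.natDegree_mul ((monic_X_sub_C _).pow _) ((monic_X_sub_C _).pow _),
      (monic_X_sub_C _).natDegree_pow, (monic_X_sub_C _).natDegree_pow,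
      (monic_X_sub_C _).natDegree_pow]
    simp only [natDegree_X_sub_C]
    ring
  have hLd : L.natDegree = 1 := by
    have := hm.natDegree_mul' hL0
    rw [← hL, hd, hmd] at this
    omega
  obtain ⟨k, hk, l, hkl⟩ := natDegree_eq_one.mp hLd
  refine ⟨k, -l / k, hk, ?_⟩
  rw [hL, ← hkl]
  unfold F
  have e : (C k * X + C l : ℂ[X]) = C k * (X - C (-l / k)) := by
    rw [mul_sub, ← C_mul, mul_div_cancel₀ _ hk, C_neg]
    ring
  rw [e]
  ring

/-- **JOB QUAD.** -/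
theorem t : StQuad := by
  intro x y hx0 hx1 hy0 hy1 hT p q s hp hs hpq hD hx
  have hDpos : 0 < q ^ 2 + 4 * p * s := by positivity
  obtain ⟨X0, Y0, hXY, hY0⟩ := Pell.exists_of_not_isSquare hDpos hD
  obtain ⟨Xx, hXx⟩ : ∃ Z : ℤ, Z = |X0| := ⟨_, rfl⟩
  obtain ⟨Y, hY⟩ : ∃ Z : ℤ, Z = |Y0| := ⟨_, rfl⟩
  have hYpos : 0 < Y := by rw [hY]; exact abs_pos.mpr hY0
  have hP : Xx ^ 2 = (q ^ 2 + 4 * p * s) * Y ^ 2 + 1 := by
    rw [hXx, hY, sq_abs, sq_abs]
    linarith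
  have hX0 : 0 ≤ Xx := by rw [hXx]; exact abs_nonneg _
  have hps : 0 < p * s := mul_pos hp hs
  have hY2 : 0 < Y ^ 2 := by positivity
  have hc : 0 < Xx - q * Y := by
    have : (q * Y) ^ 2 < Xx ^ 2 := by
      rw [hP]
      nlinarith [mul_pos hps hY2]
    have := abs_lt_of_sq_lt_sq this hX0
    have h2 := le_abs_self (q * Y)
    linarith
  have hb : 0 < 2 * p * Y := by positivity
  have hA : 0 < (2 * s + q) * Y - Xx := by
    have h1 : Xx ^ 2 < ((2 * s + q) * Y) ^ 2 := by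
      rw [hP]
      have : 1 ≤ s * (s + q - p) * Y ^ 2 := by
        have : 0 < s * (s + q - p) * Y ^ 2 := by
          have : 0 < s + q - p := by linarith
          positivity
        linarith
      nlinarith
    have h2 : 0 ≤ (2 * s + q) * Y := by
      have : 0 < 2 * s + q := by linarith
      positivity
    have := abs_lt_of_sq_lt_sq h1 h2
    have h3 := le_abs_self Xx
    linarith
  obtain ⟨a, ha⟩ : ∃ a : ℕ, (a : ℤ) = (2 * s + q) * Y - Xx - 1 :=
    ⟨((2 * s + q) * Y - Xx - 1).toNat, by rw [Int.toNat_of_nonneg (by linarith)]⟩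
  obtain ⟨b, hb'⟩ : ∃ b : ℕ, ((b + 1 : ℕ) : ℤ) = 2 * p * Y :=
    ⟨(2 * p * Y - 1).toNat, by push_cast; rw [Int.toNat_of_nonneg (by linarith)]; ring⟩
  obtain ⟨c, hc'⟩ : ∃ c : ℕ, ((c + 1 : ℕ) : ℤ) = Xx - q * Y :=
    ⟨(Xx - q * Y - 1).toNat, by push_cast; rw [Int.toNat_of_nonneg (by linarith)]; ring⟩
  -- the identity
  have haC : (a : ℂ) = (2 * s + q) * Y - Xx - 1 := by exact_mod_cast ha
  have hbC : ((b + 1 : ℕ) : ℂ) = 2 * p * Y := by exact_mod_cast hb'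
  have hcC : ((c + 1 : ℕ) : ℂ) = Xx - q * Y := by exact_mod_cast hc'
  have hPC : (Xx : ℂ) ^ 2 = (q ^ 2 + 4 * p * s) * Y ^ 2 + 1 := by exact_mod_cast hP
  have key : ∀ z u : ℂ, ((a + (b + 1) + (c + 1) + 1 : ℕ) : ℂ)
      = ((b + 1 : ℕ) : ℂ) + ((c + 1 : ℕ) : ℂ) * z + u →
      z + u * (((b + 1 : ℕ) : ℂ) * z + ((c + 1 : ℕ) : ℂ))
        = - 2 * Y * (Xx - q * Y) * (p * z ^ 2 - q * z - s) := by
    intro z u hu
    have hu' : u = a + ((c + 1 : ℕ) : ℂ) + 1 - ((c + 1 : ℕ) : ℂ) * z := by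
      have e : ((a + (b + 1) + (c + 1) + 1 : ℕ) : ℂ)
        = a + ((b + 1 : ℕ) : ℂ) + ((c + 1 : ℕ) : ℂ) + 1 := by push_cast; ring
      rw [e] at hu
      linear_combination -hu
    rw [hu', hbC, hcC, haC]
    linear_combination (-z) * hPC
  have hne : (-2 * Y * (Xx - q * Y) : ℂ) ≠ 0 := by
    have h1 : (Y : ℂ) ≠ 0 := by exact_mod_cast hYpos.ne'
    have h2 : ((Xx : ℂ) - q * Y) ≠ 0 := by exact_mod_cast hc.ne'
    exact mul_ne_zero (mul_ne_zero (by norm_num) h1) h2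
  -- the polynomial P
  set u : ℂ := ((a + (b + 1) + (c + 1) + 1 : ℕ) : ℂ)
      - (((b + 1 : ℕ) : ℂ) + ((c + 1 : ℕ) : ℂ) * x) with hu
  have hP0 : F a (b + 1) (c + 1) x u 1 ≠ 0 := F_ne _ _ _ _ _ _ one_ne_zero
  obtain ⟨Q, hQ0, hQd, hQ⟩ := hT _ hP0
  rw [F_deg _ _ _ _ _ _ one_ne_zero] at hQd
  have q0 : (X - C 0) ^ a ∣ Q := by
    rw [← dvd_iff Q hQ0]
    intro j hj
    exact (hQ j).1.mp ((dvd_iff _ hP0 0 a).mpr (F_dvd0 _ _ _ _ _ _) j hj)
  have q1 : (X - C 1) ^ (b + 1) ∣ Q := by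
    rw [← dvd_iff Q hQ0]
    intro j hj
    exact (hQ j).2.1.mp ((dvd_iff _ hP0 1 (b + 1)).mpr (F_dvd1 _ _ _ _ _ _) j hj)
  have qy : (X - C y) ^ (c + 1) ∣ Q := by
    rw [← dvd_iff Q hQ0]
    intro j hj
    exact (hQ j).2.2.mp ((dvd_iff _ hP0 x (c + 1)).mpr (F_dvdx _ _ _ _ _ _) j hj)
  obtain ⟨k, v, hk, rfl⟩ := fact a (b + 1) (c + 1) y hy0 hy1 Q hQ0 hQd q0 q1 qy
  have eC : ((a + (b + 1) + (c + 1) + 1 : ℕ) : ℂ)
      = ((b + 1 : ℕ) : ℂ) + ((c + 1 : ℕ) : ℂ) * y + v :=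
    (F_C a (b + 1) (c + 1) y v k hk).mp ((hQ _).2.1.mp
      ((F_C a (b + 1) (c + 1) x u 1 one_ne_zero).mpr (by rw [hu]; ring)))
  have eG : y + v * (((b + 1 : ℕ) : ℂ) * y + ((c + 1 : ℕ) : ℂ)) = 0 :=
    (F_G a b c y v k hk hy0).mp ((hQ _).1.mp
      ((F_G a b c x u 1 one_ne_zero hx0).mpr (by
        rw [key x u (by rw [hu]; ring), hx, mul_zero])))
  rw [key y v eC] at eG
  exact (mul_eq_zero.mp eG).resolve_left hne

end Pool.Agent.K7.H60.DMQUAD
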