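import Pool.Agent.K7.H49.ML.Stm

/-!
# Project ML, job SEP: sums over separated points
-/

set_option autoImplicit false

open Finset

namespace Pool.Agent.K7.H60.ML

open Pool.Agent.K7.H49.ML

lemma g_nonneg (Λ θ : ℝ) : 0 ≤ g Λ θ := by
  unfold g; exact inv_nonneg.2 (le_trans zero_le_one (le_max_left _ _))

lemma g_anti {Λ a b : ℝ} (hΛ : 0 < Λ) (h : |a| ≤ |b|) : g Λ b ≤ g Λ a := by
  unfold g
  apply inv_anti₀ (lt_of_lt_of_le zero_lt_one (le_max_left _ _))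
  apply max_le_max le_rfl
  have := mul_le_mul_of_nonneg_left h hΛ.le
  linarith

lemma g_le {Λ x : ℝ} (hΛ : 0 < Λ) (hx : 0 < x) : g Λ x ≤ 2 / (Λ * x) := by
  unfold g
  rw [abs_of_pos hx]
  calc (max 1 (Λ * x / 2))⁻¹ ≤ (Λ * x / 2)⁻¹ := inv_anti₀ (by positivity) (le_max_right _ _)
    _ = _ := by rw [inv_div]

lemma sum_g (Λ σ : ℝ) (K : ℕ) (hΛ : 0 < Λ) (hσ : 0 < σ) :
    ∑ j : Fin (K + 1), g Λ (((j : ℕ) : ℝ) * σ) ≤ 1 + 2 / (Λ * σ) * (1 + Real.log K) := by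
  rw [Fin.sum_univ_succ]
  have h0 : g Λ ((((0 : Fin (K + 1)) : ℕ) : ℝ) * σ) = 1 := by simp [g]
  rw [h0]
  have h1 : ∀ j : Fin K, g Λ ((((j.succ : Fin (K + 1)) : ℕ) : ℝ) * σ) ≤
      2 / (Λ * σ) * (((j : ℕ) + 1 : ℕ) : ℝ)⁻¹ := by
    intro j
    have hj : (0 : ℝ) < (((j : ℕ) + 1 : ℕ) : ℝ) := by positivity
    rw [Fin.val_succ]
    refine (g_le hΛ (by positivity)).trans (le_of_eq ?_)
    field_simp
  have h2 : ∑ j : Fin K, (((j : ℕ) + 1 : ℕ) : ℝ)⁻¹ ≤ 1 + Real.log K := by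
    have h3 := harmonic_le_one_add_log K
    rw [Fin.sum_univ_eq_sum_range (fun j => ((j + 1 : ℕ) : ℝ)⁻¹) K]
    refine le_trans (le_of_eq ?_) h3
    unfold harmonic
    push_cast
    rfl
  have h3 : ∑ j : Fin K, g Λ ((((j.succ : Fin (K + 1)) : ℕ) : ℝ) * σ) ≤
      2 / (Λ * σ) * (1 + Real.log K) := by
    calc _ ≤ ∑ j : Fin K, 2 / (Λ * σ) * (((j : ℕ) + 1 : ℕ) : ℝ)⁻¹ :=
          Finset.sum_le_sum fun j _ => h1 j
      _ = 2 / (Λ * σ) * ∑ j : Fin K, (((j : ℕ) + 1 : ℕ) : ℝ)⁻¹ := by rw [Finset.mul_sum]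
      _ ≤ _ := mul_le_mul_of_nonneg_left h2 (by positivity)
  linarith

theorem stSep : StSep := by
  classical
  intro ι S z Λ σ K hΛ hσ hK hsep hz
  -- the code of a number
  have hfl : ∀ p ∈ S, ∀ l, ⌊|z p l| / σ⌋₊ < K + 1 := by
    intro p hp l
    rw [Nat.lt_succ_iff]
    apply Nat.floor_le_of_le
    rw [div_le_iff₀ hσ]
    exact hz p hp l
  let c : ι → Fin 3 → Bool × Fin (K + 1) := fun p l =>
    (decide (z p l < 0), Fin.ofNat (K + 1) ⌊|z p l| / σ⌋₊)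
  have hc2 : ∀ p ∈ S, ∀ l, ((c p l).2 : ℕ) = ⌊|z p l| / σ⌋₊ := by
    intro p hp l
    change ⌊|z p l| / σ⌋₊ % (K + 1) = _
    exact Nat.mod_eq_of_lt (hfl p hp l)
  have hinj : Set.InjOn c S := by
    intro p hp q hq hpq
    by_contra hne
    obtain ⟨l, hl⟩ := hsep p hp q hq hne
    have h1 := congrFun hpq l
    have h2 : ⌊|z p l| / σ⌋₊ = ⌊|z q l| / σ⌋₊ := by
      rw [← hc2 p hp l, ← hc2 q hq l, h1]
    have h3 : (z p l < 0) ↔ (z q l < 0) := by
      have := congrArg Prod.fst h1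
      simpa [c] using this
    have h4 := Nat.floor_le (show 0 ≤ |z p l| / σ by positivity)
    have h5 := Nat.lt_floor_add_one (|z p l| / σ)
    have h6 := Nat.floor_le (show 0 ≤ |z q l| / σ by positivity)
    have h7 := Nat.lt_floor_add_one (|z q l| / σ)
    rw [← h2] at h6 h7
    generalize ⌊|z p l| / σ⌋₊ = m at h4 h5 h6 h7
    rw [le_div_iff₀ hσ] at h4 h6
    rw [div_lt_iff₀ hσ] at h5 h7
    have h8 : |z p l - z q l| < σ := by
      by_cases h0 : z p l < 0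
      · have h0' := h3.1 h0
        rw [abs_of_neg h0] at h4 h5
        rw [abs_of_neg h0'] at h6 h7
        rw [abs_lt]; constructor <;> nlinarith
      · have h0' : ¬ z q l < 0 := fun h => h0 (h3.2 h)
        rw [abs_of_nonneg (not_lt.1 h0)] at h4 h5
        rw [abs_of_nonneg (not_lt.1 h0')] at h6 h7
        rw [abs_lt]; constructor <;> nlinarith
    linarith
  set F : (Fin 3 → Bool × Fin (K + 1)) → ℝ := fun x => ∏ l, g Λ ((((x l).2 : ℕ) : ℝ) * σ) with hF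
  have hF0 : ∀ x, 0 ≤ F x := fun x => Finset.prod_nonneg fun l _ => g_nonneg _ _
  calc ∑ p ∈ S, ∏ l, g Λ (z p l) ≤ ∑ p ∈ S, F (c p) := by
        refine Finset.sum_le_sum fun p hp => ?_
        refine Finset.prod_le_prod (fun l _ => g_nonneg _ _) fun l _ => ?_
        apply g_anti hΛ
        rw [hc2 p hp l]
        have h4 := Nat.floor_le (show 0 ≤ |z p l| / σ by positivity)
        rw [le_div_iff₀ hσ] at h4
        rwa [abs_of_nonneg (by positivity)]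
    _ = ∑ x ∈ S.image c, F x := (Finset.sum_image hinj).symm
    _ ≤ ∑ x, F x := Finset.sum_le_univ_sum_of_nonneg hF0
    _ = ∏ _l : Fin 3, ∑ y : Bool × Fin (K + 1), g Λ (((y.2 : ℕ) : ℝ) * σ) := by
        rw [Finset.prod_univ_sum, Fintype.piFinset_univ]
    _ = (∑ y : Bool × Fin (K + 1), g Λ (((y.2 : ℕ) : ℝ) * σ)) ^ 3 := by
        rw [Finset.prod_const, Finset.card_univ, Fintype.card_fin]
    _ ≤ (2 * (1 + 2 / (Λ * σ) * (1 + Real.log K))) ^ 3 := by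
        apply pow_le_pow_left₀ (Finset.sum_nonneg fun _ _ => g_nonneg _ _)
        rw [Fintype.sum_prod_type]
        simp only [Finset.sum_const, Finset.card_univ, Fintype.card_bool, nsmul_eq_mul]
        push_cast
        exact mul_le_mul_of_nonneg_left (sum_g Λ σ K hΛ hσ) (by norm_num)

end Pool.Agent.K7.H60.ML
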