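import Pool.Agent.K7.H49.ML.Stm2

/-!
# Project ML, job ADJ: Cramer's rule with bounds
-/

set_option autoImplicit false

open Finset

namespace Pool.Agent.K7.H60.ML

open Pool.Agent.K7.H49.ML

lemma cramer_mulVec {r : ℕ} (A : Matrix (Fin r) (Fin r) ℝ) (y : Fin r → ℝ) :
    A.cramer (A.mulVec y) = A.det • y := by
  rw [Matrix.cramer_eq_adjugate_mulVec, Matrix.mulVec_mulVec, Matrix.adjugate_mul,
    Matrix.smul_mulVec, Matrix.one_mulVec]

lemma det_updateCol_lt {r : ℕ} (A : Matrix (Fin r) (Fin r) ℝ) (v : Fin r → ℝ) (c : Fin r)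
    {B σ : ℝ} (hB : 0 ≤ B) (hσ : 0 < σ) (hA : ∀ l i, |A l i| ≤ B) (hv : ∀ l, |v l| < σ) (hB1 : 1 ≤ B) :
    |(A.updateCol c v).det| < r.factorial * (B ^ (r - 1) * σ) := by
  rw [Matrix.det_apply']
  have hterm : ∀ τ : Equiv.Perm (Fin r),
      |((Equiv.Perm.sign τ : ℤ) : ℝ) * ∏ i, A.updateCol c v (τ i) i| < B ^ (r - 1) * σ := by
    intro τ
    have hs : |((Equiv.Perm.sign τ : ℤ) : ℝ)| = 1 := by
      rcases Int.units_eq_one_or (Equiv.Perm.sign τ) with h | h <;> rw [h] <;> simp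
    rw [abs_mul, hs, one_mul, Finset.abs_prod, ← Finset.mul_prod_erase _ _ (Finset.mem_univ c),
      Matrix.updateCol_self]
    have h1 : ∏ i ∈ Finset.univ.erase c, |A.updateCol c v (τ i) i| ≤ B ^ (r - 1) := by
      calc ∏ i ∈ Finset.univ.erase c, |A.updateCol c v (τ i) i|
          ≤ ∏ i ∈ Finset.univ.erase c, B := by
            refine Finset.prod_le_prod (fun i _ => abs_nonneg _) fun i hi => ?_
            rw [Matrix.updateCol_ne (Finset.ne_of_mem_erase hi)]
            exact hA _ _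
        _ = B ^ (r - 1) := by
            rw [Finset.prod_const, Finset.card_erase_of_mem (Finset.mem_univ c),
              Finset.card_univ, Fintype.card_fin]
    have h2 : 0 < B ^ (r - 1) := pow_pos (by linarith) _
    calc |v (τ c)| * ∏ i ∈ Finset.univ.erase c, |A.updateCol c v (τ i) i|
        ≤ |v (τ c)| * B ^ (r - 1) := mul_le_mul_of_nonneg_left h1 (abs_nonneg _)
      _ < σ * B ^ (r - 1) := mul_lt_mul_of_pos_right (hv _) h2
      _ = _ := mul_comm _ _
  calc |∑ τ : Equiv.Perm (Fin r), ((Equiv.Perm.sign τ : ℤ) : ℝ) * ∏ i, A.updateCol c v (τ i) i|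
      ≤ ∑ τ : Equiv.Perm (Fin r), |((Equiv.Perm.sign τ : ℤ) : ℝ) * ∏ i, A.updateCol c v (τ i) i| :=
        Finset.abs_sum_le_sum_abs _ _
    _ < ∑ _τ : Equiv.Perm (Fin r), B ^ (r - 1) * σ :=
        Finset.sum_lt_sum_of_nonempty Finset.univ_nonempty fun τ _ => hterm τ
    _ = _ := by
        rw [Finset.sum_const, Finset.card_univ, Fintype.card_perm, Fintype.card_fin, nsmul_eq_mul]

theorem stAdj : StAdj := by
  intro r W B hB hW hWB y σ hy c
  have hσ : 0 < σ := lt_of_le_of_lt (abs_nonneg _) (hy c)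
  have hB1 : (1 : ℝ) ≤ B := by exact_mod_cast hB
  set A : Matrix (Fin r) (Fin r) ℝ := W.map (Int.castRingHom ℝ) with hA
  have hdet : A.det = (W.det : ℝ) := by
    rw [hA, ← RingHom.mapMatrix_apply, ← RingHom.map_det]; rfl
  have hdet1 : 1 ≤ |A.det| := by
    rw [hdet]
    exact_mod_cast Int.one_le_abs hW
  have h1 := congrFun (cramer_mulVec A y) c
  rw [Matrix.cramer_apply, Pi.smul_apply, smul_eq_mul] at h1
  have h2 := det_updateCol_lt A (A.mulVec y) c (B := B) (σ := σ) (by positivity) hσ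
    (fun l i => by
      have := hWB l i
      rw [hA, Matrix.map_apply]
      change |((W l i : ℤ) : ℝ)| ≤ (B : ℝ)
      exact_mod_cast this)
    (fun l => hy l) hB1
  rw [h1, abs_mul] at h2
  have h3 : |y c| ≤ |A.det| * |y c| := le_mul_of_one_le_left (abs_nonneg _) hdet1
  have h4 : (B : ℝ) ^ (r - 1) ≤ (B : ℝ) ^ r := pow_le_pow_right₀ hB1 (Nat.sub_le _ _)
  calc |y c| < r.factorial * ((B : ℝ) ^ (r - 1) * σ) := lt_of_le_of_lt h3 h2
    _ ≤ r.factorial * ((B : ℝ) ^ r * σ) := by gcongr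
    _ = _ := by ring

end Pool.Agent.K7.H60.ML
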