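import Pool.Agent.K7.H49.ML.Stm3

/-!
# Project ML (MP_ecd12e_nt), job KER: the kernel of the integers
-/

set_option autoImplicit false

namespace Pool.Agent.K7.H60.MLKER

open Pool.Agent.K7.H49.ML

/-- the geometric sum -/
theorem geo (L : ℕ) (y : ℝ) (hy : |y| ≤ Real.pi) :
    ‖∑ x ∈ Finset.Ioc L (2 * L), Complex.exp (((y * (x : ℝ) : ℝ) : ℂ) * Complex.I)‖
      * (2 * |y| / Real.pi) ≤ 2 := by
  set w : ℂ := Complex.exp (Complex.I * y) with hw
  have hw1 : ‖w‖ = 1 := by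
    rw [hw, mul_comm]
    exact Complex.norm_exp_ofReal_mul_I y
  have hsum : ∑ x ∈ Finset.Ioc L (2 * L), Complex.exp (((y * (x : ℝ) : ℝ) : ℂ) * Complex.I)
      = ∑ x ∈ Finset.Ico (L + 1) (2 * L + 1), w ^ x := by
    refine Finset.sum_congr (by ext x; simp only [Finset.mem_Ioc, Finset.mem_Ico]; omega) ?_
    intro x _
    rw [hw, ← Complex.exp_nat_mul]
    congr 1
    push_cast
    ring
  have hg := geom_sum_Ico_mul w (show L + 1 ≤ 2 * L + 1 by omega)
  have h1 : ‖w - 1‖ = 2 * |Real.sin (y / 2)| := by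
    rw [hw, Complex.norm_exp_I_mul_ofReal_sub_one, norm_mul, Real.norm_eq_abs, Real.norm_eq_abs]
    norm_num
  have h2 : 2 / Real.pi * |y / 2| ≤ |Real.sin (y / 2)| := by
    apply Real.mul_abs_le_abs_sin
    rw [abs_div]
    norm_num
    linarith
  have h3 : 2 * |y| / Real.pi ≤ ‖w - 1‖ := by
    rw [h1]
    have e : 2 * |y| / Real.pi = 2 * (2 / Real.pi * |y / 2|) := by
      rw [abs_div]
      norm_num
      ring
    rw [e]
    linarith
  rw [hsum]
  calc ‖∑ x ∈ Finset.Ico (L + 1) (2 * L + 1), w ^ x‖ * (2 * |y| / Real.pi)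
      ≤ ‖∑ x ∈ Finset.Ico (L + 1) (2 * L + 1), w ^ x‖ * ‖w - 1‖ :=
        mul_le_mul_of_nonneg_left h3 (norm_nonneg _)
    _ = ‖w ^ (2 * L + 1) - w ^ (L + 1)‖ := by rw [← norm_mul, hg]
    _ ≤ ‖w ^ (2 * L + 1)‖ + ‖w ^ (L + 1)‖ := norm_sub_le _ _
    _ = 2 := by rw [norm_pow, norm_pow, hw1]; norm_num

/-- the trivial bound -/
theorem triv (L : ℕ) (y : ℝ) :
    ‖∑ x ∈ Finset.Ioc L (2 * L), Complex.exp (((y * (x : ℝ) : ℝ) : ℂ) * Complex.I)‖ ≤ L := by
  refine (norm_sum_le _ _).trans ?_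
  have : ∀ x ∈ Finset.Ioc L (2 * L), ‖Complex.exp (((y * (x : ℝ) : ℝ) : ℂ) * Complex.I)‖ = 1 :=
    fun x _ => Complex.norm_exp_ofReal_mul_I _
  rw [Finset.sum_congr rfl this]
  simp only [Finset.sum_const, Nat.card_Ioc, nsmul_eq_mul, mul_one]
  exact_mod_cast (by omega : 2 * L - L ≤ L)

/-- **JOB KER.** -/
theorem t : StKer := by
  intro L V θ hL hθ
  have hpi := Real.pi_pos
  have hL0 : (0 : ℝ) < L := by exact_mod_cast hL
  obtain ⟨v, hv⟩ : ∃ v : ℤ, v = round (θ / (2 * Real.pi)) := ⟨_, rfl⟩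
  obtain ⟨y, hy⟩ : ∃ y : ℝ, y = θ - 2 * Real.pi * v := ⟨_, rfl⟩
  have hr := abs_sub_round (θ / (2 * Real.pi))
  rw [← hv] at hr
  have hy1 : |y| ≤ Real.pi := by
    have e : y = 2 * Real.pi * (θ / (2 * Real.pi) - v) := by
      rw [hy]; field_simp
    rw [e, abs_mul, abs_of_pos (by positivity : (0 : ℝ) < 2 * Real.pi)]
    nlinarith
  have hvV : v ∈ Finset.Icc (-(V : ℤ)) V := by
    have h1 : |θ / (2 * Real.pi)| ≤ V := by
      rw [abs_div, abs_of_pos (by positivity : (0 : ℝ) < 2 * Real.pi),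
        div_le_iff₀ (by positivity)]
      linarith
    rw [abs_le] at h1 hr
    rw [Finset.mem_Icc]
    constructor
    · have h2 : (-(V : ℤ) : ℝ) - 1 < (v : ℝ) := by push_cast; linarith
      have h3 : (-(V : ℤ)) - 1 < v := by exact_mod_cast h2
      omega
    · have h2 : (v : ℝ) < ((V : ℤ) : ℝ) + 1 := by push_cast; linarith
      have h3 : v < (V : ℤ) + 1 := by exact_mod_cast h2
      omega
  have hg0 : ∀ Λ z : ℝ, 0 ≤ g Λ z := fun Λ z => by
    unfold g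
    exact inv_nonneg.mpr (le_max_of_le_left zero_le_one)
  refine le_trans ?_ (Finset.single_le_sum
    (f := fun v : ℤ => g (2 * L / Real.pi) (θ - 2 * Real.pi * v)) (fun v _ => hg0 _ _) hvV)
  show h L θ ≤ g (2 * L / Real.pi) (θ - 2 * Real.pi * v)
  rw [← hy]
  have hsum : ∑ x ∈ Finset.Ioc L (2 * L), Complex.exp (((θ * (x : ℝ) : ℝ) : ℂ) * Complex.I)
      = ∑ x ∈ Finset.Ioc L (2 * L), Complex.exp (((y * (x : ℝ) : ℝ) : ℂ) * Complex.I) := by
    refine Finset.sum_congr rfl fun x _ => ?_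
    have e : (((θ * (x : ℝ) : ℝ) : ℂ) * Complex.I)
        = ((y * (x : ℝ) : ℝ) : ℂ) * Complex.I + ((v * x : ℤ) : ℂ) * (2 * Real.pi * Complex.I) := by
      rw [hy]
      push_cast
      ring
    rw [e, Complex.exp_add, Complex.exp_int_mul_two_pi_mul_I, mul_one]
  unfold h g
  rw [hsum]
  have ht := triv L y
  have hg := geo L y hy1
  set S := ‖∑ x ∈ Finset.Ioc L (2 * L), Complex.exp (((y * (x : ℝ) : ℝ) : ℂ) * Complex.I)‖
  have hS : 0 ≤ S := norm_nonneg _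
  have hM : (0 : ℝ) < max 1 (2 * L / Real.pi * |y| / 2) := lt_max_of_lt_left one_pos
  rw [← one_div, div_le_div_iff₀ hL0 hM, one_mul]
  rcases max_cases (1 : ℝ) (2 * L / Real.pi * |y| / 2) with ⟨h1, _⟩ | ⟨h1, _⟩
  · rw [h1, mul_one]
    exact ht
  · rw [h1]
    have e : S * (2 * L / Real.pi * |y| / 2) = (S * (2 * |y| / Real.pi)) * (L / 2) := by
      ring
    rw [e]
    calc (S * (2 * |y| / Real.pi)) * (L / 2) ≤ 2 * (L / 2) :=
          mul_le_mul_of_nonneg_right hg (by positivity)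
      _ = L := by ring

end Pool.Agent.K7.H60.MLKER
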