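import Pool.Agent.K7.H60.AAPrm

/-!
From dyadic blocks to all indices.
-/

set_option autoImplicit false

open Finset Filter Topology

namespace Pool.Agent.K7.H60

open Pool.Agent.H361R2.PP

open Classical in
/-- almost all indices: one of the `M` gaps following the `j`-th prime is long -/
def AAP : Prop := ∀ K ε : ℝ, 0 < K → 0 < ε → ∃ M N₀ : ℕ, ∀ N : ℕ, N₀ ≤ N →
  (((range N).filter (fun j => Run K M j)).card : ℝ) ≤ ε * N

theorem step_ineq {X Y : ℕ} (hY : 100 ≤ Y) (hX1 : 2 * X ≤ Y + 1) (hX2 : Y ≤ 2 * X) :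
    5 * ((X : ℝ) / Real.log X) ≤ 4 * (Y / Real.log Y) := by
  have hYr : (100 : ℝ) ≤ Y := by exact_mod_cast hY
  have hXr : (50 : ℝ) ≤ X := by exact_mod_cast (by omega : 50 ≤ X)
  have h1 : 2 * (X : ℝ) ≤ Y + 1 := by exact_mod_cast hX1
  have h2 : (Y : ℝ) ≤ 2 * X := by exact_mod_cast hX2
  have hlY : 4 ≤ Real.log Y := by
    rw [Real.le_log_iff_exp_le (by linarith)]
    have h3 : Real.exp 4 = Real.exp 1 ^ 4 := by
      rw [← Real.exp_nat_mul]; norm_num
    have h4 : Real.exp 1 < 2.7182818286 := Real.exp_one_lt_d9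
    have h5 : Real.exp 1 ^ 4 ≤ 2.7182818286 ^ 4 :=
      pow_le_pow_left₀ (Real.exp_pos 1).le h4.le 4
    rw [h3]
    refine h5.trans ?_
    norm_num
    linarith
  have hl2 : Real.log 2 ≤ 0.7 := by
    have := Real.log_two_lt_d9
    linarith
  have hlX : Real.log Y - 0.7 ≤ Real.log X := by
    have h3 : Real.log Y ≤ Real.log (2 * X) := Real.log_le_log (by linarith) h2
    rw [Real.log_mul (by norm_num) (by linarith)] at h3
    linarith
  have hlX0 : 0 < Real.log X := by linarith
  have hlY0 : 0 < Real.log Y := by linarith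
  rw [← mul_div_assoc, ← mul_div_assoc, div_le_div_iff₀ hlX0 hlY0]
  have h6 : 0.825 * Real.log Y ≤ Real.log X := by linarith
  have h7 : 5 * (X : ℝ) ≤ 2.55 * Y := by linarith
  calc 5 * (X : ℝ) * Real.log Y ≤ 2.55 * Y * Real.log Y :=
        mul_le_mul_of_nonneg_right h7 hlY0.le
    _ ≤ 4 * Y * (0.825 * Real.log Y) := by nlinarith
    _ ≤ 4 * Y * Real.log X := mul_le_mul_of_nonneg_left h6 (by linarith)

open Classical in
theorem aap_of (hI : AAI) (hS : Sec) (hPnt : PntX) : AAP := by
  intro K ε hK hε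
  obtain ⟨M, X₁, h1⟩ := aap_dyadic hI hS K (ε / 48) hK (by positivity)
  obtain ⟨X₂, h2⟩ := hPnt (1 / 2) (by norm_num)
  set f : ℕ → ℝ := fun Y =>
    (((range Y).filter (fun p => p.Prime ∧ Run K M (Nat.count Nat.Prime p))).card : ℝ) with hf
  set A : ℕ := 2 * X₁ + 100 with hA
  have hfY : ∀ Y : ℕ, f Y ≤ Y := by
    intro Y
    have : ((range Y).filter (fun p => p.Prime ∧ Run K M (Nat.count Nat.Prime p))).card ≤ Y := by
      refine (card_filter_le _ _).trans ?_
      rw [card_range]
    simp only [hf]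
    exact_mod_cast this
  have hrec : ∀ Y : ℕ, 1 ≤ Y → f Y ≤ A + 4 * (ε / 48) * (Y / Real.log Y) := by
    intro Y
    induction Y using Nat.strong_induction_on with
    | _ Y ih =>
      intro hY1
      have hlog0 : 0 ≤ Real.log Y := Real.log_nonneg (by exact_mod_cast hY1)
      by_cases hYA : Y ≤ A
      · have q1 := hfY Y
        have q2 : (Y : ℝ) ≤ A := by exact_mod_cast hYA
        have q3 : 0 ≤ 4 * (ε / 48) * ((Y : ℝ) / Real.log Y) := by positivity
        linarith
      · push Not at hYA
        obtain ⟨X, hX⟩ : ∃ X, X = (Y + 1) / 2 := ⟨_, rfl⟩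
        have q1 : 2 * X ≤ Y + 1 := by omega
        have q2 : Y ≤ 2 * X := by omega
        have q3 : X < Y := by omega
        have q4 := ih X q3 (by omega)
        have q5 := h1 X (by omega)
        have q6 : f Y ≤ f X +
            (((Ico X (2 * X)).filter (fun p => p.Prime ∧ Run K M (Nat.count Nat.Prime p))).card : ℝ)
            := by
          have q7 : (range Y).filter (fun p => p.Prime ∧ Run K M (Nat.count Nat.Prime p)) ⊆
              (range X).filter (fun p => p.Prime ∧ Run K M (Nat.count Nat.Prime p)) ∪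
              (Ico X (2 * X)).filter (fun p => p.Prime ∧ Run K M (Nat.count Nat.Prime p)) := by
            intro p hp
            rw [mem_filter, mem_range] at hp
            by_cases hpX : p < X
            · exact mem_union_left _ (mem_filter.2 ⟨mem_range.2 hpX, hp.2⟩)
            · exact mem_union_right _ (mem_filter.2 ⟨mem_Ico.2 ⟨by omega, by omega⟩, hp.2⟩)
          have q8 := (card_le_card q7).trans (card_union_le _ _)
          simp only [hf]
          exact_mod_cast q8
        have q9 := step_ineq (X := X) (Y := Y) (by omega) q1 q2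
        have q10 : (ε / 48) * (5 * ((X : ℝ) / Real.log X)) ≤ (ε / 48) * (4 * (Y / Real.log Y)) :=
          mul_le_mul_of_nonneg_left q9 (by positivity)
        linarith
  obtain ⟨N₁, hN₁⟩ := exists_nat_ge (2 * (A : ℝ) / ε)
  refine ⟨M, N₁ + 3 * X₂ + 3, fun N hN => ?_⟩
  set Y := Nat.nth Nat.Prime N with hY
  have hYN : N ≤ Y := Nat.le_nth (fun h => absurd h Nat.infinite_setOfPred_prime)
  have h3 : (((range N).filter (fun j => Run K M j)).card : ℝ) ≤ f Y := by
    have q1 : ((range N).filter (fun j => Run K M j)).card ≤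
        ((range Y).filter (fun p => p.Prime ∧ Run K M (Nat.count Nat.Prime p))).card := by
      refine card_le_card_of_injOn (fun j => Nat.nth Nat.Prime j) ?_ ?_
      · intro j hj
        rw [mem_coe, mem_filter, mem_range] at hj
        have q2 : Nat.nth Nat.Prime j ∈
            (range Y).filter (fun p => p.Prime ∧ Run K M (Nat.count Nat.Prime p)) := by
          rw [mem_filter, mem_range]
          refine ⟨nth_mono hj.1, nth_prime j, ?_⟩
          rw [Nat.count_nth_of_infinite Nat.infinite_setOfPred_prime]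
          exact hj.2
        exact q2
      · intro a _ b _ hab
        exact Nat.nth_injective Nat.infinite_setOfPred_prime hab
    simp only [hf]
    exact_mod_cast q1
  -- the number of primes below `Y`
  have h4 : (Y : ℝ) / Real.log Y ≤ 6 * N := by
    obtain ⟨X, hX⟩ : ∃ X, X = Y / 2 := ⟨_, rfl⟩
    have q1 : X₂ ≤ X := by omega
    have q2 := (abs_le.1 (h2 X q1)).1
    have q3 : Pr X ≤ N := by
      unfold Pr
      have q4 : ((Ico X (2 * X)).filter Nat.Prime).card ≤ N := by
        have q5 : (Ico X (2 * X)).filter Nat.Prime ⊆ (range Y).filter Nat.Prime := by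
          intro p hp
          rw [mem_filter, mem_Ico] at hp
          rw [mem_filter, mem_range]
          exact ⟨by omega, hp.2⟩
        have q6 := card_le_card q5
        rw [← Nat.count_eq_card_filter_range, hY,
          Nat.count_nth_of_infinite Nat.infinite_setOfPred_prime] at q6
        exact q6
      exact_mod_cast q4
    have hX0 : (1 : ℝ) ≤ X := by exact_mod_cast (by omega : 1 ≤ X)
    have hYX : (Y : ℝ) ≤ 3 * X := by exact_mod_cast (by omega : Y ≤ 3 * X)
    have hXY : (X : ℝ) ≤ Y := by exact_mod_cast (by omega : X ≤ Y)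
    have hlX : 0 ≤ Real.log X := Real.log_nonneg hX0
    have hlXY : Real.log X ≤ Real.log Y := Real.log_le_log (by linarith) hXY
    have hlY : 0 < Real.log Y := by
      apply Real.log_pos
      exact_mod_cast (by omega : 1 < Y)
    rw [div_le_iff₀ hlY]
    have q7 : Pr X * Real.log X ≤ N * Real.log Y :=
      mul_le_mul q3 hlXY hlX (Nat.cast_nonneg _)
    linarith
  have h5 := hrec Y (by omega)
  have h6 : (A : ℝ) ≤ ε / 2 * N := by
    have q1 : (N₁ : ℝ) ≤ N := by exact_mod_cast (by omega : N₁ ≤ N)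
    have q2 : 2 * (A : ℝ) / ε ≤ N := hN₁.trans q1
    rw [div_le_iff₀ hε] at q2
    linarith
  have h7 : 4 * (ε / 48) * ((Y : ℝ) / Real.log Y) ≤ 4 * (ε / 48) * (6 * N) :=
    mul_le_mul_of_nonneg_left h4 (by positivity)
  calc _ ≤ f Y := h3
    _ ≤ _ := h5
    _ ≤ ε / 2 * N + 4 * (ε / 48) * (6 * N) := add_le_add h6 h7
    _ = ε * N := by ring

theorem aap : AAP := aap_of aai sec Pool.Agent.H325R2.pnt

end Pool.Agent.K7.H60
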