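import Pool.Agent.K7.H60.ClsD

/-!
Almost every interval of length `T log X` contains a positive proportion of integers `n` such that
`(n, n + K log X]` contains no prime.
-/

set_option autoImplicit false

open Finset Filter Topology

namespace Pool.Agent.K7.H60

open Pool.Agent.H361R2.PP
open Pool.Agent.H410R2.AC (wt GG cfg term WW pos Inj coef)

/-- almost all short intervals, integers -/
def AAI : Prop := ∀ K ε : ℝ, 0 < K → 0 < ε → ∃ c T₀ : ℝ, 0 < c ∧ 0 < T₀ ∧ ∀ T : ℝ, T₀ ≤ T →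
  ∃ X₀ : ℕ, ∀ X : ℕ, X₀ ≤ X →
  (((Ico X (2 * X)).filter (fun x => (((Ioc x (x + ⌊T * Real.log X⌋₊)).filter
    (fun n => Free ⌊K * Real.log X⌋₊ n)).card : ℝ) < c * (T * Real.log X))).card : ℝ) ≤ ε * X

theorem combine {X Y N : ℕ} {η c : ℝ} (hc : 0 < c) (hY : 0 < Y)
    (h : ∀ b < Wm X, (((Ico X (2 * X)).filter (fun x => (((SI X b).filter
      (fun n => (x < n ∧ n ≤ x + Y) ∧ Free N n)).card : ℝ) < c * ((Y : ℝ) / Wm X))).card : ℝ) ≤
      η * X) :
    (((Ico X (2 * X)).filter (fun x => (((Ioc x (x + Y)).filter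
      (fun n => Free N n)).card : ℝ) < c / 2 * Y)).card : ℝ) ≤ 2 * η * X := by
  classical
  have hW := Wm_pos X
  have hWr : (0 : ℝ) < Wm X := by exact_mod_cast hW
  have hYr : (0 : ℝ) < Y := by exact_mod_cast hY
  set cnt : ℕ → ℕ → ℝ := fun b x => (((SI X b).filter
      (fun n => (x < n ∧ n ≤ x + Y) ∧ Free N n)).card : ℝ) with hcnt
  set E : ℕ → Finset ℕ := fun b => (Ico X (2 * X)).filter
    (fun x => cnt b x < c * ((Y : ℝ) / Wm X)) with hE
  set G := (Ico X (2 * X)).filter (fun x => (((Ioc x (x + Y)).filter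
      (fun n => Free N n)).card : ℝ) < c / 2 * Y) with hG
  have h1 : ∀ x ∈ G, (Wm X : ℝ) / 2 ≤ (((range (Wm X)).filter (fun b => x ∈ E b)).card : ℝ) := by
    intro x hx
    rw [hG, mem_filter] at hx
    have h2 : ∑ b ∈ range (Wm X), cnt b x ≤ (((Ioc x (x + Y)).filter (fun n => Free N n)).card : ℝ) := by
      have h3 : ∑ b ∈ range (Wm X), ((SI X b).filter
          (fun n => (x < n ∧ n ≤ x + Y) ∧ Free N n)).card ≤
          ((Ioc x (x + Y)).filter (fun n => Free N n)).card := by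
        rw [← card_biUnion]
        · apply card_le_card
          intro n hn
          rw [mem_biUnion] at hn
          obtain ⟨b, -, hn⟩ := hn
          rw [mem_filter] at hn ⊢
          rw [mem_Ioc]
          exact hn.2
        · intro b _ b' _ hne
          rw [Function.onFun, disjoint_left]
          intro n hn hn'
          rw [mem_filter, mem_SI] at hn hn'
          exact hne (hn.1.2.2.symm.trans hn'.1.2.2)
      simp only [hcnt]
      exact_mod_cast h3
    have h4 : ((((range (Wm X)).filter (fun b => ¬ x ∈ E b)).card : ℝ)) * (c * ((Y : ℝ) / Wm X)) ≤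
        ∑ b ∈ range (Wm X), cnt b x := by
      rw [← nsmul_eq_mul, ← sum_const]
      calc ∑ b ∈ (range (Wm X)).filter (fun b => ¬ x ∈ E b), c * ((Y : ℝ) / Wm X) ≤
          ∑ b ∈ (range (Wm X)).filter (fun b => ¬ x ∈ E b), cnt b x := by
            refine sum_le_sum fun b hb => ?_
            rw [mem_filter] at hb
            by_contra hcon
            push Not at hcon
            exact hb.2 (by rw [hE]; exact mem_filter.2 ⟨hx.1, hcon⟩)
        _ ≤ _ := sum_le_sum_of_subset_of_nonneg (filter_subset _ _)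
            fun b _ _ => Nat.cast_nonneg _
    have h5 : ((((range (Wm X)).filter (fun b => ¬ x ∈ E b)).card : ℝ)) < (Wm X : ℝ) / 2 := by
      have h6 := lt_of_le_of_lt (h4.trans h2) hx.2
      have h7 : c / 2 * (Y : ℝ) = (Wm X : ℝ) / 2 * (c * ((Y : ℝ) / Wm X)) := by
        field_simp
      rw [h7] at h6
      exact lt_of_mul_lt_mul_right h6 (by positivity)
    have h8 : ((range (Wm X)).filter (fun b => x ∈ E b)).card +
        ((range (Wm X)).filter (fun b => ¬ x ∈ E b)).card = Wm X := by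
      rw [card_filter_add_card_filter_not, card_range]
    have h9 : (((range (Wm X)).filter (fun b => x ∈ E b)).card : ℝ) +
        (((range (Wm X)).filter (fun b => ¬ x ∈ E b)).card : ℝ) = Wm X := by exact_mod_cast h8
    linarith
  have h2 : (Wm X : ℝ) / 2 * (G.card : ℝ) ≤ Wm X * (η * X) := by
    calc (Wm X : ℝ) / 2 * (G.card : ℝ) = ∑ x ∈ G, (Wm X : ℝ) / 2 := by
          rw [sum_const, nsmul_eq_mul, mul_comm]
      _ ≤ ∑ x ∈ G, (((range (Wm X)).filter (fun b => x ∈ E b)).card : ℝ) := sum_le_sum h1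
      _ ≤ ∑ x ∈ Ico X (2 * X), (((range (Wm X)).filter (fun b => x ∈ E b)).card : ℝ) :=
          sum_le_sum_of_subset_of_nonneg (filter_subset _ _) fun _ _ _ => Nat.cast_nonneg _
      _ = ∑ b ∈ range (Wm X), ((E b).card : ℝ) := by
          have h3 : ∀ x ∈ Ico X (2 * X), (((range (Wm X)).filter (fun b => x ∈ E b)).card : ℝ) =
              ∑ b ∈ range (Wm X), if x ∈ E b then (1 : ℝ) else 0 := by
            intro x _
            rw [card_filter]
            push_cast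
            rfl
          rw [sum_congr rfl h3, sum_comm]
          refine sum_congr rfl fun b _ => ?_
          rw [← sum_filter]
          rw [sum_const, nsmul_eq_mul, mul_one]
          congr 2
          ext x
          rw [mem_filter, hE]
          simp only [mem_filter]
          tauto
      _ ≤ ∑ b ∈ range (Wm X), η * X := sum_le_sum fun b hb => h b (mem_range.1 hb)
      _ = Wm X * (η * X) := by rw [sum_const, nsmul_eq_mul, card_range]
  have h3 : (Wm X : ℝ) * (G.card : ℝ) ≤ Wm X * (2 * η * X) := by linarith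
  exact le_of_mul_le_mul_left h3 hWr

theorem small_params (C T s : ℝ) (hC : 0 < C) (hT : 0 < T) (hs : 0 < s) :
    ∃ X₀ : ℕ, ∀ X : ℕ, X₀ ≤ X → (T * Real.log X ≤ X) ∧ 2 ≤ T * Real.log X ∧
      (4 + 2 * C) * (Wm X : ℝ) + C ≤ s / 8 * (T * Real.log X) ∧ T * Real.log X / X ≤ s / 8 := by
  have h1 : Tendsto (fun x : ℝ => Real.log x / x) atTop (𝓝 0) := by
    have := Real.isLittleO_log_id_atTop.tendsto_div_nhds_zero
    simpa using this
  have hlog := Pool.Agent.H862R2.PPSm5.log_tendsto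
  have h2 : ∀ᶠ X : ℕ in atTop, Real.log (X : ℝ) / X < min (1 / T) (s / (8 * T)) := by
    have := (h1.comp (tendsto_natCast_atTop_atTop (R := ℝ))).eventually_lt_const
      (show (0 : ℝ) < min (1 / T) (s / (8 * T)) from lt_min (by positivity) (by positivity))
    exact this
  have h3 : Tendsto (fun x : ℝ => ((4 + 2 * C) * x ^ (7 / 20 : ℝ) + C) / x) atTop (𝓝 0) := by
    have h4 : Tendsto (fun x : ℝ => (4 + 2 * C) * x ^ (-(13 / 20 : ℝ)) + C * x⁻¹) atTop
        (𝓝 ((4 + 2 * C) * 0 + C * 0)) := by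
      apply Tendsto.add
      · exact (tendsto_rpow_neg_atTop (by norm_num)).const_mul _
      · exact tendsto_inv_atTop_zero.const_mul _
    rw [mul_zero, mul_zero, add_zero] at h4
    refine h4.congr' ?_
    filter_upwards [eventually_gt_atTop 0] with x hx
    rw [add_div, mul_div_assoc, div_eq_mul_inv C x]
    congr 2
    rw [← Real.rpow_sub_one hx.ne']
    norm_num
  have h5 : ∀ᶠ X : ℕ in atTop, ((4 + 2 * C) * (Real.log X) ^ (7 / 20 : ℝ) + C) / Real.log X <
      s / 8 * T := by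
    have := (h3.comp hlog).eventually_lt_const (show (0 : ℝ) < s / 8 * T by positivity)
    exact this
  have h6 := hlog.eventually_ge_atTop (2 / T)
  have h7 := hlog.eventually_ge_atTop 1
  obtain ⟨X₀, hX₀⟩ := eventually_atTop.1 ((h2.and h5).and ((h6.and h7).and
    (eventually_ge_atTop 16)))
  refine ⟨X₀, fun X hX => ?_⟩
  obtain ⟨⟨g1, g2⟩, ⟨g3, g4⟩, g5⟩ := hX₀ X hX
  have hXr : (0 : ℝ) < X := by exact_mod_cast (by omega : 0 < X)
  have hL : 0 < Real.log X := by linarith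
  have g6 := g1.trans_le (min_le_left _ _)
  have g7 := g1.trans_le (min_le_right _ _)
  rw [div_lt_div_iff₀ hXr (by positivity)] at g6 g7
  rw [div_lt_iff₀ hL] at g2
  rw [div_le_iff₀ hT] at g3
  have hW := Pool.Agent.H325R2.wtx.1 X g5
  refine ⟨by linarith, by linarith, ?_, ?_⟩
  · have : (4 + 2 * C) * (Wm X : ℝ) ≤ (4 + 2 * C) * Real.log X ^ (7 / 20 : ℝ) :=
      mul_le_mul_of_nonneg_left hW (by positivity)
    linarith
  · rw [div_le_iff₀ hXr]
    linarith

theorem aai_of (hSM : SM) (hTy : Pool.Agent.H410R2.AC.Types) (hGGT : GGTypes)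
    (hGGS : GGSharp) (hMer : Mer) (hMrv : Mrv) (hCnt : Cnt) (hCol : Col)
    (hCob : Cob) (hMni : Mni) (hWtx : Wtx) : AAI := by
  classical
  intro Λ ε hΛ hε
  -- parameters
  obtain ⟨s, hs⟩ : ∃ s : ℝ, s = min 1 (ε / (4 * (16 + 80 * Λ))) := ⟨_, rfl⟩
  have hs0 : 0 < s := by rw [hs]; exact lt_min one_pos (by positivity)
  have hs1 : s ≤ 1 := by rw [hs]; exact min_le_left _ _
  have hsε : 16 * s + 4 * (20 * Λ * s) ≤ ε / 4 := by
    have h1 : s ≤ ε / (4 * (16 + 80 * Λ)) := by rw [hs]; exact min_le_right _ _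
    rw [le_div_iff₀ (by positivity)] at h1
    linarith
  obtain ⟨θ, hθ⟩ : ∃ θ : ℝ, θ = 1 / 32 := ⟨_, rfl⟩
  have hθ0 : 0 < θ := by rw [hθ]; norm_num
  have hθ1 : θ ≤ 1 / 32 := hθ.le
  obtain ⟨c, hcd⟩ : ∃ c : ℝ, c = 0 := ⟨_, rfl⟩
  have hc : 0 ≤ c := hcd.ge
  obtain ⟨CT, hCT1, hCT⟩ := hGGT
  obtain ⟨CM, hCM1, hCM⟩ := hMer
  obtain ⟨η', hη'⟩ : ∃ η' : ℝ, η' = s / 2 / (2 * (1 + c) ^ 2 * Λ * CM) := ⟨_, rfl⟩
  have hη'0 : 0 < η' := by rw [hη']; positivity
  obtain ⟨t, u, β, V₀, hV₀, huβ, hβ1, hu, hty⟩ := hTy CT η' (θ / 2) hCT1 hη'0 (by linarith)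
  have h1c : (1 : ℝ) ≤ (1 + c) ^ 2 := by nlinarith
  have h1c' : (1 + c) ^ 2 = 1 := by rw [hcd]; norm_num
  obtain ⟨δ₀, hδ₀, hsm⟩ := hSM t u ((1 + c) ^ 2) Λ θ s (fun τ => (huβ τ).1) hu hθ0 hθ1 h1c hΛ hs0
  obtain ⟨δ₁, hδ₁, hsp⟩ := smp' ((1 + c) ^ 2) h1c' t u Λ θ s (fun τ => (huβ τ).1) hu hθ0 hθ1 hΛ hs0
  obtain ⟨dβ, hdβ0, hdβ⟩ : ∃ d : ℝ, 0 < d ∧ ∀ τ, d ≤ β τ / η' := by
    refine ⟨1 / (∑ τ, η' / β τ + 1), ?_, fun τ => ?_⟩
    · have : 0 ≤ ∑ τ, η' / β τ := sum_nonneg fun τ _ => (div_pos hη'0 (huβ τ).2).le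
      positivity
    · have h1 : η' / β τ ≤ ∑ τ, η' / β τ :=
        single_le_sum (f := fun τ => η' / β τ) (fun τ _ => (div_pos hη'0 (huβ τ).2).le)
          (mem_univ τ)
      have h2 : 0 < η' / β τ := div_pos hη'0 (huβ τ).2
      calc 1 / (∑ τ, η' / β τ + 1) ≤ 1 / (η' / β τ) :=
            one_div_le_one_div_of_le h2 (by linarith)
        _ = β τ / η' := by rw [one_div_div]
  obtain ⟨δ, hδd⟩ : ∃ δ : ℝ, δ = min (min (min δ₀ δ₁) V₀) (min (1 / 8) dβ) := ⟨_, rfl⟩
  have hδ0 : 0 < δ := by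
    rw [hδd]
    exact lt_min (lt_min (lt_min hδ₀ hδ₁) hV₀) (lt_min (by norm_num) hdβ0)
  have hδ1 : δ ≤ δ₀ := by
    rw [hδd]; exact (min_le_left _ _).trans ((min_le_left _ _).trans (min_le_left _ _))
  have hδ1' : δ ≤ δ₁ := by
    rw [hδd]; exact (min_le_left _ _).trans ((min_le_left _ _).trans (min_le_right _ _))
  have hδ2 : δ ≤ V₀ := by rw [hδd]; exact (min_le_left _ _).trans (min_le_right _ _)
  have hδ3 : δ ≤ 1 / 8 := by rw [hδd]; exact (min_le_right _ _).trans (min_le_left _ _)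
  have hδ4 : δ ≤ dβ := by rw [hδd]; exact (min_le_right _ _).trans (min_le_right _ _)
  obtain ⟨C, X1, hC, hSMX⟩ := hsm δ hδ0 hδ1
  obtain ⟨X2, hGX⟩ := hCT δ hδ0 hδ3
  obtain ⟨X3, hMX⟩ := hCM δ hδ0 (by linarith)
  obtain ⟨X4, hVX⟩ := hMrv δ (s / ((1 + c) ^ 2 * η' * δ * t + 1)) hδ0 (by linarith)
    (by positivity)
  obtain ⟨X5, hCX⟩ := hCnt s Λ Λ hs0 hΛ hΛ
  obtain ⟨X7, hWX⟩ := hWtx.2 δ hδ0 (by linarith)
  obtain ⟨X8, hFX⟩ := log_floor (a := 1 / 4 - 2 * θ) (θ := θ) (by linarith) hθ0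
  refine ⟨ε / (256 * C), max 1 (16 * (Λ + 1) * C / s), by positivity, by positivity,
    fun T hT => ?_⟩
  have hT1 : 1 ≤ T := (le_max_left _ _).trans hT
  have hT2 : 16 * (Λ + 1) * C / s ≤ T := (le_max_right _ _).trans hT
  have hT0 : 0 < T := by linarith
  rw [div_le_iff₀ hs0] at hT2
  obtain ⟨X9, hPP⟩ := hsp δ hδ0 hδ1' T hT0
  obtain ⟨X10, hSX⟩ := small_params C T s hC hT0 hs0
  refine ⟨X1 + X2 + X3 + X4 + X5 + X7 + X8 + X9 + X10 + 2, fun X hX => ?_⟩
  have hX2 : 2 ≤ X := by omega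
  have hX1 : 1 ≤ X := by omega
  have hX0 : (0 : ℝ) < X := by exact_mod_cast (by omega : 0 < X)
  have hL : 0 < Real.log X := Real.log_pos (by exact_mod_cast hX2)
  obtain ⟨hw1, -, hw3⟩ := hWX X (by omega)
  have hJ : 2 ^ 2 ^ JJ δ X ≤ X := by
    have h1 : (X : ℝ) ^ δ ≤ (X : ℝ) ^ (1 : ℝ) :=
      Real.rpow_le_rpow_of_exponent_le (by exact_mod_cast hX1) (by linarith)
    rw [Real.rpow_one] at h1
    exact_mod_cast hw1.trans h1
  have hHX : HH X < X := lt_of_lt_of_le hw3 hJ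
  obtain ⟨hV0, hM1, hM2⟩ := hMX X (by omega)
  obtain ⟨hF1, hF2⟩ := hFX X (by omega)
  obtain ⟨k1, k2, k3, k4⟩ := hSX X (by omega)
  set Y : ℕ := ⌊T * Real.log X⌋₊ with hY
  have hYle : (Y : ℝ) ≤ T * Real.log X := Nat.floor_le (by positivity)
  have hYge : T * Real.log X / 2 ≤ Y := by
    have := Nat.lt_floor_add_one (T * Real.log X)
    rw [← hY] at this
    linarith
  have hYr : (0 : ℝ) < Y := by
    have : 0 < T * Real.log X / 2 := by positivity
    linarith
  have hY0 : 0 < Y := by exact_mod_cast hYr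
  have hYX : Y ≤ X := by
    have : (Y : ℝ) ≤ X := hYle.trans k1
    exact_mod_cast this
  have hcls : ∀ b < Wm X, (((Ico X (2 * X)).filter (fun x => (((SI X b).filter
      (fun n => (x < n ∧ n ≤ x + Y) ∧ Free ⌊Λ * Real.log X⌋₊ n)).card : ℝ) <
        (ε / 4) / (16 * C) * ((Y : ℝ) / Wm X))).card : ℝ) ≤ (ε / 2) * X := by
    intro b hb
    -- families
    obtain ⟨S, hS1, hS2, hS3, hS4⟩ := fam_of (X := X) (T := θ / 2) hδ0 hL (by linarith)
      (hty δ · · · hδ0 hδ2) (hGX X (by omega))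
    have hBcnt : ((BB X b ⌊Λ * Real.log X⌋₊).card : ℝ) ≤
        (1 + s) * (Λ * Real.log X * (Nat.totient (Wm X) / Wm X)) := by
      have h1 := hCX X (by omega) b 0 (Λ * Real.log X) le_rfl (by rw [zero_add]) le_rfl
      rw [sub_zero] at h1
      have h2 : (BB X b ⌊Λ * Real.log X⌋₊).filter
          (fun a : ℕ => (0 : ℝ) < a ∧ (a : ℝ) ≤ Λ * Real.log X) = BB X b ⌊Λ * Real.log X⌋₊ := by
        apply filter_true_of_mem
        intro a ha
        rw [mem_BB] at ha
        refine ⟨by exact_mod_cast ha.1, ?_⟩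
        exact (Nat.le_floor_iff (by positivity)).1 ha.2.1
      rw [h2] at h1
      linarith [(abs_le.1 h1).2]
    obtain ⟨D, hsit, hDcf⟩ := sit_of (CM := CM) (X := X) (b := b) (θ := θ) (C := C) hc hs0 hs1 hδ0
      hη'0 hΛ (by linarith) hη' (fun τ => (huβ τ).2) hβ1 (fun τ => hδ4.trans (hdβ τ)) hL S hS1
      hS2 hS3 hS4
      (fun _ => -1)
      (by intro a; exact Or.inr rfl)
      (fun D B hB c hc => hSMX X (by omega) b hb D B hB c hc) hBcnt hV0 hM1 (hVX X (by omega)) hJ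
    have hcf : ∀ a, D.cf a = -1 := fun a => by rw [hDcf]
    have hmain := cls_local hCol hCob hMni hsit hX1 hHX hL hθ1 hC hΛ hcf hBcnt
      (VG_le hGGS hθ0 hθ1 hX1 hM2 hV0 hF1 hF2) Y hY0 hYX (ε / 4) (by positivity)
      (fun k hk hkY => hPP X (by omega) b hb D hcf _ (Subset.refl _) k hk (by
        have : (k : ℝ) ≤ Y := by exact_mod_cast hkY
        exact this.trans hYle)) (by
        have q1 : (⌊Λ * Real.log X⌋₊ : ℝ) ≤ Λ * Real.log X := Nat.floor_le (by positivity)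
        have q2 : 4 * (Wm X : ℝ) / Y + (2 * ⌊Λ * Real.log X⌋₊ + 1 + 2 * Wm X) * C / Y =
            (((4 + 2 * C) * (Wm X : ℝ) + C) + 2 * ⌊Λ * Real.log X⌋₊ * C) / Y := by ring
        have q3 : ((4 + 2 * C) * (Wm X : ℝ) + C) + 2 * ⌊Λ * Real.log X⌋₊ * C ≤
            s / 2 * Y := by
          have q4 : 2 * (⌊Λ * Real.log X⌋₊ : ℝ) * C ≤ 2 * (Λ * Real.log X) * C := by
            gcongr
          have q5 : 2 * (Λ * Real.log X) * C ≤ s / 8 * (T * Real.log X) := by
            have q6 : 16 * (Λ + 1) * C * Real.log X ≤ T * s * Real.log X :=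
              mul_le_mul_of_nonneg_right hT2 hL.le
            have q7 : 0 ≤ C * Real.log X := by positivity
            nlinarith
          have q8 : s / 2 * (T * Real.log X / 2) ≤ s / 2 * Y :=
            mul_le_mul_of_nonneg_left hYge (by positivity)
          linarith
        have q4 : (((4 + 2 * C) * (Wm X : ℝ) + C) + 2 * ⌊Λ * Real.log X⌋₊ * C) / Y ≤ s / 2 := by
          rw [div_le_iff₀ hYr]
          exact q3
        have q5 : (Y : ℝ) / X ≤ s / 8 := by
          refine le_trans ?_ k4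
          exact div_le_div_of_nonneg_right hYle hX0.le
        rw [q2]
        linarith)
    refine hmain.trans ?_
    apply mul_le_mul_of_nonneg_right _ hX0.le
    linarith
  have hcomb := combine (c := (ε / 4) / (16 * C)) (by positivity) hY0 hcls
  have h30 : 2 * (ε / 2) * (X : ℝ) = ε * X := by ring
  rw [h30] at hcomb
  refine le_trans ?_ hcomb
  have h31 : (Ico X (2 * X)).filter (fun x => (((Ioc x (x + Y)).filter
      (fun n => Free ⌊Λ * Real.log X⌋₊ n)).card : ℝ) < ε / (256 * C) * (T * Real.log X)) ⊆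
      (Ico X (2 * X)).filter (fun x => (((Ioc x (x + Y)).filter
        (fun n => Free ⌊Λ * Real.log X⌋₊ n)).card : ℝ) < (ε / 4) / (16 * C) / 2 * Y) := by
    intro x hx
    rw [mem_filter] at hx ⊢
    refine ⟨hx.1, lt_of_lt_of_le hx.2 ?_⟩
    calc ε / (256 * C) * (T * Real.log X) = (ε / 4) / (16 * C) / 2 * (T * Real.log X / 2) := by
          field_simp
          norm_num
      _ ≤ _ := mul_le_mul_of_nonneg_left hYge (by positivity)
  exact_mod_cast card_le_card h31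

theorem aai : AAI :=
  aai_of sm Pool.Agent.H708R2.types (Pool.Agent.H488R2.ggtypes Pool.Agent.H325R2.wtx)
    Pool.Agent.H633R2.ggSharp (Pool.Agent.H488R2.mer Pool.Agent.H325R2.wtx)
    (Pool.Agent.H488R2.mrv Pool.Agent.H325R2.wtx) Pool.Agent.H363R2.PPCnt.cnt
    Pool.Agent.H872R2.PPCol.col Pool.Agent.H872R2.PPCol.cob
    Pool.Agent.H433R2.PPMni.mni Pool.Agent.H325R2.wtx

end Pool.Agent.K7.H60
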