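import Pool.Agent.H361R2.PP.Asm2

/-!
The second moment of the number of primes in short intervals (upper bound by the sieve).
-/

set_option autoImplicit false

open Finset

namespace Pool.Agent.K7.H60

open Pool.Agent.H361R2.PP
open Pool.Agent.H410R2.AC (wt GG cfg term WW pos Inj coef)

/-- number of primes in `(n, n + N]` -/
def np (N n : ℕ) : ℕ := ((Icc 1 N).filter (fun a => (n + a).Prime)).card

/-- the second moment of the number of primes in short intervals -/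
def Sec : Prop := ∀ Λ : ℝ, 0 < Λ → ∃ X₀ : ℕ, ∀ X : ℕ, X₀ ≤ X →
  ∑ n ∈ Ico X (2 * X), ((np ⌊Λ * Real.log X⌋₊ n : ℝ)) ^ 2 ≤ (128 * Λ ^ 2 + 16 * Λ) * X

theorem np_eq {X b N n : ℕ} (hHX : HH X < X) (hn : n ∈ SI X b) : np N n = Np (BB X b N) n := by
  unfold np Np
  congr 1
  ext a
  rw [mem_filter, mem_filter, mem_Icc]
  constructor
  · rintro ⟨h1, h2⟩
    exact ⟨prime_BB hHX hn h1.1 h1.2 h2, h2⟩
  · rintro ⟨h1, h2⟩
    rw [mem_BB] at h1
    exact ⟨⟨h1.1, h1.2.1⟩, h2⟩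

/-- one class -/
theorem sec_class {δ Λ : ℝ} {X b : ℕ} (hX : 1 ≤ X) (hHX : HH X < X) (hL : 0 < Real.log X)
    (hΛ : 0 < Λ) (hJ : 2 ^ 2 ^ JJ δ X ≤ X) (hV0 : 0 < VV δ X)
    (hsm : ∀ a ∈ BB X b ⌊Λ * Real.log X⌋₊, ∀ a' ∈ BB X b ⌊Λ * Real.log X⌋₊, a ≠ a' →
      |∑ n ∈ SP X b a, (spec δ (1 / 32) X a' n) ^ 2 -
        Pr X / Nat.totient (Wm X) * (VV δ X * GG (S1 δ (1 / 32) X))| ≤
        1 * (Pr X / Nat.totient (Wm X) * VV δ X))
    (hsp : ∀ a ∈ BB X b ⌊Λ * Real.log X⌋₊, ((SP X b a).card : ℝ) ≤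
      2 * (Pr X / Nat.totient (Wm X)))
    (hcB : ((BB X b ⌊Λ * Real.log X⌋₊).card : ℝ) ≤
      2 * (Λ * Real.log X * (Nat.totient (Wm X) / Wm X)))
    (hpnt : |Pr X * Real.log X - X| ≤ 1 * X)
    (hVG : VV δ X / GG (S1 δ (1 / 32) X) * (((Nat.totient (Wm X) : ℝ) / Wm X) *
      ((1 / 4 - 3 * (1 / 32)) * Real.log X)) ≤ 1) :
    ∑ n ∈ SI X b, ((np ⌊Λ * Real.log X⌋₊ n : ℝ)) ^ 2 ≤
      (128 * Λ ^ 2 + 16 * Λ) * ((X : ℝ) / Wm X) := by
  classical
  set B := BB X b ⌊Λ * Real.log X⌋₊ with hB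
  set Ω' := Pr X / Nat.totient (Wm X) with hΩ'
  have hΩ'0 : 0 ≤ Ω' := Om'_nonneg X
  set G := GG (S1 δ (1 / 32) X) with hG
  have hG1 : 1 ≤ G := GG1_ge hX le_rfl
  set v := VV δ X / G with hv
  have hv0 : 0 ≤ v := div_nonneg hV0.le (by linarith)
  set f := (Nat.totient (Wm X) : ℝ) / Wm X with hf
  set L := Real.log X with hLd
  -- one pair
  have hpair : ∀ a ∈ B, ∀ a' ∈ B, a ≠ a' →
      (((SP X b a).filter (fun n => (n + a').Prime)).card : ℝ) ≤ 2 * (Ω' * v) := by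
    intro a ha a' ha' hne
    have ha1 : 1 ≤ a' := (mem_BB.1 ha').1
    have h1 := (abs_le.1 (hsm a ha a' ha' hne)).2
    have h2 : (((SP X b a).filter (fun n => (n + a').Prime)).card : ℝ) * G ^ 2 ≤
        ∑ n ∈ SP X b a, (spec δ (1 / 32) X a' n) ^ 2 := by
      calc (((SP X b a).filter (fun n => (n + a').Prime)).card : ℝ) * G ^ 2 =
          ∑ n ∈ (SP X b a).filter (fun n => (n + a').Prime), (spec δ (1 / 32) X a' n) ^ 2 := by
            rw [← nsmul_eq_mul, ← sum_const]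
            refine sum_congr rfl fun n hn => ?_
            rw [mem_filter, mem_SP] at hn
            unfold spec
            rw [rg_prime (P1_lt hJ hn.1.1 ha1) hn.2, FS_prime (P2_lt hn.1.1 ha1) S1_sub hn.2,
              one_mul]
        _ ≤ _ := sum_le_sum_of_subset_of_nonneg (filter_subset _ _) fun n _ _ => sq_nonneg _
    have h3 : (((SP X b a).filter (fun n => (n + a').Prime)).card : ℝ) * G ^ 2 ≤
        Ω' * VV δ X * (G + 1) := by linarith
    have h4 : Ω' * VV δ X * (G + 1) ≤ Ω' * VV δ X * (2 * G) := by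
      apply mul_le_mul_of_nonneg_left (by linarith)
      exact mul_nonneg hΩ'0 hV0.le
    have h5 : (((SP X b a).filter (fun n => (n + a').Prime)).card : ℝ) * G ^ 2 ≤
        2 * (Ω' * v) * G ^ 2 := by
      refine (h3.trans h4).trans (le_of_eq ?_)
      rw [hv]
      have : G ≠ 0 := by linarith
      field_simp
    exact le_of_mul_le_mul_right h5 (by positivity)
  have hT0 : 0 ≤ 2 * (Ω' * v) := mul_nonneg (by norm_num) (mul_nonneg hΩ'0 hv0)
  have hf0 : 0 ≤ f := by rw [hf]; positivity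
  have e0 : ∑ n ∈ SI X b, ((np ⌊Λ * Real.log X⌋₊ n : ℝ)) ^ 2 =
      ∑ n ∈ SI X b, (1 : ℝ) * ((Np B n : ℝ) * ((Np B n : ℝ) - 1)) +
        ∑ n ∈ SI X b, (1 : ℝ) * (Np B n : ℝ) := by
    rw [← sum_add_distrib]
    refine sum_congr rfl fun n hn => ?_
    rw [np_eq hHX hn]
    ring
  rw [e0, moment1 X b B (fun _ => 1), moment2 X b B (fun _ => 1)]
  have hφ0 : (0 : ℝ) < Nat.totient (Wm X) := by exact_mod_cast Nat.totient_pos.2 (Wm_pos X)
  have hW0 : (0 : ℝ) < Wm X := by exact_mod_cast Wm_pos X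
  have h8 : L * f * Ω' ≤ 2 * ((X : ℝ) / Wm X) := by
    have h9 : L * f * Ω' = Pr X * L / Wm X := by
      rw [hf, hΩ']
      field_simp
    rw [h9, ← mul_div_assoc]
    apply div_le_div_of_nonneg_right _ hW0.le
    have := (abs_le.1 hpnt).2
    linarith
  have h9 : v * (f * L) ≤ 32 / 5 := by
    have h10 : v * (f * L) * (5 / 32) ≤ 1 := by
      calc v * (f * L) * (5 / 32) = v * (f * ((1 / 4 - 3 * (1 / 32)) * L)) := by ring
        _ ≤ 1 := hVG
    linarith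
  have h11 : (L * f * Ω') * (v * (f * L)) ≤ (2 * ((X : ℝ) / Wm X)) * (32 / 5) := by
    apply mul_le_mul h8 h9
    · exact mul_nonneg hv0 (by positivity)
    · positivity
  have hΩ0 : 0 ≤ (X : ℝ) / Wm X := by positivity
  have g1 : ∑ a ∈ B, ∑ a' ∈ B.erase a, ∑ _n ∈ (SP X b a).filter (fun n => (n + a').Prime), (1 : ℝ) ≤
      128 * Λ ^ 2 * ((X : ℝ) / Wm X) := by
    have g2 : ∑ a ∈ B, ∑ a' ∈ B.erase a, ∑ _n ∈ (SP X b a).filter (fun n => (n + a').Prime),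
        (1 : ℝ) ≤ ∑ a ∈ B, ∑ a' ∈ B, 2 * (Ω' * v) := by
      refine sum_le_sum fun a ha => ?_
      refine le_trans ?_ (sum_le_sum_of_subset_of_nonneg (erase_subset a _) fun _ _ _ => hT0)
      refine sum_le_sum fun a' ha' => ?_
      rw [sum_const, nsmul_eq_mul, mul_one]
      exact hpair a ha a' (mem_of_mem_erase ha') (ne_of_mem_erase ha').symm
    refine g2.trans ?_
    rw [sum_const, sum_const, nsmul_eq_mul, nsmul_eq_mul]
    have g3 : (B.card : ℝ) * ((B.card : ℝ) * (2 * (Ω' * v))) ≤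
        (2 * (Λ * L * f)) * ((2 * (Λ * L * f)) * (2 * (Ω' * v))) := by
      apply mul_le_mul hcB _ (by positivity) (by positivity)
      exact mul_le_mul_of_nonneg_right hcB hT0
    refine g3.trans ?_
    calc (2 * (Λ * L * f)) * ((2 * (Λ * L * f)) * (2 * (Ω' * v))) =
        (8 * Λ ^ 2) * ((L * f * Ω') * (v * (f * L))) := by ring
      _ ≤ (8 * Λ ^ 2) * ((2 * ((X : ℝ) / Wm X)) * (32 / 5)) :=
          mul_le_mul_of_nonneg_left h11 (by positivity)
      _ = 512 / 5 * (Λ ^ 2 * ((X : ℝ) / Wm X)) := by ring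
      _ ≤ 128 * (Λ ^ 2 * ((X : ℝ) / Wm X)) := by
          apply mul_le_mul_of_nonneg_right (by norm_num)
          positivity
      _ = _ := by ring
  have g4 : ∑ a ∈ B, ∑ _n ∈ SP X b a, (1 : ℝ) ≤ 16 * Λ * ((X : ℝ) / Wm X) := by
    have g5 : ∑ a ∈ B, ∑ _n ∈ SP X b a, (1 : ℝ) ≤ ∑ a ∈ B, 2 * Ω' := by
      refine sum_le_sum fun a ha => ?_
      rw [sum_const, nsmul_eq_mul, mul_one]
      exact hsp a ha
    refine g5.trans ?_
    rw [sum_const, nsmul_eq_mul]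
    calc (B.card : ℝ) * (2 * Ω') ≤ 2 * (Λ * L * f) * (2 * Ω') :=
          mul_le_mul_of_nonneg_right hcB (by positivity)
      _ = 4 * Λ * (L * f * Ω') := by ring
      _ ≤ 4 * Λ * (2 * ((X : ℝ) / Wm X)) := mul_le_mul_of_nonneg_left h8 (by positivity)
      _ = 8 * (Λ * ((X : ℝ) / Wm X)) := by ring
      _ ≤ 16 * (Λ * ((X : ℝ) / Wm X)) :=
          mul_le_mul_of_nonneg_right (by norm_num) (by positivity)
      _ = _ := by ring
  linarith

theorem sec_of (hSM : SM) (hGGS : GGSharp) (hMer : Mer) (hCnt : Cnt) (hPnt : PntX)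
    (hWtx : Wtx) : Sec := by
  classical
  intro Λ hΛ
  obtain ⟨δ₀, hδ₀, hsm⟩ := hSM 0 (fun i => i.elim0) 1 Λ (1 / 32) 1 (fun i => i.elim0)
    (by rw [univ_eq_empty, sum_empty]; norm_num) (by norm_num) le_rfl le_rfl hΛ one_pos
  obtain ⟨CM, hCM1, hCM⟩ := hMer
  obtain ⟨δ, hδd⟩ : ∃ δ : ℝ, δ = min δ₀ (1 / 8) := ⟨_, rfl⟩
  have hδ0 : 0 < δ := by rw [hδd]; exact lt_min hδ₀ (by norm_num)
  have hδ1 : δ ≤ δ₀ := by rw [hδd]; exact min_le_left _ _
  have hδ3 : δ ≤ 1 / 8 := by rw [hδd]; exact min_le_right _ _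
  obtain ⟨C, X1, hC, hSMX⟩ := hsm δ hδ0 hδ1
  obtain ⟨X3, hMX⟩ := hCM δ hδ0 (by linarith)
  obtain ⟨X5, hCX⟩ := hCnt 1 Λ Λ one_pos hΛ hΛ
  obtain ⟨X6, hPX⟩ := hPnt 1 one_pos
  obtain ⟨X7, hWX⟩ := hWtx.2 δ hδ0 (by linarith)
  obtain ⟨X8, hFX⟩ := log_floor (a := 1 / 4 - 2 * (1 / 32)) (θ := 1 / 32) (by norm_num)
    (by norm_num)
  refine ⟨X1 + X3 + X5 + X6 + X7 + X8 + 2, fun X hX => ?_⟩
  have hX2 : 2 ≤ X := by omega
  have hX1 : 1 ≤ X := by omega
  have hL : 0 < Real.log X := Real.log_pos (by exact_mod_cast hX2)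
  obtain ⟨hw1, -, hw3⟩ := hWX X (by omega)
  have hJ : 2 ^ 2 ^ JJ δ X ≤ X := by
    have h1 : (X : ℝ) ^ δ ≤ (X : ℝ) ^ (1 : ℝ) :=
      Real.rpow_le_rpow_of_exponent_le (by exact_mod_cast hX1) (by linarith)
    rw [Real.rpow_one] at h1
    exact_mod_cast hw1.trans h1
  have hHX : HH X < X := lt_of_lt_of_le hw3 hJ
  obtain ⟨hV0, hM1, hM2⟩ := hMX X (by omega)
  obtain ⟨hF1, hF2⟩ := hFX X (by omega)
  have hW := Wm_pos X
  have h1 : ∑ n ∈ Ico X (2 * X), ((np ⌊Λ * Real.log X⌋₊ n : ℝ)) ^ 2 =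
      ∑ b ∈ range (Wm X), ∑ n ∈ SI X b, ((np ⌊Λ * Real.log X⌋₊ n : ℝ)) ^ 2 := by
    rw [← sum_fiberwise_of_maps_to (g := fun n => n % Wm X) (t := range (Wm X))
      (fun n _ => mem_range.2 (Nat.mod_lt _ hW))]
    rfl
  rw [h1]
  calc ∑ b ∈ range (Wm X), ∑ n ∈ SI X b, ((np ⌊Λ * Real.log X⌋₊ n : ℝ)) ^ 2 ≤
      ∑ b ∈ range (Wm X), (128 * Λ ^ 2 + 16 * Λ) * ((X : ℝ) / Wm X) := by
        refine sum_le_sum fun b hb => ?_
        have hb' := mem_range.1 hb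
        refine sec_class (δ := δ) hX1 hHX hL hΛ hJ hV0 ?_ ?_ ?_ (hPX X (by omega))
          (VG_le hGGS (by norm_num) le_rfl hX1 hM2 hV0 hF1 hF2)
        · intro a ha a' ha' hne
          have h2 := (hSMX X (by omega) b hb' (D0 δ X) ∅ (empty_subset _) (fun _ => 1)
            (fun σ => by rw [abs_one])).2.2.2.1 a (by rw [sdiff_empty]; exact ha) a'
            (by rw [sdiff_empty]; exact ha') hne
          simp only [WW_zero, ZZ_zero, mul_one] at h2
          exact h2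
        · intro a ha
          have h2 := (hSMX X (by omega) b hb' (D0 δ X) ∅ (empty_subset _) (fun _ => 1)
            (fun σ => by rw [abs_one])).2.2.1 a (by rw [sdiff_empty]; exact ha)
          simp only [WW_zero, ZZ_zero, mul_one, one_pow, sum_const, nsmul_eq_mul, one_mul] at h2
          linarith [(abs_le.1 h2).2]
        · have h2 := hCX X (by omega) b 0 (Λ * Real.log X) le_rfl (by rw [zero_add]) le_rfl
          rw [sub_zero] at h2
          have h3 : (BB X b ⌊Λ * Real.log X⌋₊).filter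
              (fun a : ℕ => (0 : ℝ) < a ∧ (a : ℝ) ≤ Λ * Real.log X) =
              BB X b ⌊Λ * Real.log X⌋₊ := by
            apply filter_true_of_mem
            intro a ha
            rw [mem_BB] at ha
            refine ⟨by exact_mod_cast ha.1, ?_⟩
            exact (Nat.le_floor_iff (by positivity)).1 ha.2.1
          rw [h3] at h2
          linarith [(abs_le.1 h2).2]
    _ = (128 * Λ ^ 2 + 16 * Λ) * X := by
        rw [sum_const, card_range, nsmul_eq_mul]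
        have : (Wm X : ℝ) ≠ 0 := by exact_mod_cast hW.ne'
        field_simp

theorem sec : Sec :=
  sec_of sm Pool.Agent.H633R2.ggSharp (Pool.Agent.H488R2.mer Pool.Agent.H325R2.wtx)
    Pool.Agent.H363R2.PPCnt.cnt Pool.Agent.H325R2.pnt Pool.Agent.H325R2.wtx

end Pool.Agent.K7.H60
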