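import Pool.Agent.K7.H60.AAInt
import Pool.Agent.K7.H60.Sec

/-!
Almost all primes: among a bounded number of consecutive gaps there is a long one.
-/

set_option autoImplicit false

open Finset Filter Topology

namespace Pool.Agent.K7.H60

open Pool.Agent.H361R2.PP

/-- the `M` gaps following the `j`-th prime are all short -/
def Run (K : ℝ) (M j : ℕ) : Prop :=
  ∀ i < M, (Nat.nth Nat.Prime (j + i + 1) : ℝ) - Nat.nth Nat.Prime (j + i) <
    K * Real.log (Nat.nth Nat.Prime j)

theorem nth_prime (j : ℕ) : (Nat.nth Nat.Prime j).Prime :=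
  Nat.nth_mem_of_infinite Nat.infinite_setOfPred_prime j

theorem nth_mono {i j : ℕ} (h : i < j) : Nat.nth Nat.Prime i < Nat.nth Nat.Prime j :=
  Nat.nth_strictMono Nat.infinite_setOfPred_prime h

theorem np_mono {N N' n : ℕ} (h : N ≤ N') : np N n ≤ np N' n := by
  unfold np
  apply card_le_card
  intro a ha
  rw [mem_filter, mem_Icc] at ha ⊢
  exact ⟨⟨ha.1.1, by omega⟩, ha.2⟩

/-- a set of primes in an interval -/
theorem card_le_np {Q : Finset ℕ} {n N : ℕ} (hQ : ∀ p ∈ Q, p.Prime ∧ n < p ∧ p ≤ n + N) :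
    Q.card ≤ np N n := by
  unfold np
  refine card_le_card_of_injOn (fun p => p - n) ?_ ?_
  · intro p hp
    obtain ⟨h1, h2, h3⟩ := hQ p (by simpa using hp)
    have e : n + (p - n) = p := by omega
    have e2 : p - n ∈ (Icc 1 N).filter (fun a => (n + a).Prime) := by
      rw [mem_filter, mem_Icc, e]
      exact ⟨⟨by omega, by omega⟩, h1⟩
    exact e2
  · intro p hp q hq h
    have h1 := (hQ p (by simpa using hp)).2.1
    have h2 := (hQ q (by simpa using hq)).2.1
    simp only at h
    omega

/-- the index just below -/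
theorem exists_index {j M n : ℕ} (h1 : Nat.nth Nat.Prime j ≤ n)
    (h2 : n < Nat.nth Nat.Prime (j + M)) :
    ∃ i < M, Nat.nth Nat.Prime (j + i) ≤ n ∧ n < Nat.nth Nat.Prime (j + i + 1) := by
  induction M with
  | zero =>
    rw [add_zero] at h2
    omega
  | succ M ih =>
    by_cases h : n < Nat.nth Nat.Prime (j + M)
    · obtain ⟨i, hi, h3⟩ := ih h
      exact ⟨i, by omega, h3⟩
    · push Not at h
      exact ⟨M, by omega, h, by rw [add_assoc]; exact h2⟩

open Classical in
/-- dyadic version -/
theorem aap_dyadic (hI : AAI) (hS : Sec) (K ε : ℝ) (hK : 0 < K) (hε : 0 < ε) :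
    ∃ M X₁ : ℕ, ∀ X : ℕ, X₁ ≤ X →
      (((Ico X (2 * X)).filter (fun p => p.Prime ∧ Run K M (Nat.count Nat.Prime p))).card : ℝ) ≤
        ε * (X / Real.log X) := by
  set K' : ℝ := 2 * K + 1 with hK'
  have hK'1 : 1 ≤ K' := by rw [hK']; linarith
  have hK'0 : 0 < K' := by linarith
  set C₁ : ℝ := 128 * (K' + 1) ^ 2 + 16 * (K' + 1) with hC₁
  have hC₁0 : 0 < C₁ := by positivity
  set ε₁ : ℝ := (ε / 4 * K') ^ 2 / C₁ with hε₁
  have hε₁0 : 0 < ε₁ := by positivity
  obtain ⟨c, T, hc, hT, h1⟩ := hI K' ε₁ hK'0 hε₁0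
  obtain ⟨X2, h2⟩ := h1 T le_rfl
  set Λ₂ : ℝ := T + K' + 1 with hΛ₂
  have hΛ₂0 : 0 < Λ₂ := by positivity
  set C₂ : ℝ := 128 * Λ₂ ^ 2 + 16 * Λ₂ with hC₂
  have hC₂0 : 0 < C₂ := by positivity
  obtain ⟨M, hM⟩ := exists_nat_ge (8 * C₂ / ε + 1)
  have hM0 : (0 : ℝ) < M := by
    have : 0 < 8 * C₂ / ε := by positivity
    linarith
  have hMε : 8 * C₂ ≤ ε * M := by
    have : 8 * C₂ / ε ≤ M := by linarith
    rw [div_le_iff₀ hε] at this
    linarith
  obtain ⟨X3, h3⟩ := hS (K' + 1) (by positivity)
  obtain ⟨X4, h4⟩ := hS Λ₂ hΛ₂0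
  have hlog := Pool.Agent.H862R2.PPSm5.log_tendsto
  have hev : ∀ᶠ X : ℕ in atTop, 2 ≤ Real.log X ∧
      (2 * K' + 5) * Real.log X ^ 2 ≤ ε / 4 * X := by
    have e1 : ∀ᶠ X : ℕ in atTop, 2 ≤ Real.log (X : ℝ) := hlog.eventually_ge_atTop 2
    have e2 : Tendsto (fun x : ℝ => Real.log x ^ 2 / x) atTop (𝓝 0) := by
      have := Real.isLittleO_pow_log_id_atTop (n := 2)
      simpa using this.tendsto_div_nhds_zero
    have e3 : ∀ᶠ X : ℕ in atTop, Real.log (X : ℝ) ^ 2 / X < ε / 4 / (2 * K' + 5) :=
      (e2.comp (tendsto_natCast_atTop_atTop (R := ℝ))).eventually_lt_const (by positivity)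
    filter_upwards [e1, e3, eventually_gt_atTop 0] with X q1 q2 q3
    refine ⟨q1, ?_⟩
    have hX0 : (0 : ℝ) < X := by exact_mod_cast q3
    rw [div_lt_div_iff₀ hX0 (by positivity)] at q2
    linarith
  obtain ⟨X5, h5⟩ := eventually_atTop.1 hev
  refine ⟨M, X2 + X3 + X4 + X5 + 2, fun X hX => ?_⟩
  have hXI := h2 X (by omega)
  have hS1 := h3 X (by omega)
  have hS2 := h4 X (by omega)
  obtain ⟨hL2, hsmall⟩ := h5 X (by omega)
  set L := Real.log X with hL
  have hL0 : 0 < L := by linarith
  have hX0 : (0 : ℝ) < X := by exact_mod_cast (by omega : 0 < X)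
  set N := ⌊K' * L⌋₊ with hN
  set TT := ⌊T * L⌋₊ with hTT
  set R' := ⌊L⌋₊ with hR'
  have hNle : (N : ℝ) ≤ K' * L := Nat.floor_le (by positivity)
  have hNlt : K' * L < N + 1 := Nat.lt_floor_add_one _
  have hTle : (TT : ℝ) ≤ T * L := Nat.floor_le (by positivity)
  have hRle : (R' : ℝ) ≤ L := Nat.floor_le hL0.le
  have hRge : L / 2 ≤ R' := by
    have := Nat.lt_floor_add_one L
    rw [← hR'] at this
    linarith
  have hR0 : (0 : ℝ) < R' := by linarith
  set A := (Ico X (2 * X)).filter (fun p => p.Prime ∧ Run K M (Nat.count Nat.Prime p)) with hA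
  set E := (Ico X (2 * X)).filter (fun x => (((Ioc x (x + TT)).filter
    (fun n => Free N n)).card : ℝ) < c * (T * L)) with hE
  -- the basic properties of the elements of `A`
  have hAp : ∀ p ∈ A, X ≤ p ∧ p < 2 * X ∧ p.Prime ∧
      Nat.nth Nat.Prime (Nat.count Nat.Prime p) = p ∧ Run K M (Nat.count Nat.Prime p) := by
    intro p hp
    rw [hA, mem_filter, mem_Ico] at hp
    exact ⟨hp.1.1, hp.1.2, hp.2.1, Nat.nth_count hp.2.1, hp.2.2⟩
  have hlogp : ∀ p : ℕ, X ≤ p → p < 2 * X → K * Real.log p ≤ 2 * K * L := by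
    intro p hp1 hp2
    have hp0 : (0 : ℝ) < p := by exact_mod_cast (by omega : 0 < p)
    have h6 : (p : ℝ) ≤ X ^ 2 := by
      have h7 : (p : ℝ) < 2 * X := by exact_mod_cast hp2
      have h8 : (2 : ℝ) ≤ X := by exact_mod_cast (by omega : 2 ≤ X)
      nlinarith
    have h7 : Real.log p ≤ 2 * L := by
      calc Real.log p ≤ Real.log (X ^ 2) := Real.log_le_log hp0 h6
        _ = 2 * L := by rw [Real.log_pow, hL]; norm_num
    nlinarith
  -- first kind
  set Q1 := A.filter (fun p => p + N + TT < Nat.nth Nat.Prime (Nat.count Nat.Prime p + M) ∧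
    X + N + 1 ≤ p ∧ p + N < 2 * X) with hQ1
  have hQ1E : ∀ p ∈ Q1, ∀ x, p ≤ x → x ≤ p + N → x ∈ E := by
    intro p hp x hx1 hx2
    rw [hQ1, mem_filter] at hp
    obtain ⟨hpA, hp1, hp2, hp3⟩ := hp
    obtain ⟨a1, a2, a3, a4, a5⟩ := hAp p hpA
    rw [hE, mem_filter, mem_Ico]
    refine ⟨⟨by omega, by omega⟩, ?_⟩
    have hempty : (Ioc x (x + TT)).filter (fun n => Free N n) = ∅ := by
      rw [filter_eq_empty_iff]
      intro n hn hfree
      rw [mem_Ioc] at hn
      obtain ⟨i, hi, h6, h7⟩ := exists_index (j := Nat.count Nat.Prime p) (M := M) (n := n)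
        (by rw [a4]; omega) (by omega)
      have h8 := a5 i hi
      rw [a4] at h8
      have h9 := hlogp p a1 a2
      have h10 : (Nat.nth Nat.Prime (Nat.count Nat.Prime p + i + 1) : ℝ) - n < K' * L := by
        have h11 : (Nat.nth Nat.Prime (Nat.count Nat.Prime p + i) : ℝ) ≤ n := by exact_mod_cast h6
        have h12 : 2 * K * L ≤ K' * L := by
          apply mul_le_mul_of_nonneg_right _ hL0.le
          rw [hK']; linarith
        linarith
      set q := Nat.nth Nat.Prime (Nat.count Nat.Prime p + i + 1) with hq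
      have h13 : ((q - n : ℕ) : ℝ) < K' * L := by
        rw [Nat.cast_sub h7.le]
        exact h10
      have h14 : q - n ≤ N := Nat.le_floor h13.le
      refine hfree (q - n) ?_ ?_
      · rw [mem_Icc]
        omega
      · have h15 : n + (q - n) = q := by omega
        rw [h15, hq]
        exact nth_prime _
    rw [hempty, card_empty, Nat.cast_zero]
    positivity
  have hE0 : (E.card : ℝ) ≤ ε₁ * X := hXI
  have hQ1c : (Q1.card : ℝ) ≤ ε / 4 * (X / L) := by
    have g1 : ((N : ℝ) + 1) * Q1.card ≤
        ∑ x ∈ E.filter (fun x => X + N + 1 ≤ x), (np (N + 1) (x - (N + 1)) : ℝ) := by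
      have g2 : ∀ p ∈ Q1, ((N : ℝ) + 1) =
          ∑ x ∈ E.filter (fun x => X + N + 1 ≤ x), if p ≤ x ∧ x ≤ p + N then (1 : ℝ) else 0 := by
        intro p hp
        rw [← sum_filter, sum_const, nsmul_eq_mul, mul_one]
        have g3 : (E.filter (fun x => X + N + 1 ≤ x)).filter (fun x => p ≤ x ∧ x ≤ p + N) =
            Icc p (p + N) := by
          ext x
          rw [mem_filter, mem_filter, mem_Icc]
          constructor
          · rintro ⟨-, h⟩
            exact h
          · intro h
            have hp' := hp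
            rw [hQ1, mem_filter] at hp'
            exact ⟨⟨hQ1E p hp x h.1 h.2, by omega⟩, h⟩
        rw [g3, Nat.card_Icc]
        have : p + N + 1 - p = N + 1 := by omega
        rw [this]
        push_cast
        rfl
      calc ((N : ℝ) + 1) * Q1.card = ∑ p ∈ Q1, ((N : ℝ) + 1) := by
            rw [sum_const, nsmul_eq_mul, mul_comm]
        _ = ∑ p ∈ Q1, ∑ x ∈ E.filter (fun x => X + N + 1 ≤ x),
              if p ≤ x ∧ x ≤ p + N then (1 : ℝ) else 0 := sum_congr rfl g2
        _ = ∑ x ∈ E.filter (fun x => X + N + 1 ≤ x), ∑ p ∈ Q1,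
              if p ≤ x ∧ x ≤ p + N then (1 : ℝ) else 0 := sum_comm
        _ ≤ _ := by
            refine sum_le_sum fun x hx => ?_
            rw [mem_filter] at hx
            rw [← sum_filter, sum_const, nsmul_eq_mul, mul_one]
            have g4 : (Q1.filter (fun p => p ≤ x ∧ x ≤ p + N)).card ≤
                np (N + 1) (x - (N + 1)) := by
              apply card_le_np
              intro p hp
              rw [mem_filter, hQ1, mem_filter] at hp
              have := hAp p hp.1.1
              exact ⟨this.2.2.1, by omega, by omega⟩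
            exact_mod_cast g4
    have g5 : (∑ x ∈ E.filter (fun x => X + N + 1 ≤ x), (np (N + 1) (x - (N + 1)) : ℝ)) ^ 2 ≤
        (ε₁ * X) * (C₁ * X) := by
      calc (∑ x ∈ E.filter (fun x => X + N + 1 ≤ x), (np (N + 1) (x - (N + 1)) : ℝ)) ^ 2 ≤
          ((E.filter (fun x => X + N + 1 ≤ x)).card : ℝ) *
            ∑ x ∈ E.filter (fun x => X + N + 1 ≤ x), (np (N + 1) (x - (N + 1)) : ℝ) ^ 2 :=
            sq_sum_le_card_mul_sum_sq
        _ ≤ (ε₁ * X) * (C₁ * X) := by
            apply mul_le_mul
            · refine le_trans ?_ hE0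
              exact_mod_cast card_filter_le _ _
            · refine le_trans ?_ hS1
              have g6 : ∑ x ∈ E.filter (fun x => X + N + 1 ≤ x),
                  (np (N + 1) (x - (N + 1)) : ℝ) ^ 2 =
                  ∑ n ∈ (E.filter (fun x => X + N + 1 ≤ x)).image (fun x => x - (N + 1)),
                    (np (N + 1) n : ℝ) ^ 2 := by
                rw [sum_image]
                intro a ha b hb hab
                rw [mem_coe, mem_filter] at ha hb
                simp only at hab
                omega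
              rw [g6]
              refine le_trans (sum_le_sum_of_subset_of_nonneg (t := Ico X (2 * X)) ?_
                fun _ _ _ => sq_nonneg _) ?_
              · intro n hn
                rw [mem_image] at hn
                obtain ⟨x, hx, rfl⟩ := hn
                rw [mem_filter, hE, mem_filter, mem_Ico] at hx
                rw [mem_Ico]
                omega
              · refine sum_le_sum fun n _ => ?_
                apply pow_le_pow_left₀ (Nat.cast_nonneg _)
                have : N + 1 ≤ ⌊(K' + 1) * L⌋₊ := by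
                  apply Nat.le_floor
                  push_cast
                  linarith
                exact_mod_cast np_mono this
            · exact sum_nonneg fun _ _ => sq_nonneg _
            · positivity
    have g7 : (ε₁ * X) * (C₁ * X) = (ε / 4 * K' * X) ^ 2 := by
      rw [hε₁]
      field_simp
    rw [g7] at g5
    have g8 : ∑ x ∈ E.filter (fun x => X + N + 1 ≤ x), (np (N + 1) (x - (N + 1)) : ℝ) ≤
        ε / 4 * K' * X := le_of_sq_le_sq g5 (by positivity)
    have g9 : K' * L * Q1.card ≤ ε / 4 * K' * X := by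
      refine le_trans ?_ (g1.trans g8)
      exact mul_le_mul_of_nonneg_right hNlt.le (Nat.cast_nonneg _)
    rw [← mul_div_assoc, le_div_iff₀ hL0]
    have g10 : K' * ((Q1.card : ℝ) * L) ≤ K' * (ε / 4 * X) := by linarith
    exact le_of_mul_le_mul_left g10 hK'0
  -- second kind
  set Q2 := A.filter (fun p => Nat.nth Nat.Prime (Nat.count Nat.Prime p + M) ≤ p + N + TT ∧
    X + R' ≤ p) with hQ2
  have hQ2c : (Q2.card : ℝ) ≤ ε / 4 * (X / L) := by
    set N2 := ⌊Λ₂ * L⌋₊ with hN2
    have hN2' : N + TT + R' ≤ N2 := by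
      apply Nat.le_floor
      push_cast
      rw [hΛ₂]
      linarith
    have g1 : (R' : ℝ) * Q2.card * M ≤ ∑ n ∈ Ico X (2 * X), (np N2 n : ℝ) ^ 2 := by
      have g2 : ∀ p ∈ Q2, ∀ n, p - R' ≤ n → n < p → M ≤ np N2 n := by
        intro p hp n hn1 hn2
        rw [hQ2, mem_filter] at hp
        obtain ⟨hpA, hp1, hp2⟩ := hp
        obtain ⟨a1, a2, a3, a4, a5⟩ := hAp p hpA
        have g3 : ((range M).image (fun i => Nat.nth Nat.Prime (Nat.count Nat.Prime p + i))).card
            = M := by
          rw [card_image_of_injective, card_range]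
          intro a b hab
          have := Nat.nth_injective Nat.infinite_setOfPred_prime hab
          omega
        rw [← g3]
        apply card_le_np
        intro q hq
        rw [mem_image] at hq
        obtain ⟨i, hi, rfl⟩ := hq
        rw [mem_range] at hi
        refine ⟨nth_prime _, ?_, ?_⟩
        · have : Nat.nth Nat.Prime (Nat.count Nat.Prime p) ≤
              Nat.nth Nat.Prime (Nat.count Nat.Prime p + i) :=
            Nat.nth_monotone Nat.infinite_setOfPred_prime (by omega)
          rw [a4] at this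
          omega
        · have : Nat.nth Nat.Prime (Nat.count Nat.Prime p + i) <
              Nat.nth Nat.Prime (Nat.count Nat.Prime p + M) := nth_mono (by omega)
          omega
      have g4 : ∀ p ∈ Q2, (R' : ℝ) * M ≤ ∑ n ∈ Ico X (2 * X),
          if p - R' ≤ n ∧ n < p then (np N2 n : ℝ) else 0 := by
        intro p hp
        have hp' := hp
        rw [hQ2, mem_filter] at hp'
        obtain ⟨a1, a2, -⟩ := hAp p hp'.1
        rw [← sum_filter]
        have g5 : (Ico X (2 * X)).filter (fun n => p - R' ≤ n ∧ n < p) = Ico (p - R') p := by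
          ext n
          rw [mem_filter, mem_Ico, mem_Ico]
          omega
        rw [g5]
        have g6 : (Ico (p - R') p).card = R' := by
          rw [Nat.card_Ico]
          omega
        calc (R' : ℝ) * M = ∑ n ∈ Ico (p - R') p, (M : ℝ) := by
              rw [sum_const, nsmul_eq_mul, g6]
          _ ≤ _ := by
              refine sum_le_sum fun n hn => ?_
              rw [mem_Ico] at hn
              exact_mod_cast g2 p hp n hn.1 hn.2
      calc (R' : ℝ) * Q2.card * M = ∑ p ∈ Q2, (R' : ℝ) * M := by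
            rw [sum_const, nsmul_eq_mul]; ring
        _ ≤ ∑ p ∈ Q2, ∑ n ∈ Ico X (2 * X),
              if p - R' ≤ n ∧ n < p then (np N2 n : ℝ) else 0 := sum_le_sum g4
        _ = ∑ n ∈ Ico X (2 * X), ∑ p ∈ Q2,
              if p - R' ≤ n ∧ n < p then (np N2 n : ℝ) else 0 := sum_comm
        _ ≤ _ := by
            refine sum_le_sum fun n _ => ?_
            rw [← sum_filter, sum_const, nsmul_eq_mul, sq]
            apply mul_le_mul_of_nonneg_right _ (Nat.cast_nonneg _)
            have g7 : (Q2.filter (fun p => p - R' ≤ n ∧ n < p)).card ≤ np N2 n := by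
              apply card_le_np
              intro p hp
              rw [mem_filter, hQ2, mem_filter] at hp
              have := hAp p hp.1.1
              exact ⟨this.2.2.1, by omega, by omega⟩
            exact_mod_cast g7
    have g8 : (R' : ℝ) * Q2.card * M ≤ C₂ * X := g1.trans hS2
    rw [← mul_div_assoc, le_div_iff₀ hL0]
    have g9 : L / 2 * Q2.card * M ≤ C₂ * X := by
      refine le_trans ?_ g8
      gcongr
    have g10 : 8 * C₂ * X ≤ ε * M * X := mul_le_mul_of_nonneg_right hMε hX0.le
    have g11 : ((Q2.card : ℝ) * L) * M ≤ (ε / 4 * X) * M := by linarith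
    exact le_of_mul_le_mul_right g11 hM0
  -- the rest
  have hsub : A ⊆ (Q1 ∪ Q2) ∪ ((Ico X (X + N + 1) ∪ Ico X (X + R')) ∪ Ico (2 * X - N) (2 * X)) := by
    intro p hp
    obtain ⟨b1, b2, -⟩ := hAp p hp
    by_cases q1 : p + N + TT < Nat.nth Nat.Prime (Nat.count Nat.Prime p + M)
    · by_cases q2 : X + N + 1 ≤ p
      · by_cases q3 : p + N < 2 * X
        · exact mem_union_left _ (mem_union_left _ (mem_filter.2 ⟨hp, q1, q2, q3⟩))
        · exact mem_union_right _ (mem_union_right _ (mem_Ico.2 ⟨by omega, b2⟩))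
      · exact mem_union_right _ (mem_union_left _ (mem_union_left _
          (mem_Ico.2 ⟨b1, by omega⟩)))
    · push Not at q1
      by_cases q2 : X + R' ≤ p
      · exact mem_union_left _ (mem_union_right _ (mem_filter.2 ⟨hp, q1, q2⟩))
      · exact mem_union_right _ (mem_union_left _ (mem_union_right _
          (mem_Ico.2 ⟨b1, by omega⟩)))
  have hcard : (A.card : ℝ) ≤ (Q1.card + Q2.card) + ((N + 1 + R') + N) := by
    have q1 := card_le_card hsub
    have q2 := card_union_le (Q1 ∪ Q2) ((Ico X (X + N + 1) ∪ Ico X (X + R')) ∪ Ico (2 * X - N) (2 * X))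
    have q3 := card_union_le Q1 Q2
    have q4 := card_union_le (Ico X (X + N + 1) ∪ Ico X (X + R')) (Ico (2 * X - N) (2 * X))
    have q5 := card_union_le (Ico X (X + N + 1)) (Ico X (X + R'))
    rw [Nat.card_Ico] at q4
    rw [Nat.card_Ico, Nat.card_Ico] at q5
    have q6 : A.card ≤ (Q1.card + Q2.card) + ((N + 1 + R') + N) := by omega
    exact_mod_cast q6
  have hrest : ((N : ℝ) + 1 + R') + N ≤ ε / 4 * (X / L) := by
    rw [← mul_div_assoc, le_div_iff₀ hL0]
    have q1 : ((N : ℝ) + 1 + R') + N ≤ (2 * K' + 5) * L := by linarith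
    calc (((N : ℝ) + 1 + R') + N) * L ≤ (2 * K' + 5) * L * L :=
          mul_le_mul_of_nonneg_right q1 hL0.le
      _ = (2 * K' + 5) * L ^ 2 := by ring
      _ ≤ _ := hsmall
  have hXL : 0 ≤ X / L := by positivity
  calc (A.card : ℝ) ≤ _ := hcard
    _ ≤ (ε / 4 * (X / L) + ε / 4 * (X / L)) + ε / 4 * (X / L) :=
        add_le_add (add_le_add hQ1c hQ2c) hrest
    _ ≤ ε * (X / L) := by nlinarith

end Pool.Agent.K7.H60
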