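import Mathlib

/-!
Local concentration of a weight in short intervals: first, second and fourth moments and the
correlations give that almost every short interval contains many points at which a rare counting
function vanishes.
-/

set_option autoImplicit false

open Finset

namespace Pool.Agent.K7.H60.Loc

/-- the sum over a window -/
noncomputable def win (S : Finset ℕ) (Y : ℕ) (f : ℕ → ℝ) (x : ℕ) : ℝ :=
  ∑ n ∈ S.filter (fun n => x < n ∧ n ≤ x + Y), f n

theorem win_nonneg {S : Finset ℕ} {Y : ℕ} {f : ℕ → ℝ} (hf : ∀ n ∈ S, 0 ≤ f n) (x : ℕ) :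
    0 ≤ win S Y f x :=
  sum_nonneg fun n hn => hf n (mem_filter.1 hn).1

theorem sum_win {S : Finset ℕ} {X Y : ℕ} (hS : S ⊆ Ico X (2 * X)) (hY : Y ≤ X) (f : ℕ → ℝ) :
    ∑ x ∈ Ico (X - Y) (2 * X), win S Y f x = Y * ∑ n ∈ S, f n := by
  have h1 : ∀ x, win S Y f x = ∑ n ∈ S, if x < n ∧ n ≤ x + Y then f n else 0 := by
    intro x
    unfold win
    rw [sum_filter]
  simp only [h1]
  rw [sum_comm, mul_sum]
  refine sum_congr rfl fun n hn => ?_
  have hn' := mem_Ico.1 (hS hn)
  rw [← sum_filter, sum_const, nsmul_eq_mul]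
  congr 1
  have h2 : (Ico (X - Y) (2 * X)).filter (fun x => x < n ∧ n ≤ x + Y) = Ico (n - Y) n := by
    ext x
    rw [mem_filter, mem_Ico, mem_Ico]
    omega
  rw [h2, Nat.card_Ico]
  have : n - (n - Y) = Y := by omega
  rw [this]

/-- the extension by zero -/
noncomputable def ez (S : Finset ℕ) (f : ℕ → ℝ) (n : ℕ) : ℝ := if n ∈ S then f n else 0

theorem ez_nonneg {S : Finset ℕ} {f : ℕ → ℝ} (hf : ∀ n ∈ S, 0 ≤ f n) (n : ℕ) :
    0 ≤ ez S f n := by
  unfold ez
  split_ifs with h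
  · exact hf n h
  · exact le_rfl

theorem win_eq (S : Finset ℕ) (Y : ℕ) (f : ℕ → ℝ) (x : ℕ) :
    win S Y f x = ∑ i ∈ Icc 1 Y, ez S f (x + i) := by
  unfold win ez
  rw [← sum_filter]
  symm
  refine sum_bij (fun i _ => x + i) ?_ ?_ ?_ ?_
  · intro i hi
    rw [mem_filter, mem_Icc] at hi
    rw [mem_filter]
    exact ⟨hi.2, by omega, by omega⟩
  · intro i _ j _ h
    simpa using h
  · intro n hn
    rw [mem_filter] at hn
    refine ⟨n - x, ?_, by omega⟩
    rw [mem_filter, mem_Icc]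
    have : x + (n - x) = n := by omega
    rw [this]
    exact ⟨⟨by omega, by omega⟩, hn.1⟩
  · intro i _
    rfl

/-- correlation -/
noncomputable def cor (S : Finset ℕ) (f : ℕ → ℝ) (h : ℕ) : ℝ := ∑ m ∈ S, f m * ez S f (m + h)

theorem sum_shift_le {S : Finset ℕ} {f : ℕ → ℝ} (hf : ∀ n ∈ S, 0 ≤ f n) (I : Finset ℕ)
    (i h : ℕ) : ∑ x ∈ I, ez S f (x + i) * ez S f (x + i + h) ≤ cor S f h := by
  have h1 : ∑ x ∈ I, ez S f (x + i) * ez S f (x + i + h) =
      ∑ m ∈ I.image (fun x => x + i), ez S f m * ez S f (m + h) := by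
    rw [sum_image]
    intro a _ b _ hab
    simpa using hab
  rw [h1]
  have h2 : ∑ m ∈ I.image (fun x => x + i), ez S f m * ez S f (m + h) =
      ∑ m ∈ (I.image (fun x => x + i)).filter (fun m => m ∈ S), f m * ez S f (m + h) := by
    rw [sum_filter]
    refine sum_congr rfl fun m _ => ?_
    unfold ez
    split_ifs <;> simp
  rw [h2]
  unfold cor
  refine sum_le_sum_of_subset_of_nonneg (fun m hm => (mem_filter.1 hm).2) fun m hm _ => ?_
  exact mul_nonneg (hf m hm) (ez_nonneg hf _)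

theorem sum_pair_le {S : Finset ℕ} {f : ℕ → ℝ} (hf : ∀ n ∈ S, 0 ≤ f n) (I : Finset ℕ)
    (i j : ℕ) : ∑ x ∈ I, ez S f (x + i) * ez S f (x + j) ≤ cor S f (Nat.dist i j) := by
  rcases le_total i j with h | h
  · have h1 := sum_shift_le hf I i (j - i)
    rw [Nat.dist_eq_sub_of_le h]
    refine le_trans (le_of_eq (sum_congr rfl fun x _ => ?_)) h1
    have : x + i + (j - i) = x + j := by omega
    rw [this]
  · have h1 := sum_shift_le hf I j (i - j)
    rw [Nat.dist_comm, Nat.dist_eq_sub_of_le h]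
    refine le_trans (le_of_eq (sum_congr rfl fun x _ => ?_)) h1
    have : x + j + (i - j) = x + i := by omega
    rw [this, mul_comm]

theorem cor_zero {S : Finset ℕ} {f : ℕ → ℝ} {W b : ℕ} (hb : ∀ n ∈ S, n % W = b) {h : ℕ}
    (hh : ¬ W ∣ h) : cor S f h = 0 := by
  unfold cor
  refine sum_eq_zero fun m hm => ?_
  unfold ez
  rw [if_neg, mul_zero]
  intro h1
  apply hh
  have h2 : (m + h) % W = m % W := by rw [hb _ h1, hb _ hm]
  have h3 : (m + h) ≡ m + 0 [MOD W] := h2
  have h4 := Nat.ModEq.add_left_cancel' m h3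
  exact (Nat.modEq_zero_iff_dvd).1 h4

theorem cor_le_sq {S : Finset ℕ} {f : ℕ → ℝ} (h : ℕ) : cor S f h ≤ ∑ m ∈ S, f m ^ 2 := by
  unfold cor
  have h1 : ∀ m ∈ S, f m * ez S f (m + h) ≤ (f m ^ 2 + ez S f (m + h) ^ 2) / 2 := by
    intro m _
    nlinarith [sq_nonneg (f m - ez S f (m + h))]
  refine (sum_le_sum h1).trans ?_
  rw [← sum_div, sum_add_distrib]
  have h2 : ∑ m ∈ S, ez S f (m + h) ^ 2 ≤ ∑ m ∈ S, f m ^ 2 := by
    have h3 : ∑ m ∈ S, ez S f (m + h) ^ 2 = ∑ m ∈ S.image (fun m => m + h), ez S f m ^ 2 := by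
      rw [sum_image]
      intro a _ b _ hab
      simpa using hab
    have h4 : ∑ m ∈ S.image (fun m => m + h), ez S f m ^ 2 =
        ∑ m ∈ (S.image (fun m => m + h)).filter (fun m => m ∈ S), f m ^ 2 := by
      rw [sum_filter]
      refine sum_congr rfl fun m _ => ?_
      unfold ez
      split_ifs <;> simp
    rw [h3, h4]
    exact sum_le_sum_of_subset_of_nonneg (fun m hm => (mem_filter.1 hm).2)
      fun m _ _ => sq_nonneg _
  linarith

/-- points of an interval in a class -/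
theorem card_class {W : ℕ} (hW : 0 < W) (a n r : ℕ) :
    (((Ico a (a + n)).filter (fun j => j % W = r)).card : ℝ) ≤ n / W + 2 := by
  have h1 : ((Ico a (a + n)).filter (fun j => j % W = r)).card ≤
      (Icc (a / W) ((a + n) / W)).card := by
    refine card_le_card_of_injOn (fun j => j / W) ?_ ?_
    · intro j hj
      rw [mem_coe, mem_filter, mem_Ico] at hj
      rw [mem_coe, mem_Icc]
      exact ⟨Nat.div_le_div_right hj.1.1, Nat.div_le_div_right hj.1.2.le⟩
    · intro j hj j' hj' h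
      rw [mem_coe, mem_filter] at hj hj'
      simp only at h
      rw [← Nat.div_add_mod j W, ← Nat.div_add_mod j' W, hj.2, hj'.2, h]
  have h2 : (Icc (a / W) ((a + n) / W)).card ≤ n / W + 2 := by
    rw [Nat.card_Icc]
    have h3 : (a + n) / W ≤ a / W + n / W + 1 := by
      have h4 : a < W * (a / W + 1) := Nat.lt_mul_div_succ a hW
      have h5 : n < W * (n / W + 1) := Nat.lt_mul_div_succ n hW
      have h6 : a + n < W * (a / W + n / W + 2) := by nlinarith
      have h7 : (a + n) / W < a / W + n / W + 2 := Nat.div_lt_of_lt_mul h6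
      exact Nat.lt_succ_iff.1 h7
    revert h3
    generalize (a + n) / W = x
    generalize a / W = y
    generalize n / W = z
    intro h3
    omega
  have h3 : (((Ico a (a + n)).filter (fun j => j % W = r)).card : ℝ) ≤ ((n / W + 2 : ℕ) : ℝ) := by
    exact_mod_cast h1.trans h2
  refine h3.trans ?_
  push_cast
  have h4 : ((n / W : ℕ) : ℝ) ≤ (n : ℝ) / W := Nat.cast_div_le
  linarith

theorem dvd_dist_iff {W i j : ℕ} (h : W ∣ Nat.dist i j) : j % W = i % W := by
  rcases le_total i j with h1 | h1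
  · rw [Nat.dist_eq_sub_of_le h1] at h
    have h2 := (Nat.modEq_iff_dvd' h1).2 h
    exact h2.symm
  · rw [Nat.dist_comm, Nat.dist_eq_sub_of_le h1] at h
    have h2 := (Nat.modEq_iff_dvd' h1).2 h
    exact h2

/-- the second moment of the window sums -/
theorem second {S : Finset ℕ} {f : ℕ → ℝ} (hf : ∀ n ∈ S, 0 ≤ f n) {W b : ℕ} (hW : 0 < W)
    (hb : ∀ n ∈ S, n % W = b) {Y H : ℕ} {A F : ℝ} (hA : 0 ≤ A) (hF : ∑ m ∈ S, f m ^ 2 ≤ F)
    (hc : ∀ h : ℕ, H < h → h ≤ Y → cor S f h ≤ A) (I : Finset ℕ) :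
    ∑ x ∈ I, win S Y f x ^ 2 ≤
      Y * (((Y : ℝ) / W + 2) * A + ((2 * H + 1 : ℕ) / (W : ℝ) + 2) * F) := by
  have hF0 : 0 ≤ F := (sum_nonneg fun m _ => sq_nonneg (f m)).trans hF
  have h1 : ∀ x, win S Y f x ^ 2 = ∑ i ∈ Icc 1 Y, ∑ j ∈ Icc 1 Y, ez S f (x + i) * ez S f (x + j) := by
    intro x
    rw [win_eq, sq, sum_mul_sum]
  simp only [h1]
  rw [sum_comm]
  have h2 : ∀ i ∈ Icc 1 Y, ∑ x ∈ I, ∑ j ∈ Icc 1 Y, ez S f (x + i) * ez S f (x + j) ≤
      ((Y : ℝ) / W + 2) * A + ((2 * H + 1 : ℕ) / (W : ℝ) + 2) * F := by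
    intro i hi
    rw [mem_Icc] at hi
    rw [sum_comm]
    have h3 : ∀ j ∈ Icc 1 Y, ∑ x ∈ I, ez S f (x + i) * ez S f (x + j) ≤
        (if j % W = i % W then A else 0) +
          (if j % W = i % W ∧ i ≤ j + H ∧ j ≤ i + H then F else 0) := by
      intro j hj
      rw [mem_Icc] at hj
      refine (sum_pair_le hf I i j).trans ?_
      by_cases hdv : W ∣ Nat.dist i j
      · have hjm := dvd_dist_iff hdv
        by_cases hnear : i ≤ j + H ∧ j ≤ i + H
        · rw [if_pos hjm, if_pos ⟨hjm, hnear⟩]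
          have := cor_le_sq (S := S) (f := f) (Nat.dist i j)
          linarith
        · rw [if_pos hjm, if_neg (fun h => hnear h.2), add_zero]
          apply hc
          · unfold Nat.dist
            omega
          · unfold Nat.dist
            omega
      · rw [cor_zero hb hdv]
        split_ifs <;> linarith
    refine (sum_le_sum h3).trans ?_
    rw [sum_add_distrib, ← sum_filter, ← sum_filter, sum_const, sum_const, nsmul_eq_mul,
      nsmul_eq_mul]
    apply add_le_add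
    · apply mul_le_mul_of_nonneg_right _ hA
      have h4 : (Icc 1 Y).filter (fun j => j % W = i % W) =
          (Ico 1 (1 + Y)).filter (fun j => j % W = i % W) := by
        congr 1
        ext j
        rw [mem_Icc, mem_Ico]
        omega
      rw [h4]
      exact card_class hW 1 Y _
    · apply mul_le_mul_of_nonneg_right _ hF0
      refine le_trans ?_ (card_class hW (i - H) (2 * H + 1) (i % W))
      have h5 : (Icc 1 Y).filter (fun j => j % W = i % W ∧ i ≤ j + H ∧ j ≤ i + H) ⊆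
          (Ico (i - H) (i - H + (2 * H + 1))).filter (fun j => j % W = i % W) := by
        intro j hj
        rw [mem_filter] at hj ⊢
        rw [mem_Ico]
        exact ⟨⟨by omega, by omega⟩, hj.2.1⟩
      exact_mod_cast card_le_card h5
  refine (sum_le_sum h2).trans ?_
  rw [sum_const, nsmul_eq_mul, Nat.card_Icc, Nat.add_sub_cancel]

/-- Markov -/
theorem markov {I : Finset ℕ} {g : ℕ → ℝ} (hg : ∀ x ∈ I, 0 ≤ g x) {a G : ℝ}
    (hG : ∑ x ∈ I, g x ≤ a * G) (ha : 0 < a) : ((I.filter (fun x => a < g x)).card : ℝ) ≤ G := by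
  have h1 : a * ((I.filter (fun x => a < g x)).card : ℝ) ≤ ∑ x ∈ I, g x := by
    calc a * ((I.filter (fun x => a < g x)).card : ℝ) =
        ∑ x ∈ I.filter (fun x => a < g x), a := by rw [sum_const, nsmul_eq_mul, mul_comm]
      _ ≤ ∑ x ∈ I.filter (fun x => a < g x), g x :=
          sum_le_sum fun x hx => (mem_filter.1 hx).2.le
      _ ≤ ∑ x ∈ I, g x :=
          sum_le_sum_of_subset_of_nonneg (filter_subset _ _) fun x hx _ => hg x hx
  exact le_of_mul_le_mul_left (h1.trans hG) ha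

/-- Markov, weak inequality -/
theorem markov' {I : Finset ℕ} {g : ℕ → ℝ} (hg : ∀ x ∈ I, 0 ≤ g x) {a G : ℝ}
    (hG : ∑ x ∈ I, g x ≤ a * G) (ha : 0 < a) : ((I.filter (fun x => a ≤ g x)).card : ℝ) ≤ G := by
  have h1 : a * ((I.filter (fun x => a ≤ g x)).card : ℝ) ≤ ∑ x ∈ I, g x := by
    calc a * ((I.filter (fun x => a ≤ g x)).card : ℝ) =
        ∑ x ∈ I.filter (fun x => a ≤ g x), a := by rw [sum_const, nsmul_eq_mul, mul_comm]
      _ ≤ ∑ x ∈ I.filter (fun x => a ≤ g x), g x :=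
          sum_le_sum fun x hx => (mem_filter.1 hx).2
      _ ≤ ∑ x ∈ I, g x :=
          sum_le_sum_of_subset_of_nonneg (filter_subset _ _) fun x hx _ => hg x hx
  exact le_of_mul_le_mul_left (h1.trans hG) ha

/-- the local lemma -/
theorem loc {S : Finset ℕ} {X Y W b H : ℕ} {V : ℕ → ℝ} {Np : ℕ → ℕ} {M s C ρ ε Ω : ℝ}
    (hS : S ⊆ Ico X (2 * X)) (hb : ∀ n ∈ S, n % W = b) (hW : 0 < W) (hY0 : 0 < Y) (hY : Y ≤ X)
    (hM : 1 ≤ M) (hs0 : 0 ≤ s) (hs1 : s ≤ 1) (hC : 0 < C) (hε : 0 < ε)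
    (hΩ : Ω = (X : ℝ) / W)
    (h1 : Ω * (M - s) ≤ ∑ n ∈ S, V n ^ 2) (h2 : ∑ n ∈ S, V n ^ 2 * Np n ≤ ρ * (Ω * M))
    (h4 : ∑ n ∈ S, V n ^ 4 ≤ C * Ω)
    (hp : ∀ h : ℕ, H < h → h ≤ Y → cor S (fun n => V n ^ 2) h ≤ Ω * (M ^ 2 + s))
    (hκ : 4 * (W : ℝ) / Y + (2 * H + 1 + 2 * W) * C / Y + (Y : ℝ) / X ≤ s) :
    (((Ico X (2 * X)).filter (fun x => ((S.filter (fun n => (x < n ∧ n ≤ x + Y) ∧ Np n = 0)).card : ℝ)
      < ε / (16 * C) * ((Y : ℝ) / W))).card : ℝ) ≤ (16 * s + 4 * ρ + ε) * X := by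
  classical
  have hX0 : 0 < X := by omega
  have hXr : (0 : ℝ) < X := by exact_mod_cast hX0
  have hYr : (0 : ℝ) < Y := by exact_mod_cast hY0
  have hWr : (0 : ℝ) < W := by exact_mod_cast hW
  have hΩ0 : 0 < Ω := by rw [hΩ]; positivity
  have hM0 : 0 < M := by linarith
  set I := Ico (X - Y) (2 * X) with hI
  set v : ℕ → ℝ := fun n => V n ^ 2 with hv
  have hv0 : ∀ n ∈ S, 0 ≤ v n := fun n _ => sq_nonneg _
  set m : ℝ := Y * M / W with hm
  have hm0 : 0 < m := by rw [hm]; positivity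
  have hcI : (I.card : ℝ) = X + Y := by
    rw [hI, Nat.card_Ico]
    have : 2 * X - (X - Y) = X + Y := by omega
    rw [this]
    push_cast
    rfl
  have hv4 : ∑ n ∈ S, v n ^ 2 ≤ C * Ω := by
    refine le_trans (le_of_eq (sum_congr rfl fun n _ => ?_)) h4
    simp only [hv]
    ring
  -- Chebyshev
  have e1 : ∑ x ∈ I, win S Y v x = Y * ∑ n ∈ S, v n := sum_win hS hY v
  have e2 := second hv0 hW hb (Y := Y) (H := H) (A := Ω * (M ^ 2 + s)) (F := C * Ω)
    (by positivity) hv4 hp I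
  have e3 : ∑ x ∈ I, (win S Y v x - m) ^ 2 ≤ m ^ 2 / 4 * (16 * s * X) := by
    have e4 : ∑ x ∈ I, (win S Y v x - m) ^ 2 =
        ∑ x ∈ I, win S Y v x ^ 2 - 2 * m * ∑ x ∈ I, win S Y v x + m ^ 2 * I.card := by
      rw [mul_sum, ← sum_sub_distrib, mul_comm (m ^ 2), ← nsmul_eq_mul, ← sum_const,
        ← sum_add_distrib]
      refine sum_congr rfl fun x _ => ?_
      ring
    rw [e4, e1, hcI]
    have e5 : 2 * m * (Y * (Ω * (M - s))) ≤ 2 * m * (Y * ∑ n ∈ S, v n) := by
      apply mul_le_mul_of_nonneg_left _ (by positivity)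
      exact mul_le_mul_of_nonneg_left h1 hYr.le
    set U : ℝ := X * (Y / W) ^ 2 with hU
    have hU0 : 0 < U := by rw [hU]; positivity
    have e6 : (Y : ℝ) * (((Y : ℝ) / W + 2) * (Ω * (M ^ 2 + s)) +
        ((2 * H + 1 : ℕ) / (W : ℝ) + 2) * (C * Ω)) =
        U * ((1 + 2 * W / Y) * (M ^ 2 + s) + (2 * H + 1 + 2 * W) * C / Y) := by
      rw [hU, hΩ]
      push_cast
      field_simp
    have e7 : 2 * m * (Y * (Ω * (M - s))) = U * (2 * (M * (M - s))) := by
      rw [hU, hΩ, hm]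
      field_simp
    have e8 : m ^ 2 * ((X : ℝ) + Y) = U * (M ^ 2 * (1 + Y / X)) := by
      rw [hU, hm]
      field_simp
    have e9 : m ^ 2 / 4 * (16 * s * X) = U * (4 * s * M ^ 2) := by
      rw [hU, hm]
      field_simp
      ring
    rw [e9]
    rw [e6] at e2
    rw [e7] at e5
    rw [e8]
    have e10 : (1 + 2 * (W : ℝ) / Y) * (M ^ 2 + s) + (2 * H + 1 + 2 * W) * C / Y -
        2 * (M * (M - s)) + M ^ 2 * (1 + Y / X) ≤ 4 * s * M ^ 2 := by
      have q1 : (1 : ℝ) ≤ M ^ 2 := by nlinarith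
      have q2 : M ≤ M ^ 2 := by nlinarith
      have q3 : 0 ≤ (W : ℝ) / Y := by positivity
      have q4 : 0 ≤ (2 * (H : ℝ) + 1 + 2 * W) * C / Y := by positivity
      have q5 : 0 ≤ (Y : ℝ) / X := by positivity
      have q6 : 4 * (W : ℝ) / Y = 4 * (W / Y) := by ring
      have q7 : 2 * (W : ℝ) / Y = 2 * (W / Y) := by ring
      rw [q6] at hκ
      rw [q7]
      have q8 : 2 * ((W : ℝ) / Y) * (M ^ 2 + s) ≤ 4 * (W / Y) * M ^ 2 := by
        have : M ^ 2 + s ≤ 2 * M ^ 2 := by linarith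
        nlinarith
      have q9 : (2 * (H : ℝ) + 1 + 2 * W) * C / Y ≤ (2 * H + 1 + 2 * W) * C / Y * M ^ 2 := by
        nlinarith
      have q10 : (4 * ((W : ℝ) / Y) + (2 * H + 1 + 2 * W) * C / Y + (Y : ℝ) / X) * M ^ 2 ≤
          s * M ^ 2 := mul_le_mul_of_nonneg_right hκ (by positivity)
      nlinarith
    have e11 := mul_le_mul_of_nonneg_left e10 hU0.le
    nlinarith
  have f1 : ((I.filter (fun x => m ^ 2 / 4 ≤ (win S Y v x - m) ^ 2)).card : ℝ) ≤ 16 * s * X :=
    markov' (fun x _ => sq_nonneg _) e3 (by positivity)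
  -- the points with primes
  have f2 : ((I.filter (fun x => m / 4 < win S Y (fun n => v n * Np n) x)).card : ℝ) ≤
      4 * ρ * X := by
    refine markov (fun x _ => win_nonneg (fun n hn => mul_nonneg (hv0 n hn) (Nat.cast_nonneg _)) x)
      ?_ (by positivity)
    rw [hI, sum_win hS hY]
    calc (Y : ℝ) * ∑ n ∈ S, v n * (Np n : ℝ) ≤ Y * (ρ * (Ω * M)) :=
          mul_le_mul_of_nonneg_left h2 hYr.le
      _ = m / 4 * (4 * ρ * X) := by
          rw [hm, hΩ]
          field_simp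
  -- the fourth moment
  have f3 : ((I.filter (fun x => C / ε * (Y / W) < win S Y (fun n => v n ^ 2) x)).card : ℝ) ≤
      ε * X := by
    refine markov (fun x _ => win_nonneg (fun n _ => sq_nonneg _) x) ?_ (by positivity)
    rw [hI, sum_win hS hY]
    calc (Y : ℝ) * ∑ n ∈ S, v n ^ 2 ≤ Y * (C * Ω) := mul_le_mul_of_nonneg_left hv4 hYr.le
      _ = C / ε * (Y / W) * (ε * X) := by
          rw [hΩ]
          field_simp
  -- inclusion
  have hsub : (Ico X (2 * X)).filter (fun x =>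
      ((S.filter (fun n => (x < n ∧ n ≤ x + Y) ∧ Np n = 0)).card : ℝ) <
        ε / (16 * C) * ((Y : ℝ) / W)) ⊆
      (I.filter (fun x => m ^ 2 / 4 ≤ (win S Y v x - m) ^ 2)) ∪
        ((I.filter (fun x => m / 4 < win S Y (fun n => v n * Np n) x)) ∪
          (I.filter (fun x => C / ε * (Y / W) < win S Y (fun n => v n ^ 2) x))) := by
    intro x hx
    rw [mem_filter] at hx
    have hxI : x ∈ I := by
      rw [hI, mem_Ico]
      have := mem_Ico.1 hx.1
      omega
    by_contra hcon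
    rw [mem_union, mem_union, mem_filter, mem_filter, mem_filter] at hcon
    push Not at hcon
    obtain ⟨g1, g2, g3⟩ := hcon
    have g1 := g1 hxI
    have g2 := g2 hxI
    have g3 := g3 hxI
    have g4 : m / 2 < win S Y v x := by
      by_contra hc
      push Not at hc
      nlinarith
    -- the sum over the good points
    set T := S.filter (fun n => x < n ∧ n ≤ x + Y) with hT
    have g5 : win S Y v x ≤ ∑ n ∈ T.filter (fun n => Np n = 0), v n +
        win S Y (fun n => v n * Np n) x := by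
      unfold win
      rw [← hT, ← sum_filter_add_sum_filter_not T (fun n => Np n = 0) (fun n => v n)]
      have : ∑ n ∈ T.filter (fun n => ¬ Np n = 0), v n ≤ ∑ n ∈ T, v n * (Np n : ℝ) := by
        calc ∑ n ∈ T.filter (fun n => ¬ Np n = 0), v n ≤
            ∑ n ∈ T.filter (fun n => ¬ Np n = 0), v n * (Np n : ℝ) := by
              refine sum_le_sum fun n hn => ?_
              rw [mem_filter] at hn
              have q1 : (1 : ℝ) ≤ Np n := by
                have : 1 ≤ Np n := Nat.one_le_iff_ne_zero.2 hn.2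
                exact_mod_cast this
              have q2 : 0 ≤ v n := sq_nonneg _
              nlinarith
          _ ≤ _ := sum_le_sum_of_subset_of_nonneg (filter_subset _ _) fun n _ _ =>
              mul_nonneg (sq_nonneg _) (Nat.cast_nonneg _)
      linarith
    have g6 : m / 4 ≤ ∑ n ∈ T.filter (fun n => Np n = 0), v n := by linarith
    have g7 : (∑ n ∈ T.filter (fun n => Np n = 0), v n) ^ 2 ≤
        ((T.filter (fun n => Np n = 0)).card : ℝ) * ∑ n ∈ T.filter (fun n => Np n = 0), v n ^ 2 :=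
      sq_sum_le_card_mul_sum_sq
    have g8 : ∑ n ∈ T.filter (fun n => Np n = 0), v n ^ 2 ≤ C / ε * (Y / W) := by
      refine le_trans ?_ g3
      unfold win
      rw [← hT]
      exact sum_le_sum_of_subset_of_nonneg (filter_subset _ _) fun n _ _ => sq_nonneg _
    have g9 : T.filter (fun n => Np n = 0) =
        S.filter (fun n => (x < n ∧ n ≤ x + Y) ∧ Np n = 0) := by
      rw [hT, filter_filter]
    rw [g9] at g7 g8 g6
    set c : ℝ := ((S.filter (fun n => (x < n ∧ n ≤ x + Y) ∧ Np n = 0)).card : ℝ) with hc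
    have hc0 : 0 ≤ c := Nat.cast_nonneg _
    have g10 : (m / 4) ^ 2 ≤ c * (C / ε * (Y / W)) := by
      calc (m / 4) ^ 2 ≤ _ := pow_le_pow_left₀ (by positivity) g6 2
        _ ≤ _ := g7
        _ ≤ _ := mul_le_mul_of_nonneg_left g8 hc0
    have g11 : c * (C / ε * (Y / W)) < (m / 4) ^ 2 := by
      calc c * (C / ε * (Y / W)) < ε / (16 * C) * ((Y : ℝ) / W) * (C / ε * (Y / W)) :=
            mul_lt_mul_of_pos_right hx.2 (by positivity)
        _ = (Y / W) ^ 2 / 16 * 1 := by
            field_simp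
        _ ≤ (Y / W) ^ 2 / 16 * M ^ 2 := by
            apply mul_le_mul_of_nonneg_left _ (by positivity)
            nlinarith
        _ = (m / 4) ^ 2 := by
            rw [hm]
            ring
    linarith
  have f4 := card_le_card hsub
  have f5 : (((Ico X (2 * X)).filter (fun x =>
      ((S.filter (fun n => (x < n ∧ n ≤ x + Y) ∧ Np n = 0)).card : ℝ) <
        ε / (16 * C) * ((Y : ℝ) / W))).card : ℝ) ≤
      ((I.filter (fun x => m ^ 2 / 4 ≤ (win S Y v x - m) ^ 2)).card : ℝ) +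
        (((I.filter (fun x => m / 4 < win S Y (fun n => v n * Np n) x)).card : ℝ) +
          ((I.filter (fun x => C / ε * (Y / W) < win S Y (fun n => v n ^ 2) x)).card : ℝ)) := by
    have q := f4.trans ((card_union_le _ _).trans (Nat.add_le_add_left (card_union_le _ _) _))
    exact_mod_cast q
  calc _ ≤ _ := f5
    _ ≤ 16 * s * X + (4 * ρ * X + ε * X) := add_le_add f1 (add_le_add f2 f3)
    _ = _ := by ring

end Pool.Agent.K7.H60.Loc
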