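import Pool.Agent.K7.H60.PairAsm
import Pool.Agent.K7.H60.Loc

/-!
One class: almost every short interval contains many integers of the class followed by a long
interval without primes.
-/

set_option autoImplicit false

open Finset

namespace Pool.Agent.K7.H60

open Pool.Agent.H361R2.PP
open Pool.Agent.H410R2.AC (wt GG cfg term WW pos Inj coef)

/-- correlations, with the constant of the data -/
theorem smp' (c0 : ℝ) (hc0 : c0 = 1) (t : ℕ) (u : Fin t → ℝ) (Λ θ s : ℝ) (hu : ∀ τ, 0 < u τ)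
    (hs : ∑ τ, u τ ≤ θ / 2) (hθ : 0 < θ) (hθ1 : θ ≤ 1 / 32) (hΛ : 0 < Λ) (h0 : 0 < s) :
    ∃ δ₀ : ℝ, 0 < δ₀ ∧ ∀ δ : ℝ, 0 < δ → δ ≤ δ₀ →
    ∀ T : ℝ, 0 < T → ∃ X₀ : ℕ, ∀ X : ℕ, X₀ ≤ X → ∀ b : ℕ, b < Wm X → ∀ D : Dat t u c0 δ X,
    (∀ a, D.cf a = -1) → ∀ B ⊆ BB X b ⌊Λ * Real.log X⌋₊, ∀ h : ℕ, Λ * Real.log X < h →
    (h : ℝ) ≤ T * Real.log X →
      |∑ m ∈ SI X b, (WW B (fun _ => 1) (xx D m) * WW B (fun _ => 1) (xx D (m + h))) ^ 2 -
        (X : ℝ) / Wm X * (ZZ D B (fun _ => 1)) ^ 2| ≤ s * ((X : ℝ) / Wm X) := by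
  subst hc0
  exact smp t u Λ θ s hu hs hθ hθ1 hΛ h0

/-- the integers after which there is no prime for a while -/
def Free (N n : ℕ) : Prop := ∀ a ∈ Icc 1 N, ¬ (n + a).Prime

instance (N n : ℕ) : Decidable (Free N n) := by unfold Free; infer_instance

theorem cls_local (hCol : Col) (hCob : Cob) (hMni : Mni)
    {t : ℕ} {u : Fin t → ℝ} {c0 δ : ℝ} {X : ℕ} {Λ θ s C η c : ℝ} {b : ℕ}
    {β : Fin t → ℝ} {D : Dat t u c0 δ X} (h : Sit Λ θ s C η c b β D) (hX : 1 ≤ X)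
    (hHX : HH X < X) (hL : 0 < Real.log X)
    (hθ : θ ≤ 1 / 32) (hC : 0 < C) (hΛ : 0 < Λ)
    (hcf : ∀ a, D.cf a = -1)
    (hcB : ((BB X b ⌊Λ * Real.log X⌋₊).card : ℝ) ≤
      (1 + s) * (Λ * Real.log X * (Nat.totient (Wm X) / Wm X)))
    (hVG : VV δ X / GG (S1 δ θ X) * (((Nat.totient (Wm X) : ℝ) / Wm X) *
      ((1 / 4 - 3 * θ) * Real.log X)) ≤ 1)
    (Y : ℕ) (hY0 : 0 < Y) (hYX : Y ≤ X) (ε : ℝ) (hε : 0 < ε)
    (hpair : ∀ k : ℕ, Λ * Real.log X < k → k ≤ Y →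
      |∑ m ∈ SI X b, (WW (BB X b ⌊Λ * Real.log X⌋₊) (fun _ => 1) (xx D m) *
        WW (BB X b ⌊Λ * Real.log X⌋₊) (fun _ => 1) (xx D (m + k))) ^ 2 -
        (X : ℝ) / Wm X * (ZZ D (BB X b ⌊Λ * Real.log X⌋₊) (fun _ => 1)) ^ 2| ≤
        s * ((X : ℝ) / Wm X))
    (hκ : 4 * (Wm X : ℝ) / Y + (2 * ⌊Λ * Real.log X⌋₊ + 1 + 2 * Wm X) * C / Y + (Y : ℝ) / X ≤ s) :
    (((Ico X (2 * X)).filter (fun x => (((SI X b).filter (fun n => (x < n ∧ n ≤ x + Y) ∧
      Free ⌊Λ * Real.log X⌋₊ n)).card : ℝ) < ε / (16 * C) * ((Y : ℝ) / Wm X))).card : ℝ) ≤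
      (16 * s + 4 * (20 * Λ * s) + ε) * X := by
  classical
  set N := ⌊Λ * Real.log X⌋₊ with hN
  set B := BB X b N with hB
  set M := ZZ D B (fun _ => 1) with hM
  set Ω := (X : ℝ) / Wm X with hΩ
  set L := Real.log X with hLd
  set f := (Nat.totient (Wm X) : ℝ) / Wm X with hf
  set V : ℕ → ℝ := fun n => WW B (fun _ => 1) (xx D n) with hV
  have hs0 := h.s0
  have hs1 := h.s1
  have hc := h.c00
  have hW0 : (0 : ℝ) < Wm X := by exact_mod_cast Wm_pos X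
  have hφ0 : (0 : ℝ) < Nat.totient (Wm X) := by exact_mod_cast Nat.totient_pos.2 (Wm_pos X)
  have hX0 : (0 : ℝ) < X := by exact_mod_cast hX
  have hΩ0 : 0 < Ω := div_pos hX0 hW0
  have hf0 : 0 < f := div_pos hφ0 hW0
  have hM1 : 1 ≤ M := by
    rw [hM, ZZ_one]
    exact (hMni t B β (qq D) η h.η0 h.β0 h.β1 (fun τ a => qq_nonneg h.v0 τ a) h.hη).1
  have hM0 : 0 < M := by linarith
  have hθ4 : 5 / 32 ≤ 1 / 4 - 3 * θ := by linarith
  set v := VV δ X / GG (S1 δ θ X) with hv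
  have hG1 : 1 ≤ GG (S1 δ θ X) := GG1_ge hX hθ
  have hv0 : 0 ≤ v := div_nonneg h.v0 (by linarith)
  set w4 := 1 / 4 - 3 * θ with hw4
  have hw40 : 0 < w4 := by linarith
  have hvL : v * (f * L) ≤ 1 / w4 := by
    rw [le_div_iff₀ hw40]
    calc v * (f * L) * w4 = v * (f * (w4 * L)) := by ring
      _ ≤ 1 := hVG
  have hsm := (h.sm B (Subset.refl _) (fun _ => 1) (by
    intro σ
    rw [abs_one]
    have := h.cc0
    nlinarith))
  have hsm1 := abs_le.1 hsm.1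
  obtain ⟨A, hA⟩ : ∃ A : ℝ, A = Ω * M := ⟨_, rfl⟩
  have hA0 : 0 < A := by
    rw [hA]
    exact mul_pos hΩ0 hM0
  have h1 : Ω * (M - s) ≤ ∑ n ∈ SI X b, V n ^ 2 := by
    have := hsm1.1
    simp only [hV]
    nlinarith
  -- the primes
  have h4 : ∑ n ∈ SI X b, V n ^ 2 * Np B n ≤ (20 * Λ * s) * (Ω * M) := by
    rw [moment1, ← hA]
    obtain ⟨T, hT⟩ : ∃ T : ℝ, T = Ω * v * ((η + s) * M) := ⟨_, rfl⟩
    have hη0 := h.η0
    have hT0 : 0 ≤ T := by
      rw [hT]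
      exact mul_nonneg (mul_nonneg hΩ0.le hv0) (by positivity)
    have h5 : ∑ a ∈ B, ∑ n ∈ SP X b a, V n ^ 2 ≤ ∑ a ∈ B, T := by
      refine sum_le_sum fun a ha => ?_
      rw [hT]
      exact E2 hCol hCob hMni h hX hθ ha (hcf a)
    refine h5.trans ?_
    rw [sum_const, nsmul_eq_mul]
    refine (mul_le_mul_of_nonneg_right hcB hT0).trans ?_
    have h6 : (1 + s) * (Λ * L * f) * T = (v * (f * L)) * ((1 + s) * Λ * (η + s) * A) := by
      rw [hT, hA]; ring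
    rw [h6]
    have h7 : v * (f * L) ≤ 32 / 5 := by
      refine hvL.trans ?_
      rw [div_le_iff₀ hw40]
      linarith
    have h8 : 0 ≤ (1 + s) * Λ * (η + s) * A := by positivity
    refine (mul_le_mul_of_nonneg_right h7 h8).trans ?_
    have h9 : (1 + s) * (η + s) ≤ 3 * s := in3 hs0 hs1 h.ηs
    calc 32 / 5 * ((1 + s) * Λ * (η + s) * A) = 32 / 5 * (Λ * A) * ((1 + s) * (η + s)) := by ring
      _ ≤ 32 / 5 * (Λ * A) * (3 * s) := mul_le_mul_of_nonneg_left h9 (by positivity)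
      _ = 96 / 5 * (Λ * A * s) := by ring
      _ ≤ 20 * (Λ * A * s) := mul_le_mul_of_nonneg_right (by norm_num) (by positivity)
      _ = _ := by ring
  have h5 : ∑ n ∈ SI X b, V n ^ 4 ≤ C * Ω := hsm.2.2.2.2
  have hcor : ∀ k : ℕ, N < k → k ≤ Y → Loc.cor (SI X b) (fun n => V n ^ 2) k ≤
      Ω * (M ^ 2 + s) := by
    intro k hk hkY
    have hk' : Λ * L < k := by
      by_contra hcon
      push Not at hcon
      have := Nat.le_floor hcon
      omega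
    have h10 := (abs_le.1 (hpair k hk' hkY)).2
    have h11 : Loc.cor (SI X b) (fun n => V n ^ 2) k ≤
        ∑ m ∈ SI X b, (V m * V (m + k)) ^ 2 := by
      unfold Loc.cor Loc.ez
      refine sum_le_sum fun m _ => ?_
      split_ifs
      · rw [mul_pow]
      · rw [mul_zero]
        positivity
    have h12 : ∑ m ∈ SI X b, (V m * V (m + k)) ^ 2 ≤ Ω * M ^ 2 + s * Ω := by
      simp only [hV]
      linarith
    calc _ ≤ _ := h11
      _ ≤ _ := h12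
      _ = _ := by ring
  have hSI : SI X b ⊆ Ico X (2 * X) := by
    unfold SI
    exact filter_subset _ _
  have hb : ∀ n ∈ SI X b, n % Wm X = b := fun n hn => (mem_SI.1 hn).2.2
  have hfin := Loc.loc hSI hb (Wm_pos X) hY0 hYX hM1 hs0 hs1 hC hε hΩ h1 h4 h5 hcor hκ
  refine le_trans ?_ hfin
  have h20 : (Ico X (2 * X)).filter (fun x => (((SI X b).filter (fun n => (x < n ∧ n ≤ x + Y) ∧
      Free N n)).card : ℝ) < ε / (16 * C) * ((Y : ℝ) / Wm X)) ⊆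
      (Ico X (2 * X)).filter (fun x => (((SI X b).filter (fun n => (x < n ∧ n ≤ x + Y) ∧
        Np B n = 0)).card : ℝ) < ε / (16 * C) * ((Y : ℝ) / Wm X)) := by
    intro x hx
    rw [mem_filter] at hx ⊢
    refine ⟨hx.1, lt_of_le_of_lt ?_ hx.2⟩
    have h21 : (SI X b).filter (fun n => (x < n ∧ n ≤ x + Y) ∧ Np B n = 0) ⊆
        (SI X b).filter (fun n => (x < n ∧ n ≤ x + Y) ∧ Free N n) := by
      intro n hn
      rw [mem_filter] at hn ⊢
      refine ⟨hn.1, hn.2.1, ?_⟩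
      intro a ha hp
      rw [mem_Icc] at ha
      have h22 : a ∈ B.filter (fun a => (n + a).Prime) := by
        rw [mem_filter]
        exact ⟨prime_BB hHX hn.1 ha.1 ha.2 hp, hp⟩
      have h23 := hn.2.2
      unfold Np at h23
      rw [card_eq_zero] at h23
      rw [h23] at h22
      exact absurd h22 (notMem_empty a)
    exact_mod_cast card_le_card h21
  exact_mod_cast card_le_card h20

end Pool.Agent.K7.H60
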