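import Pool.Agent.K7.H47.DM.Stm4

set_option autoImplicit false

open Polynomial

namespace Pool.Agent.K7.H60.D4

open Pool.Agent.K7.H47.DM4

theorem sum_swap {ι : Type} [Fintype ι] [DecidableEq ι] (f g : ι → ℕ) (x y : ι) (hxy : x ≠ y)
    (h : ∀ c, c ≠ x → c ≠ y → f c = g c) :
    (∑ c, f c) + (g x + g y) = (∑ c, g c) + (f x + f y) := by
  have key : ∀ h : ι → ℕ, ∑ c, h c = h x + (h y + ∑ c ∈ (Finset.univ.erase x).erase y, h c) := by
    intro h
    rw [← Finset.add_sum_erase _ h (Finset.mem_univ x),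
      ← Finset.add_sum_erase (Finset.univ.erase x) h
        (Finset.mem_erase.mpr ⟨hxy.symm, Finset.mem_univ y⟩)]
  rw [key f, key g]
  have e : ∑ c ∈ (Finset.univ.erase x).erase y, f c = ∑ c ∈ (Finset.univ.erase x).erase y, g c := by
    apply Finset.sum_congr rfl
    intro c hc
    rw [Finset.mem_erase, Finset.mem_erase] at hc
    exact h c hc.2.1 hc.1
  rw [e]
  ring

theorem aux (ι : Type) [Fintype ι] [DecidableEq ι] (t j cl : ι → ℕ) (ht : Function.Injective t)
    (σ σ' : Equiv.Perm ι) (hσ : Feas t j σ) (hσ' : Feas t j σ')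
    (hopt : ∀ τ, Feas t j τ → Wt t cl τ ≤ Wt t cl σ) (r : ι)
    (hmin : ∀ r', t r' < t r → cl (σ.symm r') = cl (σ'.symm r'))
    (hlt : cl (σ'.symm r) < cl (σ.symm r)) : False := by
  classical
  obtain ⟨κ, hκ⟩ : ∃ κ, κ = cl (σ'.symm r) := ⟨_, rfl⟩
  -- a column `x` of class `κ`
  obtain ⟨x, hx1, hx2, hx3⟩ : ∃ x, cl x = κ ∧ t (σ' x) ≤ t r ∧ t r < t (σ x) := by
    by_contra hno
    push Not at hno
    -- rows of class `κ` with `t ≤ t r`
    have h1 : (Finset.univ.filter (fun s : ι => t s ≤ t r ∧ cl (σ'.symm s) = κ)).card ≤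
        (Finset.univ.filter (fun s : ι => t s ≤ t r ∧ cl (σ.symm s) = κ)).card := by
      apply Finset.card_le_card_of_injOn (fun s => σ (σ'.symm s))
      · intro s hs
        have hs := (Finset.mem_filter.mp (Finset.mem_coe.mp hs)).2
        rw [Finset.mem_coe, Finset.mem_filter]
        refine ⟨Finset.mem_univ _, ?_, ?_⟩
        · exact hno (σ'.symm s) hs.2 (by rw [Equiv.apply_symm_apply]; exact hs.1)
        · rw [Equiv.symm_apply_apply]
          exact hs.2
      · intro a _ b _ hab
        exact σ'.symm.injective (σ.injective hab)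
    have h2 : (Finset.univ.filter (fun s : ι => t s ≤ t r ∧ cl (σ.symm s) = κ)).card <
        (Finset.univ.filter (fun s : ι => t s ≤ t r ∧ cl (σ'.symm s) = κ)).card := by
      apply Finset.card_lt_card
      rw [Finset.ssubset_iff_of_subset]
      · refine ⟨r, ?_, ?_⟩
        · rw [Finset.mem_filter]
          exact ⟨Finset.mem_univ _, le_refl _, hκ.symm⟩
        · rw [Finset.mem_filter]
          rintro ⟨-, -, h⟩
          omega
      · intro s hs
        rw [Finset.mem_filter] at hs ⊢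
        refine ⟨hs.1, hs.2.1, ?_⟩
        rcases Nat.lt_or_ge (t s) (t r) with h | h
        · rw [← hmin s h]
          exact hs.2.2
        · have : s = r := ht (by omega)
          rw [this]
          exact hκ.symm
    omega
  -- the exchange
  obtain ⟨y, hy⟩ : ∃ y, y = σ.symm r := ⟨_, rfl⟩
  have hσy : σ y = r := by rw [hy, Equiv.apply_symm_apply]
  have hxy : x ≠ y := by
    rintro rfl
    rw [hσy] at hx3
    omega
  have hclxy : cl x < cl y := by rw [hx1, hκ, hy]; exact hlt
  obtain ⟨τ, hτ⟩ : ∃ τ : Equiv.Perm ι, τ = (Equiv.swap x y).trans σ := ⟨_, rfl⟩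
  have hτx : τ x = r := by rw [hτ, Equiv.trans_apply, Equiv.swap_apply_left, hσy]
  have hτy : τ y = σ x := by rw [hτ, Equiv.trans_apply, Equiv.swap_apply_right]
  have hτc : ∀ c, c ≠ x → c ≠ y → τ c = σ c := by
    intro c h1 h2
    rw [hτ, Equiv.trans_apply, Equiv.swap_apply_of_ne_of_ne h1 h2]
  have hfeas : Feas t j τ := by
    intro c
    by_cases h1 : c = x
    · rw [h1, hτx]
      exact (hσ' x).trans hx2
    · by_cases h2 : c = y
      · rw [h2, hτy]
        have := hσ y
        rw [hσy] at this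
        omega
      · rw [hτc c h1 h2]
        exact hσ c
  have hw := hopt τ hfeas
  have hs := sum_swap (fun c => cl c * t (τ c)) (fun c => cl c * t (σ c)) x y hxy
    (fun c h1 h2 => by simp only [hτc c h1 h2])
  simp only [hτx, hτy, hσy] at hs
  unfold Wt at hw
  have h3 : cl x * t (σ x) + cl y * t r < cl x * t r + cl y * t (σ x) := by nlinarith
  omega

/-- **JOB U.** -/
theorem u : StU := by
  intro ι _ _ t j cl ht σ σ' hσ hσ' hopt hopt'
  by_contra hne
  push Not at hne
  obtain ⟨r, hr, hmin⟩ := Finset.exists_min_image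
    (Finset.univ.filter (fun r => cl (σ.symm r) ≠ cl (σ'.symm r))) t (by
      obtain ⟨r, hr⟩ := hne
      exact ⟨r, Finset.mem_filter.mpr ⟨Finset.mem_univ _, hr⟩⟩)
  rw [Finset.mem_filter] at hr
  have hmin' : ∀ r', t r' < t r → cl (σ.symm r') = cl (σ'.symm r') := by
    intro r' h
    by_contra h2
    have := hmin r' (Finset.mem_filter.mpr ⟨Finset.mem_univ _, h2⟩)
    omega
  rcases Nat.lt_or_gt_of_ne hr.2 with h | h
  · exact aux ι t j cl ht σ' σ hσ' hσ hopt' r (fun r' h' => (hmin' r' h').symm) h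
  · exact aux ι t j cl ht σ σ' hσ hσ' hopt r hmin' h

end Pool.Agent.K7.H60.D4
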