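import Pool.Agent.K7.H84.GG.Stm

/-!
# Project GG (MP_dc96bc_co), job SUN
-/

set_option autoImplicit false

open Finset DC813

namespace Pool.Agent.K7.H60.GGSUN

open Pool.Agent.K7.H84.GG

variable {α : Type} [DecidableEq α]

/-- the rank does not grow: passing to a larger set -/
theorem ins_mono {r : Finset α → ℕ} (hr : IsRk r) {A B : Finset α} (hAB : A ⊆ B) {x : α}
    (h : r (insert x A) = r A) : r (insert x B) = r B := by
  have h1 := hr.submod (insert x A) B
  have h2 : insert x A ∪ B = insert x B := by
    ext y
    simp only [mem_union, mem_insert]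
    constructor
    · rintro ((h | h) | h)
      · exact Or.inl h
      · exact Or.inr (hAB h)
      · exact Or.inr h
    · rintro (h | h)
      · exact Or.inl (Or.inl h)
      · exact Or.inr h
  have h3 : r A ≤ r (insert x A ∩ B) :=
    hr.mono _ _ (subset_inter (subset_insert _ _) hAB)
  have h4 : r B ≤ r (insert x B) := hr.mono _ _ (subset_insert _ _)
  rw [h2] at h1
  omega

theorem subset_cl {r : Finset α → ℕ} {E A : Finset α} (hA : A ⊆ E) : A ⊆ cl r E A := by
  intro x hx
  unfold cl
  rw [mem_filter]
  exact ⟨hA hx, by rw [insert_eq_of_mem hx]⟩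

theorem r_cl {r : Finset α → ℕ} (hr : IsRk r) {E A : Finset α} (hA : A ⊆ E) :
    r (cl r E A) = r A := by
  have key : ∀ B : Finset α, B ⊆ cl r E A → r (A ∪ B) = r A := by
    intro B
    induction B using Finset.induction_on with
    | empty => intro _; rw [union_empty]
    | insert b B hb ih =>
      intro hB
      have h1 := ih ((subset_insert _ _).trans hB)
      have h2 : b ∈ cl r E A := hB (mem_insert_self _ _)
      unfold cl at h2
      rw [mem_filter] at h2
      rw [union_insert, ins_mono hr subset_union_left h2.2, h1]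
  have := key _ (subset_refl _)
  rwa [union_eq_right.mpr (subset_cl hA)] at this

theorem cl_sub {r : Finset α → ℕ} {E A : Finset α} : cl r E A ⊆ E := filter_subset _ _

theorem notMem_cl {r : Finset α → ℕ} (hr : IsRk r) {E A : Finset α} {x : α} (hx : x ∈ E)
    (hxc : x ∉ cl r E A) : r (insert x A) = r A + 1 := by
  have h1 : ¬ r (insert x A) = r A := by
    intro h
    exact hxc (by unfold cl; rw [mem_filter]; exact ⟨hx, h⟩)
  have h2 := hr.insert_le A x
  have h3 := hr.mono A (insert x A) (subset_insert _ _)
  omega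

theorem cl_fl {r : Finset α → ℕ} (hr : IsRk r) {E A : Finset α} (hA : A ⊆ E) :
    cl r E A ∈ fl r E := by
  unfold fl
  rw [mem_filter, mem_powerset]
  refine ⟨cl_sub, fun e he hec => ?_⟩
  have h1 := notMem_cl hr he hec
  have h2 := hr.mono (insert e A) (insert e (cl r E A)) (insert_subset_insert _ (subset_cl hA))
  rw [r_cl hr hA]
  omega

theorem fl_ins {r : Finset α → ℕ} (hr : IsRk r) {E F : Finset α} (hF : F ∈ fl r E) {x : α}
    (hx : x ∈ E) (hxF : x ∉ F) : r (insert x F) = r F + 1 := by
  unfold fl at hF
  rw [mem_filter] at hF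
  have h1 := hF.2 x hx hxF
  have h2 := hr.insert_le F x
  omega

theorem fl_sub {r : Finset α → ℕ} {E F : Finset α} (hF : F ∈ fl r E) : F ⊆ E := by
  unfold fl at hF
  rw [mem_filter, mem_powerset] at hF
  exact hF.1

/-- a flat is closed -/
theorem fl_mem {r : Finset α → ℕ} {E F : Finset α} (hF : F ∈ fl r E) {x : α}
    (hx : x ∈ E) (h : r (insert x F) = r F) : x ∈ F := by
  by_contra hxF
  unfold fl at hF
  rw [mem_filter] at hF
  have h1 := hF.2 x hx hxF
  omega

/-- the sunflower inequality -/
theorem sunflower (f : Finset α → ℤ) (hf : Sub f) (G : Finset α) :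
    ∀ T : Finset (Finset α), T.Nonempty → (∀ H ∈ T, G ⊆ H) →
      (∀ H ∈ T, ∀ H' ∈ T, H ≠ H' → H ∩ H' = G) →
      f (T.biUnion id) + ((T.card : ℤ) - 1) * f G ≤ ∑ H ∈ T, f H := by
  intro T
  induction T using Finset.induction_on with
  | empty => intro h; exact absurd h (by simp)
  | insert H T hH ih =>
    intro _ hG hI
    rcases T.eq_empty_or_nonempty with rfl | hT
    · simp
    · have h1 := ih hT (fun H' hH' => hG H' (mem_insert_of_mem hH'))
        (fun H1 h1 H2 h2 => hI H1 (mem_insert_of_mem h1) H2 (mem_insert_of_mem h2))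
      have h2 := hf H (T.biUnion id)
      have h3 : H ∩ T.biUnion id = G := by
        ext x
        simp only [mem_inter, mem_biUnion, id]
        constructor
        · rintro ⟨hx, H', hH', hx'⟩
          have := hI H (mem_insert_self _ _) H' (mem_insert_of_mem hH')
            (fun h => hH (h ▸ hH'))
          rw [← this, mem_inter]
          exact ⟨hx, hx'⟩
        · intro hx
          obtain ⟨H', hH'⟩ := hT
          exact ⟨hG H (mem_insert_self _ _) hx, H', hH', hG H' (mem_insert_of_mem hH') hx⟩
      rw [h3] at h2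
      rw [biUnion_insert, sum_insert hH, card_insert_of_notMem hH]
      simp only [id] at h1 h2 ⊢
      push_cast
      linarith

/-- **JOB SUN.** -/
theorem t : StSun := by
  intro α _ r E L p f G hC hf hG
  have hr := hC.hr
  unfold T1 at hG
  rw [mem_filter] at hG
  obtain ⟨hGf, hG2, hGL⟩ := hG
  have hGE : G ⊆ E := fl_sub hGf
  have hpG : p ∉ G := by
    intro hpG
    have h1 := hr.submod G L
    have h2 : r {p} ≤ r (G ∩ L) :=
      hr.mono _ _ (singleton_subset_iff.mpr (mem_inter.mpr ⟨hpG, hC.hpL⟩))
    have h3 := hC.lp p hC.hp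
    have h4 := hC.hL2
    omega
  have hpG1 : r (insert p G) = r G + 1 := fl_ins hr hGf hC.hp hpG
  have hpGE : insert p G ⊆ E := insert_subset hC.hp hGE
  -- the hyperplane through `x`
  have hH : ∀ x ∈ E, x ∉ cl r E (insert p G) →
      cl r E (insert x G) ∈ (hy r E p).filter (fun H => G ⊆ H) := by
    intro x hx hxc
    have hxGE : insert x G ⊆ E := insert_subset hx hGE
    have h1 := notMem_cl hr hx hxc
    have hxG : x ∉ G := by
      intro hxG
      exact hxc (subset_cl hpGE (mem_insert_of_mem hxG))
    have h2 := fl_ins hr hGf hx hxG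
    rw [mem_filter]
    constructor
    · unfold hy
      rw [mem_filter]
      refine ⟨cl_fl hr hxGE, ?_, ?_⟩
      · rw [r_cl hr hxGE]
        omega
      · intro hp
        unfold cl at hp
        rw [mem_filter, insert_comm] at hp
        omega
    · exact (subset_insert _ _).trans (subset_cl hxGE)
  have hne : ((hy r E p).filter (fun H => G ⊆ H)).Nonempty := by
    by_contra hne
    have : E ⊆ cl r E (insert p G) := by
      intro x hx
      by_contra hxc
      exact hne ⟨_, hH x hx hxc⟩
    have h1 := hr.mono _ _ this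
    rw [r_cl hr hpGE] at h1
    omega
  have hI : ∀ H ∈ (hy r E p).filter (fun H => G ⊆ H), ∀ H' ∈ (hy r E p).filter (fun H => G ⊆ H),
      ∀ e ∈ H ∩ H', e ∉ G → H ⊆ H' := by
    intro H hH' H' hH'' e he heG x hx
    rw [mem_filter] at hH' hH''
    unfold hy at hH' hH''
    rw [mem_filter] at hH' hH''
    rw [mem_inter] at he
    have heE : e ∈ E := fl_sub hH'.1.1 he.1
    have h1 := fl_ins hr hGf heE heG
    have h2 : r (insert x (insert e G)) ≤ r H :=
      hr.mono _ _ (insert_subset hx (insert_subset he.1 hH'.2))
    have h3 := hr.mono (insert e G) (insert x (insert e G)) (subset_insert _ _)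
    have h4 : r (insert x (insert e G)) = r (insert e G) := by omega
    exact fl_mem hH''.1.1 (fl_sub hH'.1.1 hx) (ins_mono hr (insert_subset he.2 hH''.2) h4)
  have hU : ((hy r E p).filter (fun H => G ⊆ H)).biUnion id
      = G ∪ (E \ cl r E (insert p G)) := by
    ext x
    simp only [mem_biUnion, id, mem_union, mem_sdiff]
    constructor
    · rintro ⟨H, hH', hx⟩
      by_cases hxG : x ∈ G
      · exact Or.inl hxG
      · right
        rw [mem_filter] at hH'
        unfold hy at hH'
        rw [mem_filter] at hH'
        have hxE : x ∈ E := fl_sub hH'.1.1 hx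
        refine ⟨hxE, fun hxc => ?_⟩
        unfold cl at hxc
        rw [mem_filter] at hxc
        have h1 := fl_ins hr hGf hxE hxG
        have h2 : r (insert p (insert x G)) = r (insert x G) := by
          rw [insert_comm]
          omega
        exact hH'.1.2.2 (fl_mem hH'.1.1 hC.hp (ins_mono hr (insert_subset hx hH'.2) h2))
    · rintro (hx | hx)
      · obtain ⟨H, hH'⟩ := hne
        exact ⟨H, hH', (mem_filter.mp hH').2 hx⟩
      · exact ⟨_, hH x hx.1 hx.2, subset_cl (insert_subset hx.1 hGE) (mem_insert_self _ _)⟩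
  rw [← hU]
  refine sunflower f hf G _ hne (fun H hH' => (mem_filter.mp hH').2) ?_
  intro H hH1 H' hH2 hne'
  apply subset_antisymm
  · intro e he
    by_contra heG
    refine hne' (subset_antisymm (hI H hH1 H' hH2 e he heG) (hI H' hH2 H hH1 e ?_ heG))
    rwa [inter_comm]
  · exact subset_inter (mem_filter.mp hH1).2 (mem_filter.mp hH2).2

end Pool.Agent.K7.H60.GGSUN
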