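import Pool.Agent.K7.H49.ML.Stm

/-!
# Project ML, job LA: duality and the fourth Schatten norm
-/

set_option autoImplicit false

open Finset

namespace Pool.Agent.K7.H60.ML

open Pool.Agent.K7.H49.ML

lemma cs {ι : Type*} (s : Finset ι) (f g : ι → ℂ) :
    ‖∑ i ∈ s, f i * g i‖ ^ 2 ≤ (∑ i ∈ s, ‖f i‖ ^ 2) * ∑ i ∈ s, ‖g i‖ ^ 2 := by
  have h1 : ‖∑ i ∈ s, f i * g i‖ ≤ ∑ i ∈ s, ‖f i‖ * ‖g i‖ :=
    (norm_sum_le _ _).trans (le_of_eq (Finset.sum_congr rfl fun i _ => norm_mul _ _))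
  calc ‖∑ i ∈ s, f i * g i‖ ^ 2 ≤ (∑ i ∈ s, ‖f i‖ * ‖g i‖) ^ 2 :=
        pow_le_pow_left₀ (norm_nonneg _) h1 2
    _ ≤ _ := Finset.sum_mul_sq_le_sq_mul_sq _ _ _

lemma sum_conj_mul {ι : Type*} (s : Finset ι) (y : ι → ℂ) :
    ∑ a ∈ s, (starRingEnd ℂ) (y a) * y a = ((∑ a ∈ s, ‖y a‖ ^ 2 : ℝ) : ℂ) := by
  push_cast
  exact Finset.sum_congr rfl fun a _ => Complex.conj_mul' _

lemma norm_ofReal_sum {ι : Type*} (s : Finset ι) (y : ι → ℂ) :
    ‖∑ a ∈ s, (starRingEnd ℂ) (y a) * y a‖ = ∑ a ∈ s, ‖y a‖ ^ 2 := by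
  rw [sum_conj_mul, Complex.norm_real, Real.norm_eq_abs,
    abs_of_nonneg (Finset.sum_nonneg fun _ _ => sq_nonneg _)]

theorem stLA : StLA := by
  classical
  intro α A I e he H hH hM b
  set y : α → ℂ := fun a => ∑ n ∈ I, b n * e a n with hy
  set S : ℝ := ∑ a ∈ A, ‖y a‖ ^ 2 with hS
  have hS0 : 0 ≤ S := Finset.sum_nonneg fun _ _ => sq_nonneg _
  set t : ℕ → ℂ := fun n => ∑ a ∈ A, (starRingEnd ℂ) (y a) * e a n with ht
  set B : ℝ := ∑ n ∈ I, ‖b n‖ ^ 2 with hB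
  have hB0 : 0 ≤ B := Finset.sum_nonneg fun _ _ => sq_nonneg _
  -- duality
  have h1 : S ^ 2 ≤ B * ∑ n ∈ I, ‖t n‖ ^ 2 := by
    have h : ∑ a ∈ A, (starRingEnd ℂ) (y a) * y a = ∑ n ∈ I, b n * t n := by
      calc ∑ a ∈ A, (starRingEnd ℂ) (y a) * y a
          = ∑ a ∈ A, ∑ n ∈ I, b n * ((starRingEnd ℂ) (y a) * e a n) := by
            refine Finset.sum_congr rfl fun a _ => ?_
            conv_lhs => rw [show y a = ∑ n ∈ I, b n * e a n from rfl]
            rw [Finset.mul_sum]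
            exact Finset.sum_congr rfl fun n _ => by ring
        _ = ∑ n ∈ I, ∑ a ∈ A, b n * ((starRingEnd ℂ) (y a) * e a n) := Finset.sum_comm
        _ = _ := Finset.sum_congr rfl fun n _ => by rw [ht, Finset.mul_sum]
    rw [hS, ← norm_ofReal_sum, h]
    exact cs _ _ _
  -- the quadratic form
  set z : α → ℂ := fun a => ∑ c ∈ A, M I e a c * y c with hz
  set q : ℂ := ∑ a ∈ A, (starRingEnd ℂ) (y a) * z a with hq
  have hG : ∀ a c : α, ∑ n ∈ I, e a n * (starRingEnd ℂ) (e c n) =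
      (if a = c then (I.card : ℂ) else 0) + M I e a c := by
    intro a c
    unfold M
    split_ifs with hac
    · subst hac
      have : ∀ n ∈ I, e a n * (starRingEnd ℂ) (e a n) = 1 := by
        intro n _
        rw [Complex.mul_conj', he]; simp
      rw [Finset.sum_congr rfl this]; simp
    · simp
  have h2 : ((∑ n ∈ I, ‖t n‖ ^ 2 : ℝ) : ℂ) = (I.card : ℂ) * (S : ℂ) + q := by
    have h3 : ∀ n ∈ I, ((‖t n‖ ^ 2 : ℝ) : ℂ) = ∑ a ∈ A, ∑ c ∈ A,
        ((starRingEnd ℂ) (y a) * y c) * (e a n * (starRingEnd ℂ) (e c n)) := by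
      intro n _
      push_cast
      rw [← Complex.mul_conj']
      simp only [ht, map_sum, map_mul, Complex.conj_conj]
      rw [Finset.sum_mul_sum]
      refine Finset.sum_congr rfl fun a _ => Finset.sum_congr rfl fun c _ => by ring
    rw [Complex.ofReal_sum, Finset.sum_congr rfl h3, Finset.sum_comm]
    have h4 : ∀ a ∈ A, ∑ n ∈ I, ∑ c ∈ A,
        ((starRingEnd ℂ) (y a) * y c) * (e a n * (starRingEnd ℂ) (e c n)) =
        (I.card : ℂ) * ((starRingEnd ℂ) (y a) * y a) + (starRingEnd ℂ) (y a) * z a := by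
      intro a ha
      rw [Finset.sum_comm]
      simp only [← Finset.mul_sum, hG]
      simp only [mul_add, Finset.sum_add_distrib]
      congr 1
      · rw [Finset.sum_eq_single a]
        · simp; ring
        · intro c _ hc
          rw [if_neg (Ne.symm hc)]; simp
        · exact fun h => absurd ha h
      · rw [hz, Finset.mul_sum]
        exact Finset.sum_congr rfl fun c _ => by ring
    rw [Finset.sum_congr rfl h4, Finset.sum_add_distrib, ← Finset.mul_sum, sum_conj_mul]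
  have h2' : ∑ n ∈ I, ‖t n‖ ^ 2 ≤ (I.card : ℝ) * S + ‖q‖ := by
    have h3 := congrArg Complex.re h2
    rw [Complex.ofReal_re, Complex.add_re] at h3
    have h4 : ((I.card : ℂ) * (S : ℂ)).re = (I.card : ℝ) * S := by
      rw [← Complex.ofReal_natCast, ← Complex.ofReal_mul, Complex.ofReal_re]
    rw [h3, h4]
    linarith [Complex.re_le_norm q]
  -- the bound for the quadratic form
  set Z : ℝ := ∑ a ∈ A, ‖z a‖ ^ 2 with hZ
  have hZ0 : 0 ≤ Z := Finset.sum_nonneg fun _ _ => sq_nonneg _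
  have hqZ : ‖q‖ ^ 2 ≤ S * Z := by
    have := cs A (fun a => (starRingEnd ℂ) (y a)) z
    simp only [RCLike.norm_conj] at this
    exact this
  set w : α → ℂ := fun a => ∑ c ∈ A, (∑ d ∈ A, M I e a d * M I e d c) * y c with hw
  have hMh : ∀ a c : α, (starRingEnd ℂ) (M I e a c) = M I e c a := by
    intro a c
    unfold M
    by_cases hac : a = c
    · subst hac; simp
    · rw [if_neg hac, if_neg (Ne.symm hac), map_sum]
      refine Finset.sum_congr rfl fun n _ => ?_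
      rw [map_mul, Complex.conj_conj, mul_comm]
  have hZw : ((Z : ℝ) : ℂ) = ∑ a ∈ A, (starRingEnd ℂ) (y a) * w a := by
    rw [hZ, ← sum_conj_mul]
    calc ∑ a ∈ A, (starRingEnd ℂ) (z a) * z a
        = ∑ a ∈ A, ∑ c ∈ A, (starRingEnd ℂ) (y c) * (M I e c a * z a) := by
          refine Finset.sum_congr rfl fun a _ => ?_
          conv_lhs => rw [show (starRingEnd ℂ) (z a) = ∑ c ∈ A, M I e c a * (starRingEnd ℂ) (y c) by
            simp only [hz, map_sum, map_mul, hMh]]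
          rw [Finset.sum_mul]
          exact Finset.sum_congr rfl fun c _ => by ring
      _ = ∑ c ∈ A, ∑ a ∈ A, (starRingEnd ℂ) (y c) * (M I e c a * z a) := Finset.sum_comm
      _ = _ := by
          refine Finset.sum_congr rfl fun c _ => ?_
          rw [← Finset.mul_sum]
          congr 1
          simp only [hz, hw, Finset.mul_sum, Finset.sum_mul]
          rw [Finset.sum_comm]
          exact Finset.sum_congr rfl fun a _ => Finset.sum_congr rfl fun d _ => by ring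
  have hZW : Z ^ 2 ≤ S * ∑ a ∈ A, ‖w a‖ ^ 2 := by
    have h3 := cs A (fun a => (starRingEnd ℂ) (y a)) w
    simp only [RCLike.norm_conj] at h3
    rw [← hZw, Complex.norm_real, Real.norm_eq_abs, sq_abs] at h3
    exact h3
  have hW : ∑ a ∈ A, ‖w a‖ ^ 2 ≤ H ^ 4 * S := by
    calc ∑ a ∈ A, ‖w a‖ ^ 2
        ≤ ∑ a ∈ A, (∑ c ∈ A, ‖∑ d ∈ A, M I e a d * M I e d c‖ ^ 2) * S :=
          Finset.sum_le_sum fun a _ => cs _ _ _
      _ = (∑ a ∈ A, ∑ c ∈ A, ‖∑ d ∈ A, M I e a d * M I e d c‖ ^ 2) * S := by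
          rw [Finset.sum_mul]
      _ ≤ H ^ 4 * S := mul_le_mul_of_nonneg_right hM hS0
  have hZ2 : Z ≤ H ^ 2 * S := by
    have h3 : Z ^ 2 ≤ (H ^ 2 * S) ^ 2 := by
      calc Z ^ 2 ≤ S * (H ^ 4 * S) := hZW.trans (mul_le_mul_of_nonneg_left hW hS0)
        _ = _ := by ring
    exact (abs_le_of_sq_le_sq' h3 (by positivity)).2
  have hqH : ‖q‖ ≤ H * S := by
    have h3 : ‖q‖ ^ 2 ≤ (H * S) ^ 2 := by
      calc ‖q‖ ^ 2 ≤ S * (H ^ 2 * S) := hqZ.trans (mul_le_mul_of_nonneg_left hZ2 hS0)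
        _ = _ := by ring
    exact (abs_le_of_sq_le_sq' h3 (by positivity)).2
  have hfin : S ^ 2 ≤ (((I.card : ℝ) + H) * B) * S := by
    calc S ^ 2 ≤ B * ((I.card : ℝ) * S + H * S) :=
          h1.trans (mul_le_mul_of_nonneg_left (by linarith) hB0)
      _ = _ := by ring
  rcases eq_or_lt_of_le hS0 with h0 | h0
  · change S ≤ _
    rw [← h0]
    positivity
  · change S ≤ _
    rw [sq] at hfin
    exact le_of_mul_le_mul_right hfin h0

end Pool.Agent.K7.H60.ML
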