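import Pool.Agent.K7.H50.OG.Defs

set_option autoImplicit false

/-!
# Project OG (MP_23a060_co), job SUF: double stars are 3-good
-/

open Finset

namespace Pool.Agent.K7.H60.OG

open Pool.Agent.K7.H50.OG

/-- an increasing sequence in a finite set -/
theorem seq (A : Finset ℕ) (n : ℕ) (h : n ≤ A.card) :
    ∃ g : ℕ → ℕ, (∀ i, i < n → g i ∈ A) ∧ ∀ i j, i < j → j < n → g i < g j := by
  classical
  obtain ⟨B, hB, hc⟩ := Finset.exists_subset_card_eq h
  refine ⟨fun i => if hi : i < n then B.orderEmbOfFin hc ⟨i, hi⟩ else 0, fun i hi => ?_,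
    fun i j hij hj => ?_⟩
  · simp only [hi, dif_pos]
    exact hB (Finset.orderEmbOfFin_mem _ _ _)
  · have hi : i < n := by omega
    simp only [hi, hj, dif_pos]
    exact (B.orderEmbOfFin hc).strictMono (by simpa using hij)

/-- a red edge `x y` with many red neighbours of `y` below `x` and of `x` above `y` -/
theorem copy {k a N : ℕ} {R : Gr} (ha : 1 ≤ a) (hak : a < k) {x y : ℕ} (hx : 1 ≤ x) (hxy : x < y)
    (hy : y ≤ N) (hR : R x y) (A B : Finset ℕ) (hA : ∀ z ∈ A, 1 ≤ z ∧ z < x ∧ R z y)
    (hB : ∀ z ∈ B, y < z ∧ z ≤ N ∧ R x z) (hAc : a - 1 ≤ A.card) (hBc : k - a - 1 ≤ B.card) :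
    Cop k N (DD a) R := by
  obtain ⟨g, hg1, hg2⟩ := seq A _ hAc
  obtain ⟨h, hh1, hh2⟩ := seq B _ hBc
  have g1 : ∀ i, 1 ≤ i → i < a → 1 ≤ g (i - 1) ∧ g (i - 1) < x ∧ R (g (i - 1)) y :=
    fun i h1 h2 => hA _ (hg1 _ (by omega))
  have h1 : ∀ i, a + 1 < i → i ≤ k → y < h (i - a - 2) ∧ h (i - a - 2) ≤ N ∧
      R x (h (i - a - 2)) := fun i h1 h2 => hB _ (hh1 _ (by omega))
  refine ⟨fun i => if i < a then g (i - 1) else if i = a then x else if i = a + 1 then y
    else h (i - a - 2), ?_, ?_, ?_⟩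
  · intro i hi hik
    simp only
    split_ifs with c1 c2 c3
    · have := g1 i hi c1; omega
    · omega
    · omega
    · have := h1 i (by omega) hik; omega
  · intro i j hi hij hj
    simp only
    split_ifs with c1 c2 c3 c4 c5 c6 c7 c8 c9 c10
    all_goals try omega
    · exact hg2 _ _ (by omega) (by omega)
    · exact (g1 i hi c1).2.1
    · have := g1 i hi c1; omega
    · have := g1 i hi c1; have := h1 j (by omega) hj; omega
    · have := h1 j (by omega) hj; omega
    · have := h1 j (by omega) hj; omega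
    · exact hh2 _ _ (by omega) (by omega)
  · intro i j hi hij hj hE
    simp only
    rcases hE with ⟨rfl, h2⟩ | ⟨rfl, h2⟩
    · rcases Nat.lt_or_ge i a with c | c
      · rw [if_pos c, if_neg (by omega), if_neg (by omega), if_pos rfl]
        exact (g1 i hi c).2.2
      · have : i = a := by omega
        subst this
        rw [if_neg (by omega), if_pos rfl, if_neg (by omega), if_neg (by omega), if_pos rfl]
        exact hR
    · rw [if_neg (by omega), if_pos rfl, if_neg (by omega), if_neg (by omega)]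
      split_ifs with c
      · exact hR
      · exact (h1 j (by omega) hj).2.2

/-- a large red clique contains the double star -/
theorem clique_copy {k a N : ℕ} {R : Gr} (ha : 1 ≤ a) (hak : a < k) (C : Finset ℕ)
    (hC : ∀ z ∈ C, 1 ≤ z ∧ z ≤ N) (hcl : ∀ u ∈ C, ∀ v ∈ C, u < v → R u v) (hc : k ≤ C.card) :
    Cop k N (DD a) R := by
  classical
  obtain ⟨g, hg1, hg2⟩ := seq C _ hc
  have hinj : ∀ s : Finset ℕ, (∀ i ∈ s, i < k) → (s.image g).card = s.card := by
    intro s hs
    apply Finset.card_image_of_injOn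
    intro i hi j hj hij
    by_contra hne
    rcases Nat.lt_or_gt_of_ne hne with c | c
    · exact absurd hij (hg2 _ _ c (hs j hj)).ne
    · exact absurd hij (hg2 _ _ c (hs i hi)).ne'
  apply copy ha hak (x := g (a - 1)) (y := g a) (hC _ (hg1 _ (by omega))).1
    (hg2 _ _ (by omega) (by omega)) (hC _ (hg1 _ (by omega))).2
    (hcl _ (hg1 _ (by omega)) _ (hg1 _ (by omega)) (hg2 _ _ (by omega) (by omega)))
    ((Finset.range (a - 1)).image g) ((Finset.Ioo a k).image g)
  · intro z hz
    obtain ⟨i, hi, rfl⟩ := Finset.mem_image.1 hz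
    rw [Finset.mem_range] at hi
    exact ⟨(hC _ (hg1 _ (by omega))).1, hg2 _ _ (by omega) (by omega),
      hcl _ (hg1 _ (by omega)) _ (hg1 _ (by omega)) (hg2 _ _ (by omega) (by omega))⟩
  · intro z hz
    obtain ⟨i, hi, rfl⟩ := Finset.mem_image.1 hz
    rw [Finset.mem_Ioo] at hi
    exact ⟨hg2 _ _ (by omega) (by omega), (hC _ (hg1 _ (by omega))).2,
      hcl _ (hg1 _ (by omega)) _ (hg1 _ (by omega)) (hg2 _ _ (by omega) (by omega))⟩
  · rw [hinj _ (fun i hi => by rw [Finset.mem_range] at hi; omega), Finset.card_range]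
  · rw [hinj _ (fun i hi => by rw [Finset.mem_Ioo] at hi; omega), Nat.card_Ioo]

theorem stSuf : StSuf := by
  classical
  intro k a ha hak R
  by_contra hcon
  rw [not_or] at hcon
  obtain ⟨hCop, hBlu⟩ := hcon
  obtain ⟨al, hal⟩ : ∃ al, a = al + 1 := ⟨a - 1, by omega⟩
  obtain ⟨be, hbe⟩ : ∃ be, k = a + be + 1 := ⟨k - a - 1, by omega⟩
  set N : ℕ := (3 - 1) * (k - 1) + 1 with hN
  have hN' : N = 2 * al + 2 * be + 3 := by omega
  -- no double star
  have hD : ∀ x y, 1 ≤ x → x < y → y ≤ N → R x y → ∀ A B : Finset ℕ,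
      (∀ z ∈ A, 1 ≤ z ∧ z < x ∧ R z y) → (∀ z ∈ B, y < z ∧ z ≤ N ∧ R x z) →
      al ≤ A.card → B.card < be := by
    intro x y hx hxy hy hR A B hA hB hAc
    by_contra hBc
    exact hCop (copy ha hak hx hxy hy hR A B hA hB (by omega) (by omega))
  have hK : ∀ C : Finset ℕ, (∀ z ∈ C, 1 ≤ z ∧ z ≤ N) → (∀ u ∈ C, ∀ v ∈ C, u < v → R u v) →
      C.card ≤ al + be + 1 := by
    intro C hC hcl
    by_contra hc
    exact hCop (clique_copy ha hak C hC hcl (by omega))
  -- no blue triangle
  have hT : ∀ u v w, 1 ≤ u → u < v → v < w → w ≤ N → ¬ R u v → ¬ R u w → R v w := by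
    intro u v w hu huv hvw hw h1 h2
    by_contra h3
    apply hBlu
    refine ⟨fun i => if i ≤ 1 then u else if i = 2 then v else w, ?_, ?_⟩
    · intro i hi hi3
      simp only
      split_ifs <;> omega
    · intro i j hi hij hj
      have hc : (i = 1 ∧ j = 2) ∨ (i = 1 ∧ j = 3) ∨ (i = 2 ∧ j = 3) := by omega
      rcases hc with ⟨rfl, rfl⟩ | ⟨rfl, rfl⟩ | ⟨rfl, rfl⟩
      · simpa using ⟨huv, h1⟩
      · simpa using ⟨huv.trans hvw, h2⟩
      · simpa using ⟨hvw, h3⟩
  have hT2 : ∀ u v w, 1 ≤ u → u < v → v < w → w ≤ N → ¬ R u w → ¬ R v w → R u v := by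
    intro u v w hu huv hvw hw h1 h2
    by_contra h3
    exact h2 (hT u v w hu huv hvw hw h3 h1)
  have hT3 : ∀ u v w, 1 ≤ u → u < v → v < w → w ≤ N → ¬ R u v → ¬ R v w → R u w := by
    intro u v w hu huv hvw hw h1 h2
    by_contra h3
    exact h2 (hT u v w hu huv hvw hw h1 h3)
  -- degrees
  let gr : ℕ → ℕ := fun v => ((Ioc v N).filter (fun z => R v z)).card
  let fl : ℕ → ℕ := fun v => ((Ico 1 v).filter (fun z => R z v)).card
  have hgr : ∀ v, v ≤ N → ((Ioc v N).filter (fun z => ¬ R v z)).card + gr v = N - v := by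
    intro v _
    have := Finset.card_filter_add_card_filter_not (s := Ioc v N) (fun z => R v z)
    rw [Nat.card_Ioc] at this
    simp only [gr]; omega
  have hfl : ∀ v, ((Ico 1 v).filter (fun z => ¬ R z v)).card + fl v = v - 1 := by
    intro v
    have := Finset.card_filter_add_card_filter_not (s := Ico 1 v) (fun z => R z v)
    rw [Nat.card_Ico] at this
    simp only [fl]; omega
  have hdeg : ∀ v, 1 ≤ v → v ≤ N → al + be + 1 ≤ fl v + gr v := by
    intro v hv hvN
    have hdis : Disjoint ((Ico 1 v).filter (fun z => ¬ R z v))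
        ((Ioc v N).filter (fun z => ¬ R v z)) := by
      rw [Finset.disjoint_left]
      intro z h1 h2
      simp only [mem_filter, mem_Ico, mem_Ioc] at h1 h2
      omega
    have h1 := hK (((Ico 1 v).filter (fun z => ¬ R z v)) ∪ ((Ioc v N).filter (fun z => ¬ R v z)))
      (by
        intro z hz
        simp only [mem_union, mem_filter, mem_Ico, mem_Ioc] at hz
        omega)
      (by
        intro u hu w hw huw
        simp only [mem_union, mem_filter, mem_Ico, mem_Ioc] at hu hw
        rcases hu with ⟨hu, hu'⟩ | ⟨hu, hu'⟩ <;> rcases hw with ⟨hw, hw'⟩ | ⟨hw, hw'⟩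
        · exact hT2 u w v (by omega) huw (by omega) hvN hu' hw'
        · exact hT3 u v w (by omega) (by omega) (by omega) (by omega) hu' hw'
        · omega
        · exact hT v u w hv (by omega) huw (by omega) hu' hw')
    rw [Finset.card_union_of_disjoint hdis] at h1
    have h2 := hgr v hvN
    have h3 := hfl v
    omega
  -- the last vertex with many red neighbours to the right
  set P : Finset ℕ := (Icc 1 N).filter (fun v => be + 1 ≤ gr v) with hP
  have hPne : P.Nonempty := by
    refine ⟨1, ?_⟩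
    rw [hP, mem_filter, mem_Icc]
    refine ⟨by omega, ?_⟩
    have h1 := hdeg 1 le_rfl (by omega)
    have h2 := hfl 1
    omega
  obtain ⟨p, hpP, hpmax⟩ : ∃ p ∈ P, ∀ v ∈ P, v ≤ p := ⟨P.max' hPne, P.max'_mem hPne,
    fun v hv => P.le_max' v hv⟩
  rw [hP, mem_filter, mem_Icc] at hpP
  obtain ⟨⟨hp1, hpN⟩, hpg⟩ := hpP
  have hafter : ∀ v, p < v → v ≤ N → gr v ≤ be := by
    intro v hv hvN
    by_contra hc
    have := hpmax v (by rw [hP, mem_filter, mem_Icc]; omega)
    omega
  have hpN' : p < N := by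
    have := hgr p hpN
    omega
  have hC2 : ∀ C : Finset ℕ, (∀ z ∈ C, p < z ∧ z ≤ N) → (∀ u ∈ C, ∀ v ∈ C, u < v → R u v) →
      C.card ≤ be + 1 := by
    intro C hC hcl
    rcases C.eq_empty_or_nonempty with h0 | h0
    · rw [h0]; simp
    · have hmin := C.min'_mem h0
      have h1 : (C.erase (C.min' h0)) ⊆ (Ioc (C.min' h0) N).filter (fun z => R (C.min' h0) z) := by
        intro z hz
        rw [Finset.mem_erase] at hz
        have h2 : C.min' h0 < z := lt_of_le_of_ne (C.min'_le z hz.2) (Ne.symm hz.1)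
        rw [mem_filter, mem_Ioc]
        exact ⟨⟨h2, (hC z hz.2).2⟩, hcl _ hmin _ hz.2 h2⟩
      have h2 := Finset.card_le_card h1
      rw [Finset.card_erase_of_mem hmin] at h2
      have h3 := hafter _ (hC _ hmin).1 (hC _ hmin).2
      simp only [gr] at h3
      omega
  -- step 1
  have hp2 : 2 * al + 2 ≤ p := by
    set X : Finset ℕ := (Ico 1 (p + 1)).filter (fun z => R z (p + 1)) with hX
    have h1 := hdeg (p + 1) (by omega) (by omega)
    have h2 := hafter (p + 1) (by omega) (by omega)
    have hXc : al + 1 ≤ X.card := by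
      have : fl (p + 1) = X.card := rfl
      omega
    have hXne : X.Nonempty := Finset.card_pos.1 (by omega)
    have hxm := X.max'_mem hXne
    set x := X.max' hXne with hx
    rw [hX, mem_filter, mem_Ico] at hxm
    set B : Finset ℕ := (Ioc (p + 1) N).filter (fun z => R x z) with hB
    have h3 := hD x (p + 1) hxm.1.1 hxm.1.2 (by omega) hxm.2 (X.erase x) B
      (by
        intro z hz
        rw [Finset.mem_erase] at hz
        have h4 : z < x := lt_of_le_of_ne (X.le_max' z hz.2) hz.1
        have h5 := hz.2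
        rw [hX, mem_filter, mem_Ico] at h5
        exact ⟨h5.1.1, h4, h5.2⟩)
      (by
        intro z hz
        rw [hB, mem_filter, mem_Ioc] at hz
        exact ⟨hz.1.1, hz.1.2, hz.2⟩)
      (by
        rw [Finset.card_erase_of_mem (X.max'_mem hXne)]
        omega)
    have h4 := hC2 ((Ioc (p + 1) N).filter (fun z => ¬ R x z))
      (by
        intro z hz
        rw [mem_filter, mem_Ioc] at hz
        omega)
      (by
        intro u hu w hw huw
        rw [mem_filter, mem_Ioc] at hu hw
        exact hT x u w hxm.1.1 (by omega) huw (by omega) hu.2 hw.2)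
    have h5 := Finset.card_filter_add_card_filter_not (s := Ioc (p + 1) N) (fun z => R x z)
    rw [Nat.card_Ioc] at h5
    have h6 : B.card = ((Ioc (p + 1) N).filter (fun z => R x z)).card := rfl
    omega
  -- step 2
  set Y : Finset ℕ := (Ioc p N).filter (fun z => R p z) with hY
  have hYc : be + 1 ≤ Y.card := hpg
  have hYne : Y.Nonempty := Finset.card_pos.1 (by omega)
  have hym := Y.min'_mem hYne
  set y := Y.min' hYne with hy
  rw [hY, mem_filter, mem_Ioc] at hym
  obtain ⟨⟨hpy, hyN⟩, hRpy⟩ := hym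
  set M : Finset ℕ := (Ico 1 p).filter (fun z => R z y) with hM
  have hMc : M.card < al := by
    by_contra hc
    have h3 := hD p y hp1 hpy hyN hRpy M (Y.erase y)
      (by
        intro z hz
        rw [hM, mem_filter, mem_Ico] at hz
        exact ⟨hz.1.1, hz.1.2, hz.2⟩)
      (by
        intro z hz
        rw [Finset.mem_erase] at hz
        have h4 : y < z := lt_of_le_of_ne (Y.min'_le z hz.2) (Ne.symm hz.1)
        have h5 := hz.2
        rw [hY, mem_filter, mem_Ioc] at h5
        exact ⟨h4, h5.1.2, h5.2⟩)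
      (by omega)
    rw [Finset.card_erase_of_mem (Y.min'_mem hYne)] at h3
    omega
  set K : Finset ℕ := (Ico 1 p).filter (fun z => ¬ R z y) with hKdef
  have hKc : K.card + M.card = p - 1 := by
    have := Finset.card_filter_add_card_filter_not (s := Ico 1 p) (fun z => R z y)
    rw [Nat.card_Ico] at this
    simp only [hKdef, hM]
    omega
  have hKcl : ∀ u ∈ K, ∀ v ∈ K, u < v → R u v := by
    intro u hu v hv huv
    rw [hKdef, mem_filter, mem_Ico] at hu hv
    exact hT2 u v y hu.1.1 huv (by omega) hyN hu.2 hv.2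
  have hKmem : ∀ z ∈ K, 1 ≤ z ∧ z < p := by
    intro z hz
    rw [hKdef, mem_filter, mem_Ico] at hz
    exact hz.1
  -- the element with exactly `al + 1` smaller elements
  obtain ⟨k1, hk1K, hk1c, hk1min⟩ : ∃ k1 ∈ K, al + 1 ≤ (K.filter (· < k1)).card ∧
      ∀ t ∈ K, al + 1 ≤ (K.filter (· < t)).card → k1 ≤ t := by
    set W := K.filter (fun t => al + 1 ≤ (K.filter (· < t)).card) with hW
    have hKne : K.Nonempty := Finset.card_pos.1 (by omega)
    have hWne : W.Nonempty := by
      refine ⟨K.max' hKne, ?_⟩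
      rw [hW, mem_filter]
      refine ⟨K.max'_mem hKne, ?_⟩
      have h1 : K.erase (K.max' hKne) ⊆ K.filter (· < K.max' hKne) := by
        intro z hz
        rw [Finset.mem_erase] at hz
        rw [mem_filter]
        exact ⟨hz.2, lt_of_le_of_ne (K.le_max' z hz.2) hz.1⟩
      have h2 := Finset.card_le_card h1
      rw [Finset.card_erase_of_mem (K.max'_mem hKne)] at h2
      omega
    have h1 := Finset.mem_filter.1 (show W.min' hWne ∈
      K.filter (fun t => al + 1 ≤ (K.filter (· < t)).card) from W.min'_mem hWne)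
    exact ⟨W.min' hWne, h1.1, h1.2,
      fun t ht htc => W.min'_le t (Finset.mem_filter.2 ⟨ht, htc⟩)⟩
  set K1 : Finset ℕ := K.filter (· < k1) with hK1
  have hK1ne : K1.Nonempty := Finset.card_pos.1 (by omega)
  have hk0m := K1.max'_mem hK1ne
  set k0 := K1.max' hK1ne with hk0
  have hk0' : k0 ∈ K ∧ k0 < k1 := by
    rw [hK1, mem_filter] at hk0m
    exact hk0m
  have hK1c : K1.card = al + 1 := by
    have h1 : K1.erase k0 ⊆ K.filter (· < k0) := by
      intro z hz
      rw [Finset.mem_erase] at hz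
      rw [mem_filter]
      have h2 := hz.2
      rw [hK1, mem_filter] at h2
      exact ⟨h2.1, lt_of_le_of_ne (K1.le_max' z hz.2) hz.1⟩
    have h2 := Finset.card_le_card h1
    rw [Finset.card_erase_of_mem (K1.max'_mem hK1ne)] at h2
    by_contra hc
    have h3 := hk1min k0 hk0'.1 (by omega)
    omega
  have hk1p := hKmem k1 hk1K
  have hk0p := hKmem k0 hk0'.1
  have hB2 := hD k0 k1 hk0p.1 hk0'.2 (by omega) (hKcl _ hk0'.1 _ hk1K hk0'.2) (K1.erase k0)
    ((Ioc k1 N).filter (fun z => R k0 z))
    (by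
      intro z hz
      rw [Finset.mem_erase] at hz
      have h2 := hz.2
      rw [hK1, mem_filter] at h2
      exact ⟨(hKmem z h2.1).1, lt_of_le_of_ne (K1.le_max' z hz.2) hz.1,
        hKcl z h2.1 k1 hk1K h2.2⟩)
    (by
      intro z hz
      rw [mem_filter, mem_Ioc] at hz
      exact ⟨hz.1.1, hz.1.2, hz.2⟩)
    (by
      rw [Finset.card_erase_of_mem (K1.max'_mem hK1ne)]
      omega)
  set C' : Finset ℕ := (Ioc k1 N).filter (fun z => ¬ R k0 z) with hC'
  have hC'c := Finset.card_filter_add_card_filter_not (s := Ioc k1 N) (fun z => R k0 z)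
  rw [Nat.card_Ioc] at hC'c
  have hC'cl : ∀ u ∈ C', ∀ w ∈ C', u < w → R u w := by
    intro u hu w hw huw
    rw [hC', mem_filter, mem_Ioc] at hu hw
    exact hT k0 u w hk0p.1 (by omega) huw (by omega) hu.2 hw.2
  have hsub : C' ⊆ M.filter (k1 < ·) ∪ ({p} ∪ C'.filter (p < ·)) := by
    intro z hz
    have hz' := hz
    rw [hC', mem_filter, mem_Ioc] at hz'
    rcases Nat.lt_trichotomy z p with c | c | c
    · refine Finset.mem_union.2 (Or.inl (Finset.mem_filter.2 ⟨?_, hz'.1.1⟩))
      refine Finset.mem_filter.2 ⟨Finset.mem_Ico.2 (by omega), ?_⟩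
      by_contra hR
      have hzK : z ∈ K := Finset.mem_filter.2 ⟨Finset.mem_Ico.2 (by omega), hR⟩
      exact hz'.2 (hKcl _ hk0'.1 _ hzK (by omega))
    · exact Finset.mem_union.2 (Or.inr (Finset.mem_union.2 (Or.inl (Finset.mem_singleton.2 c))))
    · exact Finset.mem_union.2 (Or.inr (Finset.mem_union.2 (Or.inr (Finset.mem_filter.2 ⟨hz, c⟩))))
  have hc1 := (Finset.card_le_card hsub).trans (Finset.card_union_le _ _)
  have hc2 := Finset.card_union_le ({p} : Finset ℕ) (C'.filter (p < ·))
  rw [Finset.card_singleton] at hc2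
  have hc3 := hC2 (C'.filter (p < ·))
    (by
      intro z hz
      rw [mem_filter, hC', mem_filter, mem_Ioc] at hz
      exact ⟨hz.2, hz.1.1.2⟩)
    (by
      intro u hu w hw huw
      rw [mem_filter] at hu hw
      exact hC'cl u hu.1 w hw.1 huw)
  have hk1eq : K1.card + (M.filter (· < k1)).card = k1 - 1 := by
    have hdis : Disjoint K1 (M.filter (· < k1)) := by
      rw [Finset.disjoint_left]
      intro z h1 h2
      rw [hK1, mem_filter, hKdef, mem_filter] at h1
      rw [mem_filter, hM, mem_filter] at h2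
      exact h1.1.2 h2.1.2
    rw [← Finset.card_union_of_disjoint hdis, ← Nat.card_Ico 1 k1]
    congr 1
    ext z
    simp only [hK1, hKdef, hM, mem_union, mem_filter, mem_Ico]
    constructor
    · rintro (h | h) <;> omega
    · intro h
      by_cases hR : R z y
      · right; exact ⟨⟨by omega, hR⟩, h.2⟩
      · left; exact ⟨⟨by omega, hR⟩, h.2⟩
  have hMsum : (M.filter (· < k1)).card + (M.filter (k1 < ·)).card ≤ M.card := by
    have hdis : Disjoint (M.filter (· < k1)) (M.filter (k1 < ·)) := by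
      rw [Finset.disjoint_left]
      intro z h1 h2
      rw [mem_filter] at h1 h2
      omega
    rw [← Finset.card_union_of_disjoint hdis]
    apply Finset.card_le_card
    intro z hz
    rcases Finset.mem_union.1 hz with h | h
    · exact (Finset.mem_filter.1 h).1
    · exact (Finset.mem_filter.1 h).1
  have e1 : C'.card = ((Ioc k1 N).filter (fun z => ¬ R k0 z)).card := rfl
  omega

end Pool.Agent.K7.H60.OG
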