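import Pool.Agent.K7.H60.Eng

/-!
The correlation of the repelling weights attached to two disjoint sets of positions, with the same
families of divisors.
-/

set_option autoImplicit false

open Finset Pool.Agent.H410R2.AC Pool.Agent.H410R2.EN Pool.Agent.H400R2.AC4 Pool.Agent.H909R2.EN3

namespace Pool.Agent.K7.H60

variable {n : ℕ}

/-- the first half of the types sits in `B₁`, the second half in `B₂` -/
def Adm (n : ℕ) (B₁ B₂ : Finset ℕ) (σ : Fin (n + n) → Option ℕ) : Prop :=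
  (∀ i : Fin n, σ (Fin.castAdd n i) ∈ Finset.insertNone B₁) ∧
    ∀ i : Fin n, σ (Fin.natAdd n i) ∈ Finset.insertNone B₂

open Classical in
/-- the coefficient of pairs -/
noncomputable def c2 (n : ℕ) (B₁ B₂ : Finset ℕ) (σ : Fin (n + n) → Option ℕ) : ℝ :=
  if Adm n B₁ B₂ σ then 1 else 0

theorem mem_cfg {B : Finset ℕ} {σ : Fin n → Option ℕ} :
    σ ∈ cfg n B ↔ (∀ i, σ i ∈ Finset.insertNone B) ∧ Inj σ := by
  classical
  unfold cfg
  rw [Finset.mem_filter, Fintype.mem_piFinset]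

theorem append_mem {B₁ B₂ : Finset ℕ} (hd : Disjoint B₁ B₂) {σ σ' : Fin n → Option ℕ}
    (h : σ ∈ cfg n B₁) (h' : σ' ∈ cfg n B₂) :
    Fin.append σ σ' ∈ cfg (n + n) (B₁ ∪ B₂) ∧ Adm n B₁ B₂ (Fin.append σ σ') := by
  rw [mem_cfg] at h h'
  refine ⟨?_, ?_⟩
  · rw [mem_cfg]
    refine ⟨fun i => ?_, ?_⟩
    · refine Fin.addCases (fun i => ?_) (fun i => ?_) i
      · rw [Fin.append_left]
        cases hi : σ i with
        | none => exact Finset.none_mem_insertNone
        | some a =>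
          have := h.1 i
          rw [hi, Finset.some_mem_insertNone] at this
          rw [Finset.some_mem_insertNone]
          exact Finset.mem_union_left _ this
      · rw [Fin.append_right]
        cases hi : σ' i with
        | none => exact Finset.none_mem_insertNone
        | some a =>
          have := h'.1 i
          rw [hi, Finset.some_mem_insertNone] at this
          rw [Finset.some_mem_insertNone]
          exact Finset.mem_union_right _ this
    · have hA : ∀ i a, σ i = some a → a ∈ B₁ := by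
        intro i a hi
        have := h.1 i
        rwa [hi, Finset.some_mem_insertNone] at this
      have hA' : ∀ i a, σ' i = some a → a ∈ B₂ := by
        intro i a hi
        have := h'.1 i
        rwa [hi, Finset.some_mem_insertNone] at this
      intro τ τ' a
      refine Fin.addCases (fun i => ?_) (fun i => ?_) τ
      · refine Fin.addCases (fun j => ?_) (fun j => ?_) τ'
        · rw [Fin.append_left, Fin.append_left]
          intro h1 h2
          rw [h.2 i j a h1 h2]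
        · rw [Fin.append_left, Fin.append_right]
          intro h1 h2
          exact absurd (hA' _ _ h2) (Finset.disjoint_left.1 hd (hA _ _ h1))
      · refine Fin.addCases (fun j => ?_) (fun j => ?_) τ'
        · rw [Fin.append_left, Fin.append_right]
          intro h1 h2
          exact absurd (hA' _ _ h1) (Finset.disjoint_left.1 hd (hA _ _ h2))
        · rw [Fin.append_right, Fin.append_right]
          intro h1 h2
          rw [h'.2 i j a h1 h2]
  · refine ⟨fun i => ?_, fun i => ?_⟩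
    · rw [Fin.append_left]; exact h.1 i
    · rw [Fin.append_right]; exact h'.1 i

theorem sum_cfg_append {B₁ B₂ : Finset ℕ} (hd : Disjoint B₁ B₂)
    (f : (Fin (n + n) → Option ℕ) → ℝ) :
    ∑ σ ∈ cfg (n + n) (B₁ ∪ B₂), c2 n B₁ B₂ σ * f σ =
      ∑ σ ∈ cfg n B₁, ∑ σ' ∈ cfg n B₂, f (Fin.append σ σ') := by
  classical
  have h1 : ∑ σ ∈ cfg (n + n) (B₁ ∪ B₂), c2 n B₁ B₂ σ * f σ =
      ∑ σ ∈ (cfg (n + n) (B₁ ∪ B₂)).filter (fun σ => Adm n B₁ B₂ σ), f σ := by
    rw [Finset.sum_filter]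
    refine Finset.sum_congr rfl fun σ _ => ?_
    unfold c2
    split_ifs <;> simp
  rw [h1, ← Finset.sum_product']
  symm
  refine Finset.sum_bij (fun x _ => Fin.append x.1 x.2) ?_ ?_ ?_ ?_
  · rintro ⟨σ, σ'⟩ hx
    rw [Finset.mem_product] at hx
    rw [Finset.mem_filter]
    exact append_mem hd hx.1 hx.2
  · rintro ⟨a, b⟩ _ ⟨c, d⟩ _ h
    simp only at h
    have ha : a = c := by
      funext i
      have := congrFun h (Fin.castAdd n i)
      rwa [Fin.append_left, Fin.append_left] at this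
    have hb : b = d := by
      funext i
      have := congrFun h (Fin.natAdd n i)
      rwa [Fin.append_right, Fin.append_right] at this
    rw [ha, hb]
  · intro σ hσ
    rw [Finset.mem_filter, mem_cfg] at hσ
    obtain ⟨⟨h2, h3⟩, h4, h5⟩ := hσ
    refine ⟨(fun i => σ (Fin.castAdd n i), fun i => σ (Fin.natAdd n i)), ?_, ?_⟩
    · rw [Finset.mem_product, mem_cfg, mem_cfg]
      refine ⟨⟨h4, ?_⟩, h5, ?_⟩
      · intro i j a hi hj
        have := h3 _ _ a hi hj
        exact Fin.castAdd_injective _ _ this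
      · intro i j a hi hj
        have := h3 _ _ a hi hj
        exact Fin.natAdd_injective _ _ this
    · funext i
      refine Fin.addCases (fun i => ?_) (fun i => ?_) i
      · rw [Fin.append_left]
      · rw [Fin.append_right]
  · rintro ⟨σ, σ'⟩ _
    rfl

theorem term_append (x y : Fin n → ℕ → ℝ) (σ σ' : Fin n → Option ℕ) :
    term (Fin.append x y) (Fin.append σ σ') = term x σ * term y σ' := by
  unfold term
  rw [Fin.prod_univ_add]
  congr 1
  · refine Finset.prod_congr rfl fun i _ => ?_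
    rw [Fin.append_left, Fin.append_left]
  · refine Finset.prod_congr rfl fun i _ => ?_
    rw [Fin.append_right, Fin.append_right]

theorem occ_append (q : Fin n → ℝ) (σ σ' : Fin n → Option ℕ) :
    occ (Fin.append q q) (Fin.append σ σ') = occ q σ * occ q σ' := by
  unfold occ
  rw [Fin.prod_univ_add]
  congr 1
  · refine Finset.prod_congr rfl fun i _ => ?_
    rw [Fin.append_left, Fin.append_left]
  · refine Finset.prod_congr rfl fun i _ => ?_
    rw [Fin.append_right, Fin.append_right]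

theorem WW_append {B₁ B₂ : Finset ℕ} (hd : Disjoint B₁ B₂) (x : Fin n → ℕ → ℝ) :
    WW (B₁ ∪ B₂) (c2 n B₁ B₂) (Fin.append x x) =
      WW B₁ (fun _ => 1) x * WW B₂ (fun _ => 1) x := by
  unfold WW
  rw [sum_cfg_append hd (fun σ => term (Fin.append x x) σ), Finset.sum_mul_sum]
  refine Finset.sum_congr rfl fun σ _ => Finset.sum_congr rfl fun σ' _ => ?_
  rw [term_append]
  ring

theorem main_append {B₁ B₂ : Finset ℕ} (hd : Disjoint B₁ B₂) (q : Fin n → ℝ) :
    ∑ σ ∈ cfg (n + n) (B₁ ∪ B₂), c2 n B₁ B₂ σ ^ 2 * occ (Fin.append q q) σ =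
      (∑ σ ∈ cfg n B₁, occ q σ) * ∑ σ ∈ cfg n B₂, occ q σ := by
  have h1 : ∀ σ, c2 n B₁ B₂ σ ^ 2 = c2 n B₁ B₂ σ := by
    intro σ
    unfold c2
    split_ifs <;> simp
  simp only [h1]
  rw [sum_cfg_append hd (fun σ => occ (Fin.append q q) σ), Finset.sum_mul_sum]
  refine Finset.sum_congr rfl fun σ _ => Finset.sum_congr rfl fun σ' _ => ?_
  rw [occ_append]

theorem xx_append (ρ : ℕ → ℕ → ℕ) (P1 : Finset ℕ) (S : Fin n → Finset (Finset ℕ))
    (g : Fin n → ℝ) (m : ℕ) :
    xx ρ P1 (Fin.append S S) (Fin.append g g) m =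
      Fin.append (xx ρ P1 S g m) (xx ρ P1 S g m) := by
  funext τ a
  refine Fin.addCases (fun i => ?_) (fun i => ?_) τ
  · simp only [xx, Fin.append_left]
  · simp only [xx, Fin.append_right]

theorem adm_disj {B₁ B₂ : Finset ℕ} (hd : Disjoint B₁ B₂) {S : Fin n → Finset (Finset ℕ)}
    (hSd : ∀ τ τ', τ ≠ τ' → Disjoint (S τ) (S τ')) (σ σ' : Fin (n + n) → Option ℕ)
    (h : c2 n B₁ B₂ σ ≠ 0) (h' : c2 n B₁ B₂ σ' ≠ 0) (τ τ' : Fin (n + n)) (a : ℕ)
    (h1 : σ τ = some a) (h2 : σ' τ' = some a) (hne : τ ≠ τ') :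
    Disjoint (Fin.append S S τ) (Fin.append S S τ') := by
  have hA : Adm n B₁ B₂ σ := by
    by_contra hcon
    apply h
    unfold c2
    rw [if_neg hcon]
  have hA' : Adm n B₁ B₂ σ' := by
    by_contra hcon
    apply h'
    unfold c2
    rw [if_neg hcon]
  have hL : ∀ (ς : Fin (n + n) → Option ℕ), Adm n B₁ B₂ ς → ∀ i : Fin n,
      ς (Fin.castAdd n i) = some a → a ∈ B₁ := by
    intro ς hς i hi
    have := hς.1 i
    rwa [hi, Finset.some_mem_insertNone] at this
  have hR : ∀ (ς : Fin (n + n) → Option ℕ), Adm n B₁ B₂ ς → ∀ i : Fin n,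
      ς (Fin.natAdd n i) = some a → a ∈ B₂ := by
    intro ς hς i hi
    have := hς.2 i
    rwa [hi, Finset.some_mem_insertNone] at this
  revert h1 h2 hne
  refine Fin.addCases (fun i => ?_) (fun i => ?_) τ
  · refine Fin.addCases (fun j => ?_) (fun j => ?_) τ'
    · intro h1 h2 hne
      rw [Fin.append_left, Fin.append_left]
      apply hSd
      rintro rfl
      exact hne rfl
    · intro h1 h2 _
      exact absurd (hR _ hA' _ h2) (Finset.disjoint_left.1 hd (hL _ hA _ h1))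
  · refine Fin.addCases (fun j => ?_) (fun j => ?_) τ'
    · intro h1 h2 _
      exact absurd (hR _ hA _ h1) (Finset.disjoint_left.1 hd (hL _ hA' _ h2))
    · intro h1 h2 hne
      rw [Fin.append_right, Fin.append_right]
      apply hSd
      rintro rfl
      exact hne rfl

/-- the correlation for two disjoint sets of positions -/
def PairW : Prop := ∀ (n : ℕ) (C : ℝ), 1 ≤ C → ∃ K : ℕ, 1 ≤ K ∧
  ∀ (b J z0 D0 : ℕ) (P1 P2 B₁ B₂ : Finset ℕ) (ρ : ℕ → ℕ → ℕ) (κ : ℕ → ℕ → ℝ) (e : ℕ → ℕ)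
    (w : ℕ → ℝ) (M : ℕ) (A : ℝ) (err : Finset ℕ → ℝ) (S : Fin n → Finset (Finset ℕ))
    (g : Fin n → ℝ) (Y : Fin n → ℕ) (V δ : ℝ), Disjoint B₁ B₂ →
    Setup K b J z0 D0 P1 P2 (B₁ ∪ B₂) ρ κ e w M A err →
    (2 ^ 2 ^ J) ^ (K * b) * (∏ τ, Y τ) ^ 4 ≤ D0 → 0 < V → V ≤ 1 → δ ≤ 1 →
    Pi1 P2 ≤ C / V → ((B₁ ∪ B₂).card : ℝ) * V1 P1 ≤ C / V → (∀ τ, 0 ≤ g τ ∧ g τ ≤ C) →
    (∀ τ, ∀ R ∈ S τ, R ⊆ P2) → (∀ τ, ∅ ∉ S τ) → (∀ τ τ', τ ≠ τ' → Disjoint (S τ) (S τ')) →
    (∀ U ⊆ B₁ ∪ B₂, U.card ≤ 4 * n + 2 → dl e ρ (P1 ∪ P2) U ≤ δ) →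
    (∀ τ, 1 ≤ Y τ ∧ ∀ R ∈ S τ, ∏ p ∈ R, p ≤ Y τ) →
      |∑ m ∈ range M, w m * (WW B₁ (fun _ => 1) (xx ρ P1 S g m) *
          WW B₂ (fun _ => 1) (xx ρ P1 S g m)) ^ 2 -
        A * ((∑ σ ∈ cfg n B₁, occ (fun τ => g τ ^ 2 * (V1 P1 * GG (S τ))) σ) *
          ∑ σ ∈ cfg n B₂, occ (fun τ => g τ ^ 2 * (V1 P1 * GG (S τ))) σ)| ≤
      EF (n + n) K b J (B₁ ∪ B₂).card A V δ (ET K (P1 ∪ P2) D0 err)

theorem pairW_of : SecondG → PairW := by
  intro hG n C hC
  obtain ⟨K, hK, H⟩ := hG (n + n) C hC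
  refine ⟨K, hK, ?_⟩
  intro b J z0 D0 P1 P2 B₁ B₂ ρ κ e w M A err S g Y V δ hdj hset hD hV hV1 hδ1 hPi hB hg hSP hS0
    hSd hdel hY
  have hall : ∀ {α : Type} (f : Fin n → α) (Q : α → Prop), (∀ i, Q (f i)) →
      ∀ i, Q (Fin.append f f i) := by
    intro α f Q hf i
    refine Fin.addCases (fun i => ?_) (fun i => ?_) i
    · rw [Fin.append_left]; exact hf i
    · rw [Fin.append_right]; exact hf i
  have hprod : ∏ τ, Fin.append Y Y τ = (∏ τ, Y τ) ^ 2 := by
    rw [Fin.prod_univ_add, sq]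
    congr 1
    · exact Finset.prod_congr rfl fun i _ => by rw [Fin.append_left]
    · exact Finset.prod_congr rfl fun i _ => by rw [Fin.append_right]
  have h := H b J z0 D0 P1 P2 (B₁ ∪ B₂) ρ κ e w M A err (Fin.append S S) (Fin.append g g)
    (Fin.append Y Y) V δ hset (by
      rw [hprod]
      have h2 : ((∏ τ, Y τ) ^ 2) ^ 2 = (∏ τ, Y τ) ^ 4 := by ring
      rw [h2]
      exact hD) hV hV1 hδ1 hPi hB
    (hall g (fun x => 0 ≤ x ∧ x ≤ C) hg)
    (hall S (fun X => ∀ R ∈ X, R ⊆ P2) hSP)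
    (hall S (fun X => ∅ ∉ X) hS0)
    (fun U hU hc => hdel U hU (by omega))
    (fun τ => by
      refine Fin.addCases (fun i => ?_) (fun i => ?_) τ
      · rw [Fin.append_left, Fin.append_left]; exact hY i
      · rw [Fin.append_right, Fin.append_right]; exact hY i)
    (c2 n B₁ B₂)
    (fun σ => by
      unfold c2
      split_ifs <;> simp)
    (fun σ _ σ' _ h1 h2 τ τ' a h3 h4 h5 => adm_disj hdj hSd σ σ' h1 h2 τ τ' a h3 h4 h5)
  have hq : (fun τ => Fin.append g g τ ^ 2 * (V1 P1 * GG (Fin.append S S τ))) =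
      Fin.append (fun τ => g τ ^ 2 * (V1 P1 * GG (S τ)))
        (fun τ => g τ ^ 2 * (V1 P1 * GG (S τ))) := by
    funext τ
    refine Fin.addCases (fun i => ?_) (fun i => ?_) τ
    · simp only [Fin.append_left]
    · simp only [Fin.append_right]
  rw [hq, main_append hdj] at h
  simp only [xx_append, WW_append hdj] at h
  exact h

end Pool.Agent.K7.H60
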