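import Pool.Agent.K7.H60.PairNT

/-!
The correlation of the weights at `n` and at `n + h`: choice of the parameters.
-/

set_option autoImplicit false

open Finset Filter Topology

namespace Pool.Agent.K7.H60

open Pool.Agent.H361R2.PP
open Pool.Agent.H410R2
open Pool.Agent.H862R2.PPSm5

theorem smp_of : PairW → Sm1 → Sm2 → Sm3 → EqInt → Mer → Gbd → Wtx → Cnt → SMp := by
  intro hPair hSm1 hSm2 hSm3 hInt hMer hGbd hW hCnt
  intro t u Λ θ s hu hsum hθ hθ1 hΛ hs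
  obtain ⟨K, hK, h4⟩ := bodyP hPair t
  obtain ⟨Cm, hCm, hMer⟩ := hMer
  obtain ⟨Cg, hCg, hGbd⟩ := hGbd 1
  set M : ℕ := Cg + ⌈4 * Λ * Cm⌉₊ with hMdef
  have hM : 1 ≤ M := by omega
  have hMr : (1 : ℝ) ≤ M := by exact_mod_cast hM
  have hM0 : (0 : ℝ) < M := by linarith
  have hMC : 4 * Λ * Cm ≤ M := by
    rw [hMdef]
    push_cast
    have := Nat.le_ceil (4 * Λ * Cm)
    have h2 : (0 : ℝ) ≤ Cg := Nat.cast_nonneg Cg
    linarith
  obtain ⟨δ₀, hδ₀, hδ₀8, hδ⟩ := choose_delta K M θ (s / 3) ((1 : ℝ) ^ (2 * (t + t) + 2)) hK hM hθ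
    (by positivity) (by positivity)
  refine ⟨δ₀, hδ₀, fun δ hδ0 hδle => ?_⟩
  intro T hT
  obtain ⟨b, hKb, hδb, hb⟩ := hδ δ hδ0 hδle
  have hδ8 : δ ≤ 1 / 8 := hδle.trans hδ₀8
  have hδ1 : δ ≤ 1 := by linarith
  set V : ℝ := (δ / M) ^ M with hV
  have hV0 : 0 < V := by positivity
  have hV1 : V ≤ 1 := by
    apply pow_le_one₀ (by positivity)
    rw [div_le_one hM0]
    linarith
  have hVinv : 1 / V = ((M : ℝ) / δ) ^ M := by
    rw [hV, div_pow, div_pow]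
    field_simp
  obtain ⟨d, hd0, hd1, hd⟩ := choose_d K ((1 : ℝ) ^ (2 * (t + t) + 2) * (K / V ^ K)) (s / 3)
    (by positivity) (by positivity)
  obtain ⟨X₁, h1⟩ := hSm2 (4 * t + 2) (Λ + T) d (by positivity) hd0
  obtain ⟨X₂, h2⟩ := hMer δ hδ0 hδ1
  obtain ⟨X₃, h3⟩ := hGbd δ hδ0 hδ8
  obtain ⟨X₄, hw⟩ := hW.2 δ hδ0 hδ1
  obtain ⟨X₅, h5⟩ := hCnt 1 Λ Λ one_pos hΛ hΛ
  obtain ⟨X₆, h6⟩ := hInt K (4 * (t + t) + 6) θ hθ
  have hev : ∀ᶠ X : ℕ in atTop, (max K 2 ≤ HH X) ∧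
      (2 < (X : ℝ) ^ (δ / 2)) ∧
      (∀ (k J : ℕ), (k : ℝ) ≤ (2 * Λ) * Real.log X → (J : ℝ) + 2 ≤ 4 * Real.log X →
      1 ≤ Real.log X ∧
      (1 : ℝ) ^ (2 * (t + t) + 2) * (K / V ^ K) *
        (((k : ℝ) + 1) ^ (4 * (t + t) + 2) * (((J : ℝ) + 2) *
          (1 / Real.log X ^ (4 * (t + t) + 6)))) ≤
        (s / 3 * 1) / Real.log X) := by
    have e1 := HH_tendsto.eventually_ge_atTop (max K 2)
    have e3 : ∀ᶠ X : ℕ in atTop, 2 < (X : ℝ) ^ (δ / 2) :=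
      ((tendsto_rpow_atTop (by positivity : 0 < δ / 2)).comp
        tendsto_natCast_atTop_atTop).eventually_gt_atTop 2
    have e4 := absorb (t + t) (2 * Λ) ((1 : ℝ) ^ (2 * (t + t) + 2) * (K / V ^ K)) (s / 3 * 1)
      (by positivity) (by positivity) (by positivity)
    filter_upwards [e1, e3, e4] with X a1 a3 a4
    exact ⟨a1, a3, a4⟩
  obtain ⟨X₈, h8⟩ := Filter.eventually_atTop.1 hev
  refine ⟨max 16 (max X₁ (max X₂ (max X₃ (max X₄ (max X₅ (max X₆ X₈)))))), ?_⟩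
  intro X hX b0 hb0 D hcf B hB h hh hhT
  simp only [max_le_iff] at hX
  obtain ⟨hX16, hX1, hX2, hX3, hX4, hX5, hX6, hX8⟩ := hX
  obtain ⟨hHH, hrp, hab⟩ := h8 X hX8
  obtain ⟨hw1, hw2, hw3⟩ := hw X hX4
  obtain ⟨hVV0, hVVC, _⟩ := h2 X hX2
  have hXr : (16 : ℝ) ≤ X := by exact_mod_cast hX16
  have hL0 : 0 < Real.log X := Real.log_pos (by linarith)
  have hKH : K ≤ HH X := (le_max_left _ _).trans hHH
  have hJ : 1 ≤ JJ δ X := by
    by_contra h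
    have h0 : JJ δ X = 0 := by omega
    rw [h0] at hw2
    norm_num at hw2
    linarith
  have hJ4 : (JJ δ X : ℝ) + 2 ≤ 4 * Real.log X := JJ_le hδ1 hX16 hw1
  have hVVn := vv_nonneg δ X
  have hPi : ∏ p ∈ P2 (JJ δ X) X, (1 + (1 : ℝ) / ((p : ℝ) - 1)) ≤ 1 / V := by
    have h10 := h3 X hX3
    rw [Nat.cast_one] at h10
    refine h10.trans ?_
    rw [hVinv]
    have hCgr : (1 : ℝ) ≤ Cg := by exact_mod_cast hCg
    have h11 : (1 : ℝ) ≤ Cg / δ := by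
      rw [le_div_iff₀ hδ0]
      linarith
    have h12 : (Cg : ℝ) / δ ≤ M / δ := by
      apply div_le_div_of_nonneg_right _ hδ0.le
      rw [hMdef]
      push_cast
      have : (0 : ℝ) ≤ (⌈4 * Λ * Cm⌉₊ : ℝ) := Nat.cast_nonneg _
      linarith
    calc ((Cg : ℝ) / δ) ^ Cg ≤ ((Cg : ℝ) / δ) ^ M := pow_le_pow_right₀ h11 (by omega)
      _ ≤ ((M : ℝ) / δ) ^ M := pow_le_pow_left₀ (by positivity) h12 _
  have hBBc : ((BB X b0 ⌊Λ * Real.log X⌋₊).card : ℝ) ≤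
      2 * (Λ * Real.log X * (Nat.totient (Wm X) / Wm X)) := by
    have h10 := h5 X hX5 b0 0 (Λ * Real.log X) le_rfl (by linarith) le_rfl
    have h11 : (BB X b0 ⌊Λ * Real.log X⌋₊).filter
        (fun a : ℕ => (0 : ℝ) < a ∧ (a : ℝ) ≤ Λ * Real.log X) = BB X b0 ⌊Λ * Real.log X⌋₊ := by
      apply Finset.filter_true_of_mem
      intro a ha
      have h12 := Finset.mem_Icc.1 (Finset.mem_filter.1 ha).1
      refine ⟨by exact_mod_cast h12.1, (Nat.le_floor_iff (by positivity)).1 h12.2⟩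
    rw [h11, sub_zero, one_mul] at h10
    have h13 := (abs_le.1 h10).2
    linarith
  have hBV : 2 * ((BB X b0 ⌊Λ * Real.log X⌋₊).card : ℝ) * VV δ X ≤ 1 / V := by
    have h10 : 2 * ((BB X b0 ⌊Λ * Real.log X⌋₊).card : ℝ) * VV δ X ≤
        2 * (2 * (Λ * Real.log X * (Nat.totient (Wm X) / Wm X))) * VV δ X :=
      mul_le_mul_of_nonneg_right (mul_le_mul_of_nonneg_left hBBc (by norm_num)) hVVn
    have h11 : 2 * (2 * (Λ * Real.log X * (Nat.totient (Wm X) / Wm X))) * VV δ X =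
        4 * Λ / δ * (VV δ X * ((Nat.totient (Wm X) : ℝ) / Wm X) * (δ * Real.log X)) := by
      field_simp
      ring
    have h12 : 4 * Λ / δ * (VV δ X * ((Nat.totient (Wm X) : ℝ) / Wm X) * (δ * Real.log X)) ≤
        4 * Λ / δ * Cm := mul_le_mul_of_nonneg_left hVVC (by positivity)
    have h13 : 4 * Λ / δ * Cm ≤ M / δ := by
      rw [div_mul_eq_mul_div]
      exact div_le_div_of_nonneg_right hMC hδ0.le
    have h14 : (M : ℝ) / δ ≤ ((M : ℝ) / δ) ^ M := by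
      apply le_self_pow₀
      · rw [le_div_iff₀ hδ0]
        linarith
      · omega
    rw [hVinv]
    linarith
  have hcard : (((B ∪ B.image (fun a => a + h)).card : ℕ) : ℝ) ≤ (2 * Λ) * Real.log X := by
    have h10 : B.card ≤ ⌊Λ * Real.log X⌋₊ := by
      calc B.card ≤ (BB X b0 ⌊Λ * Real.log X⌋₊).card := Finset.card_le_card hB
        _ ≤ (Icc 1 ⌊Λ * Real.log X⌋₊).card := Finset.card_filter_le _ _
        _ = ⌊Λ * Real.log X⌋₊ := by rw [Nat.card_Icc]; omega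
    have h11 := (Nat.le_floor_iff (by positivity)).1 h10
    have h12 : (B ∪ B.image (fun a => a + h)).card ≤ B.card + B.card :=
      (Finset.card_union_le _ _).trans (Nat.add_le_add_left Finset.card_image_le _)
    have h13 : (((B ∪ B.image (fun a => a + h)).card : ℕ) : ℝ) ≤ (B.card : ℝ) + B.card := by
      exact_mod_cast h12
    linarith
  obtain ⟨Er, hEq, hEs⟩ := h6 X hX6 b0 hb0
  have hΩ : (0 : ℝ) ≤ (X : ℝ) / Wm X := by positivity
  have hcore := pair_pt (T := T) h4 hSm1 hSm3 hu hsum hθ hθ1 hδ8 hKb hδb hV0 hV1 hd1 hX16 hKH hw1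
    hw3 hJ hPi hBV hΛ (fun P hP U hU hU' => h1 X hX1 P hP U hU hU' none (by simp)) hΩ hEq hEs D hcf
    hB hh hhT
  obtain ⟨hL1, hab1⟩ := hab _ (JJ δ X) hcard hJ4
  have h20 := ef_le (t := t + t) (k := (B ∪ B.image (fun a => a + h)).card) (A' := (X : ℝ) / Wm X)
    (T := (X : ℝ) / Wm X) zero_le_one hV0 hs hΩ hΩ hb hd hab1
    (by
      have : 1 / Real.log X ≤ 1 := by
        rw [div_le_one hL0]
        exact hL1
      calc (X : ℝ) / Wm X * (1 / Real.log X) ≤ (X : ℝ) / Wm X * 1 :=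
            mul_le_mul_of_nonneg_left this hΩ
        _ = _ := mul_one _) hL0
  rw [one_pow, one_mul] at h20
  refine hcore.trans (h20.trans (le_of_eq ?_))
  ring

theorem momW : EN.MomW :=
  Pool.Agent.H602R2.momW_of (Pool.Agent.H488R2.EN2a.expandW_of Pool.Agent.H20R2.fLem)
      Pool.Agent.H911R2.EN.sumW Pool.Agent.H415R2.ACLocal.localSum

theorem pairW : PairW := pairW_of (secondG_of Pool.Agent.H212R2.AC4b.countMaps momW)

theorem smp : SMp :=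
  smp_of pairW Pool.Agent.H379R2.PP.sm1 Pool.Agent.H804R2.PPSm2.sm2 Pool.Agent.H379R2.PP.sm3
    Pool.Agent.H20R2.eqInt (Pool.Agent.H488R2.mer Pool.Agent.H325R2.wtx)
    (Pool.Agent.H488R2.gbd Pool.Agent.H325R2.wtx) Pool.Agent.H325R2.wtx Pool.Agent.H363R2.PPCnt.cnt

end Pool.Agent.K7.H60
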