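import Pool.Agent.K7.H60.Pair
import Pool.Agent.H361R2.PP.Asm2

/-!
The correlation of the weights at `n` and at `n + h`, for the integers in a class.
-/

set_option autoImplicit false

open Finset Filter Topology

namespace Pool.Agent.K7.H60

open Pool.Agent.H361R2.PP
open Pool.Agent.H410R2
open Pool.Agent.H862R2.PPSm5

variable {n : ℕ}

/-! ### translations -/

theorem sum_cfg_shift (B : Finset ℕ) (h : ℕ) (f : (Fin n → Option ℕ) → ℝ) :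
    ∑ σ ∈ AC.cfg n (B.image (fun a => a + h)), f σ =
      ∑ σ ∈ AC.cfg n B, f (fun τ => (σ τ).map (fun a => a + h)) := by
  classical
  symm
  refine Finset.sum_bij (fun σ _ => fun τ => (σ τ).map (fun a => a + h)) ?_ ?_ ?_ ?_
  · intro σ hσ
    rw [mem_cfg] at hσ ⊢
    refine ⟨fun i => ?_, ?_⟩
    · cases hi : σ i with
      | none => simp
      | some a =>
        have := hσ.1 i
        rw [hi, Finset.some_mem_insertNone] at this
        rw [Option.map_some, Finset.some_mem_insertNone]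
        exact Finset.mem_image_of_mem _ this
    · intro τ τ' a h1 h2
      rw [Option.map_eq_some_iff] at h1 h2
      obtain ⟨a1, h3, h4⟩ := h1
      obtain ⟨a2, h5, h6⟩ := h2
      have : a1 = a2 := by omega
      subst this
      exact hσ.2 τ τ' a1 h3 h5
  · intro σ _ σ' _ hh
    funext τ
    have h1 := congrFun hh τ
    exact Option.map_injective (fun a b hab => by simpa using hab) h1
  · intro σ hσ
    rw [mem_cfg] at hσ
    have hge : ∀ τ a, σ τ = some a → ∃ a' ∈ B, a' + h = a := by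
      intro τ a ha
      have := hσ.1 τ
      rw [ha, Finset.some_mem_insertNone] at this
      exact Finset.mem_image.1 this
    refine ⟨fun τ => (σ τ).map (fun a => a - h), ?_, ?_⟩
    · rw [mem_cfg]
      refine ⟨fun i => ?_, ?_⟩
      · cases hi : σ i with
        | none => simp
        | some a =>
          obtain ⟨a', ha', h1⟩ := hge i a hi
          rw [Option.map_some, Finset.some_mem_insertNone]
          have : a - h = a' := by omega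
          rw [this]
          exact ha'
      · intro τ τ' a h1 h2
        rw [Option.map_eq_some_iff] at h1 h2
        obtain ⟨a1, h3, h4⟩ := h1
        obtain ⟨a2, h5, h6⟩ := h2
        obtain ⟨a1', -, h7⟩ := hge τ a1 h3
        obtain ⟨a2', -, h8⟩ := hge τ' a2 h5
        have : a1 = a2 := by omega
        subst this
        exact hσ.2 τ τ' a1 h3 h5
    · funext τ
      cases hi : σ τ with
      | none => simp [hi]
      | some a =>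
        obtain ⟨a', ha', h1⟩ := hge τ a hi
        simp only [hi, Option.map_some]
        congr 1
        omega
  · intro σ _
    rfl

theorem term_shift (x : Fin n → ℕ → ℝ) (h : ℕ) (σ : Fin n → Option ℕ) :
    AC.term x (fun τ => (σ τ).map (fun a => a + h)) = AC.term (fun τ a => x τ (a + h)) σ := by
  unfold AC.term
  refine Finset.prod_congr rfl fun τ _ => ?_
  cases hσ : σ τ <;> simp [hσ]

theorem occ_shift (q : Fin n → ℝ) (h : ℕ) (σ : Fin n → Option ℕ) :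
    AC.occ q (fun τ => (σ τ).map (fun a => a + h)) = AC.occ q σ := by
  unfold AC.occ
  refine Finset.prod_congr rfl fun τ _ => ?_
  cases hσ : σ τ <;> simp [hσ]

theorem WW_shift (B : Finset ℕ) (h : ℕ) (x : Fin n → ℕ → ℝ) :
    AC.WW (B.image (fun a => a + h)) (fun _ => 1) x =
      AC.WW B (fun _ => 1) (fun τ a => x τ (a + h)) := by
  unfold AC.WW
  rw [sum_cfg_shift B h (fun σ => 1 * AC.term x σ)]
  refine Finset.sum_congr rfl fun σ _ => ?_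
  rw [term_shift]

section

variable {t : ℕ} {u : Fin t → ℝ} {c0 δ : ℝ} {X : ℕ}

theorem xx_shift (D : Dat t u c0 δ X) (hcf : ∀ a, D.cf a = -1) (m h : ℕ) :
    (fun τ a => xx D m τ (a + h)) = xx D (m + h) := by
  funext τ a
  have e1 : m + (a + h) = m + h + a := by ring
  unfold xx rg FS
  rw [hcf, hcf, e1]

theorem ZZ_occ (D : Dat t u c0 δ X) (hcf : ∀ a, D.cf a = -1) (B : Finset ℕ) :
    ZZ D B (fun _ => 1) =
      ∑ σ ∈ AC.cfg t B, AC.occ (fun τ => D.g τ ^ 2 * (VV δ X * AC.GG (D.S τ))) σ := by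
  unfold ZZ
  refine Finset.sum_congr rfl fun σ _ => ?_
  rw [one_pow, one_mul]
  unfold AC.term AC.occ qq
  refine Finset.prod_congr rfl fun τ _ => ?_
  cases hσ : σ τ with
  | none => simp
  | some a =>
    simp only [hcf, reduceCtorEq, if_false]
    ring

end

/-! ### the statement -/

/-- correlation of the weights at `m` and `m + h` -/
def SMp : Prop := ∀ (t : ℕ) (u : Fin t → ℝ) (Λ θ s : ℝ), (∀ τ, 0 < u τ) → ∑ τ, u τ ≤ θ / 2 →
  0 < θ → θ ≤ 1 / 32 → 0 < Λ → 0 < s → ∃ δ₀ : ℝ, 0 < δ₀ ∧ ∀ δ : ℝ, 0 < δ → δ ≤ δ₀ →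
  ∀ T : ℝ, 0 < T → ∃ X₀ : ℕ, ∀ X : ℕ, X₀ ≤ X → ∀ b : ℕ, b < Wm X → ∀ D : Dat t u 1 δ X,
  (∀ a, D.cf a = -1) → ∀ B ⊆ BB X b ⌊Λ * Real.log X⌋₊, ∀ h : ℕ, Λ * Real.log X < h →
  (h : ℝ) ≤ T * Real.log X →
    |∑ m ∈ SI X b, (AC.WW B (fun _ => 1) (xx D m) * AC.WW B (fun _ => 1) (xx D (m + h))) ^ 2 -
      (X : ℝ) / Wm X * (ZZ D B (fun _ => 1)) ^ 2| ≤ s * ((X : ℝ) / Wm X)

/-- the content of `PairW` for fixed constants -/
def BodyP (n K : ℕ) : Prop :=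
  ∀ (b J z0 D0 : ℕ) (P1 P2 B₁ B₂ : Finset ℕ) (ρ : ℕ → ℕ → ℕ) (κ : ℕ → ℕ → ℝ) (e : ℕ → ℕ)
    (w : ℕ → ℝ) (M : ℕ) (A : ℝ) (err : Finset ℕ → ℝ) (S : Fin n → Finset (Finset ℕ))
    (g : Fin n → ℝ) (Y : Fin n → ℕ) (V δ : ℝ), Disjoint B₁ B₂ →
    EN.Setup K b J z0 D0 P1 P2 (B₁ ∪ B₂) ρ κ e w M A err →
    (2 ^ 2 ^ J) ^ (K * b) * (∏ τ, Y τ) ^ 4 ≤ D0 → 0 < V → V ≤ 1 → δ ≤ 1 →
    AC.Pi1 P2 ≤ 1 / V → ((B₁ ∪ B₂).card : ℝ) * EN.V1 P1 ≤ 1 / V → (∀ τ, 0 ≤ g τ ∧ g τ ≤ 1) →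
    (∀ τ, ∀ R ∈ S τ, R ⊆ P2) → (∀ τ, ∅ ∉ S τ) → (∀ τ τ', τ ≠ τ' → Disjoint (S τ) (S τ')) →
    (∀ U ⊆ B₁ ∪ B₂, U.card ≤ 4 * n + 2 → EN.dl e ρ (P1 ∪ P2) U ≤ δ) →
    (∀ τ, 1 ≤ Y τ ∧ ∀ R ∈ S τ, ∏ p ∈ R, p ≤ Y τ) →
      |∑ m ∈ range M, w m * (AC.WW B₁ (fun _ => 1) (EN.xx ρ P1 S g m) *
          AC.WW B₂ (fun _ => 1) (EN.xx ρ P1 S g m)) ^ 2 -
        A * ((∑ σ ∈ AC.cfg n B₁, AC.occ (fun τ => g τ ^ 2 * (EN.V1 P1 * AC.GG (S τ))) σ) *
          ∑ σ ∈ AC.cfg n B₂, AC.occ (fun τ => g τ ^ 2 * (EN.V1 P1 * AC.GG (S τ))) σ)| ≤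
      EN.EF (n + n) K b J (B₁ ∪ B₂).card A V δ (EN.ET K (P1 ∪ P2) D0 err)

theorem bodyP (h : PairW) (n : ℕ) : ∃ K : ℕ, 1 ≤ K ∧ BodyP n K := h n 1 le_rfl

theorem pair_pt {t K : ℕ} (h4 : BodyP t K) (hSm1 : Sm1) (hSm3 : Sm3)
    {u : Fin t → ℝ} {Λ T θ δ V d : ℝ} {b X b0 : ℕ} (hu : ∀ τ, 0 < u τ) (hsum : ∑ τ, u τ ≤ θ / 2)
    (hθ : 0 < θ) (hθ1 : θ ≤ 1 / 32) (hδ1 : δ ≤ 1 / 8)
    (hKb : K ≤ b) (hδb : δ * (K * b) ≤ θ / 4) (hV0 : 0 < V) (hV1 : V ≤ 1) (hd : d ≤ 1)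
    (hX16 : 16 ≤ X) (hKH : K ≤ HH X) (hw1 : (2 : ℝ) ^ 2 ^ JJ δ X ≤ (X : ℝ) ^ δ)
    (hw3 : HH X < 2 ^ 2 ^ JJ δ X) (hJ : 1 ≤ JJ δ X)
    (hPi : ∏ p ∈ P2 (JJ δ X) X, (1 + (1 : ℝ) / ((p : ℝ) - 1)) ≤ 1 / V)
    (hBV : 2 * ((BB X b0 ⌊Λ * Real.log X⌋₊).card : ℝ) * VV δ X ≤ 1 / V)
    (hΛ : 0 < Λ)
    (hdl : ∀ P : Finset ℕ, (∀ p ∈ P, p.Prime ∧ HH X < p) → ∀ U : Finset ℕ, U.card ≤ 4 * t + 2 →
      (∀ a ∈ U, 1 ≤ a ∧ (a : ℝ) ≤ (Λ + T) * Real.log X) → EN.dl (ee none) rho P U ≤ d)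
    {S : Finset ℕ} {Ω E : ℝ} {Er : Finset ℕ → ℝ}
    (hΩ : 0 ≤ Ω)
    (hEq : Eqd none ((PX X).filter (fun p : ℕ => (p : ℝ) ≤ (X : ℝ) ^ (1 / 2 : ℝ))) S Ω Er)
    (hEs : ∑ D ∈ (PX X).powerset.filter
      (fun D : Finset ℕ => ∏ p ∈ D, (p : ℝ) ≤ (X : ℝ) ^ (1 - θ)),
      (K : ℝ) ^ D.card * Er D ≤ E)
    (D : Dat t u 1 δ X) (hcf : ∀ a, D.cf a = -1)
    {B : Finset ℕ} (hB : B ⊆ BB X b0 ⌊Λ * Real.log X⌋₊)
    {h : ℕ} (hh : Λ * Real.log X < h) (hhT : (h : ℝ) ≤ T * Real.log X) :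
    |∑ m ∈ S, (AC.WW B (fun _ => 1) (xx D m) * AC.WW B (fun _ => 1) (xx D (m + h))) ^ 2 -
      Ω * (ZZ D B (fun _ => 1)) ^ 2| ≤
        EN.EF (t + t) K b (JJ δ X) (B ∪ B.image (fun a => a + h)).card Ω V d E := by
  classical
  have hXr : (16 : ℝ) ≤ X := by exact_mod_cast hX16
  have hX0 : (0 : ℝ) < X := by linarith
  have hX1 : (1 : ℝ) ≤ X := by linarith
  have hlogX : 0 ≤ Real.log X := Real.log_nonneg hX1
  have hlog : 0 ≤ Λ * Real.log X := mul_nonneg hΛ.le hlogX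
  set J := JJ δ X with hJdef
  set M : ℕ := 2 ^ 2 ^ J with hM
  have hMr : ((2 : ℝ) ^ 2 ^ J) = (M : ℝ) := by rw [hM]; push_cast; rfl
  rw [hMr] at hw1
  have hle : ∀ {x y : ℝ}, x ≤ y → (X : ℝ) ^ x ≤ (X : ℝ) ^ y := fun h =>
    Real.rpow_le_rpow_of_exponent_le hX1 h
  set z : ℕ := ⌊(X : ℝ) ^ (1 / 4 : ℝ)⌋₊ with hz
  have hzX : z ≤ X := by
    have h1 : (X : ℝ) ^ (1 / 4 : ℝ) ≤ X := by
      calc (X : ℝ) ^ (1 / 4 : ℝ) ≤ (X : ℝ) ^ (1 : ℝ) := hle (by norm_num)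
        _ = X := Real.rpow_one _
    have h2 : (z : ℝ) ≤ X := (Nat.floor_le (by positivity)).trans h1
    exact_mod_cast h2
  have hP2' : ∀ p ∈ P2 J z, p.Prime ∧ M ≤ p := fun p hp => (Finset.mem_filter.1 hp).2
  have hP2sub : P2 J z ⊆ P2 J X := by
    intro p hp
    unfold P2 at hp ⊢
    rw [Finset.mem_filter, Finset.mem_range] at hp ⊢
    exact ⟨by omega, hp.2⟩
  have hP1 : ∀ p ∈ P1 (HH X) J, p.Prime ∧ HH X < p := fun p hp => (Finset.mem_filter.1 hp).2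
  have hP1a : ∀ p ∈ P1 (HH X) J, p.Prime ∧ HH X < p ∧ p ≤ 2 ^ 2 ^ J := by
    intro p hp
    simp only [P1, Finset.mem_filter, Finset.mem_range] at hp
    exact ⟨hp.2.1, hp.2.2, hp.1.le⟩
  have hP2a : ∀ p ∈ P2 J z, p.Prime ∧ HH X < p ∧ 2 ^ 2 ^ J < p := by
    intro p hp
    obtain ⟨hpp, hple⟩ := hP2' p hp
    refine ⟨hpp, lt_of_lt_of_le hw3 hple, lt_of_le_of_ne hple ?_⟩
    intro he
    rw [← he] at hpp
    exact Pool.Agent.H372R2.PPSM4.not_prime_pow hJ hpp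
  have hunion : ∀ p ∈ P1 (HH X) J ∪ P2 J z, p.Prime ∧ HH X < p := by
    intro p hp
    rcases Finset.mem_union.1 hp with h | h
    · exact hP1 p h
    · exact ⟨(hP2' p h).1, lt_of_lt_of_le hw3 (hP2' p h).2⟩
  have hsubPX : P1 (HH X) J ∪ P2 J z ⊆
      (PX X).filter (fun p : ℕ => (p : ℝ) ≤ (X : ℝ) ^ (1 / 2 : ℝ)) := by
    intro p hp
    obtain ⟨h1, h2⟩ := hunion p hp
    have h3 : (p : ℝ) ≤ (X : ℝ) ^ (1 / 2 : ℝ) := by
      rcases Finset.mem_union.1 hp with h | h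
      · have h5 : p < M := by
          have := (Finset.mem_filter.1 h).1
          rwa [Finset.mem_range] at this
        have h6 : (p : ℝ) ≤ M := by exact_mod_cast h5.le
        exact h6.trans (hw1.trans (hle (by linarith)))
      · have h5 : p < z + 1 := by
          have := (Finset.mem_filter.1 h).1
          rwa [Finset.mem_range] at this
        have h6 : (p : ℝ) ≤ z := by exact_mod_cast (by omega : p ≤ z)
        exact h6.trans ((Nat.floor_le (by positivity)).trans (hle (by norm_num)))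
    have h4 : p ≤ X := by
      have h5 : (X : ℝ) ^ (1 / 2 : ℝ) ≤ X := by
        calc (X : ℝ) ^ (1 / 2 : ℝ) ≤ (X : ℝ) ^ (1 : ℝ) := hle (by norm_num)
          _ = X := Real.rpow_one _
      exact_mod_cast h3.trans h5
    rw [Finset.mem_filter]
    unfold PX
    rw [Finset.mem_filter, Finset.mem_range]
    exact ⟨⟨by omega, h1, h2⟩, h3⟩
  -- sets of primes with small product
  have hfam : ∀ (x : ℝ) (R : Finset ℕ), x ≤ 1 / 4 → R ⊆ P2 J X →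
      ∏ p ∈ R, (p : ℝ) ≤ (X : ℝ) ^ x → R ⊆ P2 J z ∧ ∏ p ∈ R, p ≤ ⌊(X : ℝ) ^ x⌋₊ := by
    intro x R hx hR hprod
    refine ⟨?_, ?_⟩
    · intro p hp
      have h1 := Finset.mem_filter.1 (hR hp)
      unfold P2
      rw [Finset.mem_filter, Finset.mem_range]
      refine ⟨?_, h1.2⟩
      have h2 : p ≤ ∏ q ∈ R, q := mem_le_prod (fun q hq => (Finset.mem_filter.1 (hR hq)).2.1.one_le) hp
      have h3 : (p : ℝ) ≤ (X : ℝ) ^ (1 / 4 : ℝ) := by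
        have h5 : (p : ℝ) ≤ ∏ q ∈ R, (q : ℝ) := by
          have h6 : (p : ℝ) ≤ ((∏ q ∈ R, q : ℕ) : ℝ) := Nat.cast_le.2 h2
          rwa [Nat.cast_prod] at h6
        exact h5.trans (hprod.trans (hle hx))
      have := Nat.le_floor h3
      omega
    · apply Nat.le_floor
      push_cast
      exact hprod
  have hu4 : ∀ τ, u τ ≤ 1 / 4 := by
    intro τ
    have h1 : u τ ≤ ∑ τ, u τ := Finset.single_le_sum (fun i _ => (hu i).le) (Finset.mem_univ τ)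
    linarith
  have hone : ∀ x : ℝ, 0 ≤ x → 1 ≤ ⌊(X : ℝ) ^ x⌋₊ := by
    intro x hx
    apply Nat.le_floor
    simpa using Real.one_le_rpow hX1 hx
  -- the main inequality for the exponents
  have hD0 : (2 ^ 2 ^ J) ^ (K * b) * (∏ τ, ⌊(X : ℝ) ^ (u τ)⌋₊) ^ 4 ≤
      ⌊(X : ℝ) ^ (1 - θ)⌋₊ := by
    rw [← hM]
    apply Nat.le_floor
    push_cast
    have h1 : (M : ℝ) ^ (K * b) ≤ (X : ℝ) ^ (θ / 4) := by
      calc (M : ℝ) ^ (K * b) ≤ ((X : ℝ) ^ δ) ^ (K * b) :=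
            pow_le_pow_left₀ (Nat.cast_nonneg _) hw1 _
        _ = (X : ℝ) ^ (δ * ((K * b : ℕ) : ℝ)) := by
            rw [← Real.rpow_natCast, ← Real.rpow_mul hX0.le]
        _ ≤ (X : ℝ) ^ (θ / 4) := by
            apply hle
            push_cast
            exact hδb
    have h3 : ∏ τ, (⌊(X : ℝ) ^ (u τ)⌋₊ : ℝ) ≤ (X : ℝ) ^ (θ / 2) := by
      calc ∏ τ, (⌊(X : ℝ) ^ (u τ)⌋₊ : ℝ) ≤ ∏ τ, (X : ℝ) ^ (u τ) := by
            apply Finset.prod_le_prod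
            · intro i _
              positivity
            · intro i _
              exact Nat.floor_le (by positivity)
        _ = (X : ℝ) ^ (∑ τ, u τ) := by rw [Real.rpow_sum_of_pos hX0]
        _ ≤ (X : ℝ) ^ (θ / 2) := hle hsum
    have h30 : 0 ≤ ∏ τ, (⌊(X : ℝ) ^ (u τ)⌋₊ : ℝ) := by positivity
    calc (M : ℝ) ^ (K * b) * (∏ τ, (⌊(X : ℝ) ^ (u τ)⌋₊ : ℝ)) ^ 4
        ≤ (X : ℝ) ^ (θ / 4) * ((X : ℝ) ^ (θ / 2)) ^ 4 :=
          mul_le_mul h1 (pow_le_pow_left₀ h30 h3 _) (by positivity) (by positivity)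
      _ = (X : ℝ) ^ (θ / 4 + (θ / 2) * 4) := by
          rw [Real.rpow_add hX0, Real.rpow_mul hX0.le]
          norm_num
      _ ≤ (X : ℝ) ^ (1 - θ) := hle (by linarith)
  have hBB : ∀ a ∈ BB X b0 ⌊Λ * Real.log X⌋₊, 1 ≤ a ∧ (a : ℝ) ≤ Λ * Real.log X := by
    intro a ha
    have h1 := Finset.mem_Icc.1 (Finset.mem_filter.1 ha).1
    exact ⟨h1.1, (Nat.le_floor_iff hlog).1 h1.2⟩
  have hErn : ∀ T, 0 ≤ Er T := hEq.2.1
  have hErsum : ∑ T ∈ (P1 (HH X) J ∪ P2 J z).powerset.filter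
      (fun T : Finset ℕ => ∏ p ∈ T, p ≤ ⌊(X : ℝ) ^ (1 - θ)⌋₊), (K : ℝ) ^ T.card * Er T ≤ E := by
    refine le_trans ?_ hEs
    apply Finset.sum_le_sum_of_subset_of_nonneg
    · intro T hT
      rw [Finset.mem_filter, Finset.mem_powerset] at hT ⊢
      refine ⟨fun p hp => (Finset.mem_filter.1 (hsubPX (hT.1 hp))).1, ?_⟩
      have h1 := (Nat.le_floor_iff (by positivity)).1 hT.2
      push_cast at h1
      exact h1
    · intro T _ _
      exact mul_nonneg (by positivity) (hErn T)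
  have hVV0 : 0 ≤ VV δ X := vv_nonneg δ X
  have hpr : ∀ p ∈ P1 (HH X) J ∪ P2 J z, p.Prime := fun p hp => (hunion p hp).1
  have hge1 : ∀ p ∈ P1 (HH X) J ∪ P2 J z, 1 ≤ p := fun p hp => (hpr p hp).one_lt.le
  have hge1a : ∀ p ∈ P1 (HH X) J, 1 ≤ p := fun p hp => hge1 p (Finset.mem_union_left _ hp)
  have hM' : ∀ n ∈ S, n < S.sup id + 1 := by
    intro n hn
    exact Nat.lt_succ_of_le (Finset.le_sup (f := id) hn)
  obtain ⟨hEqd, hDens⟩ := hSm3 none (P1 (HH X) J ∪ P2 J z) S Ω Er (S.sup id + 1)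
    ⌊(X : ℝ) ^ (1 - θ)⌋₊ hpr (eqd_mono hsubPX hEq) hM'
  set N := S.sup id + 1 with hNdef
  set w : ℕ → ℝ := fun n => if n ∈ S then 1 else 0 with hw
  have hw0 : ∀ m, 0 ≤ w m := by
    intro m; simp only [hw]; split_ifs <;> norm_num
  obtain ⟨hr, hrg, hFF⟩ := hSm1
  set B₂ := B.image (fun a => a + h) with hB2
  have hB2mem : ∀ a ∈ B₂, ∃ a' ∈ B, a' + h = a := fun a ha => Finset.mem_image.1 ha
  have hdisj : Disjoint B B₂ := by
    rw [Finset.disjoint_left]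
    intro a ha ha2
    obtain ⟨a', -, h1⟩ := hB2mem a ha2
    have h2 := (hBB a (hB ha)).2
    have h3 : (h : ℝ) ≤ a := by exact_mod_cast (by omega : h ≤ a)
    linarith
  have hsetup : EN.Setup K b J (HH X) ⌊(X : ℝ) ^ (1 - θ)⌋₊ (P1 (HH X) J) (P2 J z) (B ∪ B₂) rho
      (kk none) (ee none) w N Ω Er := by
    refine ⟨hKb, hKH, hP1a, hP2a, hDens, hw0, hΩ, hEqd, ?_⟩
    intro p hp a _
    exact Pool.Agent.H372R2.PPSM4.rho_lt a (hge1 p hp)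
  have hV1eq : EN.V1 (P1 (HH X) J) = VV δ X := rfl
  have hcard : ((B ∪ B₂).card : ℝ) ≤ 2 * ((BB X b0 ⌊Λ * Real.log X⌋₊).card : ℝ) := by
    have h1 : (B ∪ B₂).card ≤ B.card + B₂.card := Finset.card_union_le _ _
    have h2 : B₂.card ≤ B.card := Finset.card_image_le
    have h3 : B.card ≤ (BB X b0 ⌊Λ * Real.log X⌋₊).card := Finset.card_le_card hB
    have h4 : (B ∪ B₂).card ≤ 2 * (BB X b0 ⌊Λ * Real.log X⌋₊).card := by omega
    exact_mod_cast h4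
  have hDS : ∀ τ, ∀ R ∈ D.S τ, R ⊆ P2 J z ∧ ∏ p ∈ R, p ≤ ⌊(X : ℝ) ^ (u τ)⌋₊ := by
    intro τ R hR
    obtain ⟨h1, h2⟩ := D.hS τ R hR
    refine hfam (u τ) R (hu4 τ) h1 ?_
    have hpos : (0 : ℝ) < ∏ p ∈ R, (p : ℝ) := Finset.prod_pos fun p hp => by
      exact_mod_cast (Finset.mem_filter.1 (h1 hp)).2.1.pos
    rw [← Real.log_rpow hX0, Real.log_le_log_iff hpos (by positivity)] at h2
    exact h2
  have hT0 : 0 ≤ T * Real.log X := le_trans (Nat.cast_nonneg h) hhT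
  have main := h4 b J (HH X) ⌊(X : ℝ) ^ (1 - θ)⌋₊ (P1 (HH X) J) (P2 J z) B B₂ rho (kk none)
    (ee none) w N Ω Er D.S D.g (fun τ => ⌊(X : ℝ) ^ (u τ)⌋₊) V d hdisj hsetup hD0 hV0 hV1 hd
    ((pi1_mono hP2sub (fun p hp => (Finset.mem_filter.1 hp).2.1)).trans hPi)
    (by
      rw [hV1eq]
      exact (mul_le_mul_of_nonneg_right hcard hVV0).trans hBV)
    D.hg (fun τ R hR => (hDS τ R hR).1) D.h0 D.hd
    (by
      intro U hU hUc
      refine hdl _ hunion U hUc fun a ha => ?_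
      rcases Finset.mem_union.1 (hU ha) with h1 | h1
      · have h2 := hBB a (hB h1)
        exact ⟨h2.1, by nlinarith⟩
      · obtain ⟨a', ha', h3⟩ := hB2mem a h1
        have h2 := hBB a' (hB ha')
        refine ⟨by omega, ?_⟩
        have h5 : (a : ℝ) = a' + h := by exact_mod_cast h3.symm
        rw [h5]
        nlinarith)
    (fun τ => ⟨hone _ (hu τ).le, fun R hR => (hDS τ R hR).2⟩)
  have hxx : ∀ m, EN.xx rho (P1 (HH X) J) D.S D.g m = xx D m := by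
    intro m
    funext τ a
    unfold EN.xx xx
    rw [hrg _ _ _ hge1a, hFF (D.S τ) a m
      (fun R hR p hp => hge1 p (Finset.mem_union_right _ ((hDS τ R hR).1 hp))), hcf]
    ring
  have hZ1 : ∑ σ ∈ AC.cfg t B, AC.occ (fun τ => D.g τ ^ 2 * (EN.V1 (P1 (HH X) J) *
      AC.GG (D.S τ))) σ = ZZ D B (fun _ => 1) := by
    rw [ZZ_occ D hcf B, hV1eq]
  have hZ2 : ∑ σ ∈ AC.cfg t B₂, AC.occ (fun τ => D.g τ ^ 2 * (EN.V1 (P1 (HH X) J) *
      AC.GG (D.S τ))) σ = ZZ D B (fun _ => 1) := by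
    rw [hB2, sum_cfg_shift B h, ← hZ1]
    refine Finset.sum_congr rfl fun σ _ => ?_
    rw [occ_shift]
  have hWW2 : ∀ m, AC.WW B₂ (fun _ => 1) (xx D m) = AC.WW B (fun _ => 1) (xx D (m + h)) := by
    intro m
    rw [hB2, WW_shift, xx_shift D hcf]
  rw [hZ1, hZ2, ← sq] at main
  simp only [hxx, hWW2] at main
  rw [Pool.Agent.H372R2.PPSM4.sum_ind S N hM'] at main
  refine main.trans ?_
  unfold EN.EF
  have h1 : 0 ≤ (K : ℝ) / V ^ K := by positivity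
  have h2 : EN.ET K (P1 (HH X) J ∪ P2 J z) ⌊(X : ℝ) ^ (1 - θ)⌋₊ Er ≤ E := hErsum
  gcongr

end Pool.Agent.K7.H60
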