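import Pool.Agent.K7.H81.RT.Stm

/-!
# Project RT, job LOW: the lower bound for the asymptotic critical exponent
-/

set_option autoImplicit false

open Filter Topology

namespace Pool.Agent.K7.H60.RTLOW

open Pool.Agent.K7.H81.RT

lemma hasPower {A : Type} (u : ℕ → A) (i j n : ℕ) (hij : i < j)
    (h : ∀ k < n, u (i + k) = u (j + k)) : HasPower u (j - i) (n + (j - i)) := by
  refine ⟨i, fun m => u (i + m), ?_⟩
  intro k
  induction k using Nat.strong_induction_on with
  | _ k ih =>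
    intro hk
    rcases Nat.lt_or_ge k (j - i) with h1 | h1
    · simp only [Nat.mod_eq_of_lt h1]
    · obtain ⟨m, rfl⟩ : ∃ m, k = (j - i) + m := ⟨k - (j - i), by omega⟩
      have h2 := ih m (by omega) (by omega)
      have h3 := h m (by omega)
      simp only [Nat.add_mod_left]
      refine Eq.trans ?_ h2
      rw [h3]
      congr 1
      omega

lemma le_expFrom {A : Type} (u : ℕ → A) (N q l : ℕ) (h1 : 1 ≤ q) (h2 : N ≤ q)
    (h3 : HasPower u q l) : (l : ENNReal) / q ≤ expFrom N u := by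
  unfold expFrom
  exact le_iSup_of_le q (le_iSup_of_le l (le_iSup_of_le ⟨h1, h2, h3⟩ le_rfl))

lemma div_eq {l q : ℕ} (hq : 1 ≤ q) : (l : ENNReal) / q = ENNReal.ofReal ((l : ℝ) / q) := by
  rw [ENNReal.ofReal_div_of_pos (by exact_mod_cast hq), ENNReal.ofReal_natCast,
    ENNReal.ofReal_natCast]

theorem t : StLow := by
  intro d u hd hpig
  unfold asyExp
  split_ifs with htop
  · exact le_top
  apply le_iInf
  intro N
  have hD : (1 : ℝ) ≤ (d : ℝ) - 1 := by
    have : (2 : ℝ) ≤ d := by exact_mod_cast hd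
    linarith
  set e : ℝ := (critExp u).toReal with he
  have he0 : 0 ≤ e := ENNReal.toReal_nonneg
  have key : ∀ n : ℕ, ∃ q : ℕ, 1 ≤ q ∧ q ≤ (d - 1) * n + 1 ∧ HasPower u q (n + q) := by
    intro n
    obtain ⟨i, j, hij, hj, h⟩ := hpig n
    exact ⟨j - i, by omega, by omega, hasPower u i j n hij h⟩
  have hb : ∀ n q : ℕ, 1 ≤ q → HasPower u q (n + q) → (n : ℝ) ≤ e * q := by
    intro n q hq hp
    have hq0 : (0 : ℝ) < q := by exact_mod_cast hq
    have h1 := le_expFrom u 0 q (n + q) hq (Nat.zero_le _) hp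
    rw [div_eq hq] at h1
    have h2 : ((n + q : ℕ) : ℝ) / q ≤ e := by
      have h3 := ENNReal.toReal_mono htop h1
      rwa [ENNReal.toReal_ofReal (by positivity)] at h3
    rw [div_le_iff₀ hq0] at h2
    push_cast at h2
    linarith
  have hev : ∀ᶠ n : ℕ in atTop,
      ENNReal.ofReal (1 + 1 / ((d : ℝ) - 1) - 1 / ((d : ℝ) - 1) * (1 / (((d : ℝ) - 1) * n + 1))) ≤
        expFrom N u := by
    filter_upwards [eventually_gt_atTop ⌈e * N⌉₊] with n hn
    obtain ⟨q, hq1, hq2, hp⟩ := key n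
    have hn' : e * N < n := lt_of_le_of_lt (Nat.le_ceil _) (by exact_mod_cast hn)
    have hqN : N ≤ q := by
      by_contra hlt
      have h1 : (q : ℝ) ≤ N := by exact_mod_cast (not_le.1 hlt).le
      have h2 := hb n q hq1 hp
      have h3 : e * q ≤ e * N := mul_le_mul_of_nonneg_left h1 he0
      linarith
    refine le_trans ?_ (le_expFrom u N q (n + q) hq1 hqN hp)
    rw [div_eq hq1]
    apply ENNReal.ofReal_le_ofReal
    have hq0 : (0 : ℝ) < q := by exact_mod_cast hq1
    have hq2' : (q : ℝ) ≤ ((d : ℝ) - 1) * n + 1 := by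
      have h1 : (q : ℝ) ≤ (((d - 1) * n + 1 : ℕ) : ℝ) := by exact_mod_cast hq2
      rw [Nat.cast_add, Nat.cast_mul, Nat.cast_sub (by omega)] at h1
      simpa using h1
    have hpos : 0 < ((d : ℝ) - 1) * n + 1 := by positivity
    have h4 : 1 + 1 / ((d : ℝ) - 1) - 1 / ((d : ℝ) - 1) * (1 / (((d : ℝ) - 1) * n + 1)) =
        1 + n / (((d : ℝ) - 1) * n + 1) := by
      have : (d : ℝ) - 1 ≠ 0 := by linarith
      field_simp
      ring
    have h5 : ((n + q : ℕ) : ℝ) / q = 1 + n / q := by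
      push_cast
      field_simp
      ring
    rw [h4, h5]
    have h6 : (n : ℝ) / (((d : ℝ) - 1) * n + 1) ≤ n / q :=
      div_le_div_of_nonneg_left (Nat.cast_nonneg n) hq0 hq2'
    linarith
  have hlim : Tendsto (fun n : ℕ => ENNReal.ofReal (1 + 1 / ((d : ℝ) - 1) -
      1 / ((d : ℝ) - 1) * (1 / (((d : ℝ) - 1) * n + 1)))) atTop
      (𝓝 (ENNReal.ofReal (1 + 1 / ((d : ℝ) - 1)))) := by
    apply ENNReal.tendsto_ofReal
    have h1 : Tendsto (fun n : ℕ => ((d : ℝ) - 1) * n + 1) atTop atTop :=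
      tendsto_atTop_add_const_right _ _
        (tendsto_natCast_atTop_atTop.const_mul_atTop (by linarith))
    have h2 : Tendsto (fun n : ℕ => 1 / (((d : ℝ) - 1) * n + 1)) atTop (𝓝 0) := by
      simp only [one_div]
      exact tendsto_inv_atTop_zero.comp h1
    have h3 := (h2.const_mul (1 / ((d : ℝ) - 1))).const_sub (1 + 1 / ((d : ℝ) - 1))
    simpa using h3
  exact le_of_tendsto hlim hev

end Pool.Agent.K7.H60.RTLOW
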