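import Pool.Agent.K7.H25.SB.Util

/-! Project SB, job BASE: the start of the induction. -/

set_option autoImplicit false

open scoped MeasureTheory ENNReal Topology InnerProductSpace
open MeasureTheory Set Filter Metric

namespace Pool.Agent.K7.H60.SB

open Pool.Agent.R154.Steiner Pool.Agent.K7.H25.SB

theorem union_seg (q u : Pl) :
    segment ℝ (q - (4 : ℝ) • u) q ∪ segment ℝ q (q + (1 : ℝ) • u) =
      segment ℝ (q - (4 : ℝ) • u) (q + (1 : ℝ) • u) := by
  have hz : q - (4 : ℝ) • u = q + (-4 : ℝ) • u := by rw [neg_smul, sub_eq_add_neg]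
  ext x
  rw [mem_union, mem_segm (by norm_num), mem_seg0 (by norm_num), hz, mem_seg (by norm_num)]
  constructor
  · rintro (⟨σ, hσ, rfl⟩ | ⟨σ, hσ, rfl⟩)
    · exact ⟨-σ, ⟨by linarith [hσ.2], by linarith [hσ.1]⟩, by rw [neg_smul, sub_eq_add_neg]⟩
    · exact ⟨σ, ⟨by linarith [hσ.1], hσ.2⟩, rfl⟩
  · rintro ⟨σ, hσ, rfl⟩
    rcases le_total σ 0 with h | h
    · exact Or.inl ⟨-σ, ⟨by linarith, by linarith [hσ.1]⟩, by rw [neg_smul, sub_neg_eq_add]⟩
    · exact Or.inr ⟨σ, ⟨h, hσ.2⟩, rfl⟩

theorem dist_ends (q u : Pl) (hu : ‖u‖ = 1) :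
    dist (q - (4 : ℝ) • u) (q + (1 : ℝ) • u) = 5 := by
  rw [dist_eq_norm]
  have : q - (4 : ℝ) • u - (q + (1 : ℝ) • u) = (-5 : ℝ) • u := by module
  rw [this, norm_smul, hu]
  norm_num

theorem uniq_base (h : StTri) (q u : Pl) (hu : ‖u‖ = 1) :
    Uniq (insert (q + (1 : ℝ) • u) {q - (4 : ℝ) • u})
      (segment ℝ (q - (4 : ℝ) • u) q ∪ segment ℝ q (q + (1 : ℝ) • u)) := by
  rw [union_seg]
  set z := q - (4 : ℝ) • u with hz
  set p := q + (1 : ℝ) • u with hp
  have hd : dist z p = 5 := dist_ends q u hu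
  have hH : μH[1] (segment ℝ z p) = ENNReal.ofReal 5 := by rw [H_seg, hd]
  have hS : IsSteinerTree (insert p {z}) (segment ℝ z p) := by
    refine ⟨isClosed_seg _ _, conn_seg _ _, ?_, by rw [hH]; exact ENNReal.ofReal_lt_top, ?_⟩
    · rintro x (rfl | hx)
      · exact right_mem_segment ℝ _ _
      · rw [mem_singleton_iff] at hx
        rw [hx]
        exact left_mem_segment ℝ _ _
    · intro T hT1 hT2 hT3
      rw [hH, ← hd]
      exact H_conn hT2.isPreconnected (hT3 (Or.inr rfl)) (hT3 (Or.inl rfl))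
  refine ⟨hS, ?_⟩
  intro T hT
  obtain ⟨hT1, hT2, hT3, hT4, hT5⟩ := hT
  have hzT : z ∈ T := hT3 (Or.inr rfl)
  have hpT : p ∈ T := hT3 (Or.inl rfl)
  have hle : μH[1] T ≤ ENNReal.ofReal 5 := by
    rw [← hH]
    exact hT5 _ hS.1 hS.2.1 hS.2.2.1
  have hTc : IsCompact T := compact_of_finite hT1 hT2.isPreconnected hT4.ne
  obtain ⟨y, hy1, hy2⟩ := h T z p p hTc hT2.isPreconnected hT4.ne hzT hpT hpT
  have h1 : dist z y + dist y p + dist y p ≤ 5 :=
    (ENNReal.ofReal_le_ofReal_iff (by norm_num)).1 (hy1.trans hle)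
  have h2 : 5 ≤ dist z y + dist y p := by rw [← hd]; exact dist_triangle _ _ _
  have h3 : dist y p = 0 := le_antisymm (by linarith) dist_nonneg
  have h4 : y = p := dist_eq_zero.1 h3
  subst h4
  have h5 := hy2 (by
    rw [hd, dist_self, add_zero, add_zero]
    exact hle)
  rw [h5, segment_same]
  have hmem : p ∈ segment ℝ z p := right_mem_segment ℝ _ _
  rw [union_eq_self_of_subset_right, union_eq_self_of_subset_right]
  · exact singleton_subset_iff.2 hmem
  · exact singleton_subset_iff.2 (Or.inl hmem)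

/-- Job BASE. -/
theorem stBase (h : StTri) : StBase := by
  let u : Pl := !₂[1, 0]
  let n : Pl := !₂[Real.sqrt 3 / 2, 1 / 2]
  have h3 : Real.sqrt 3 ^ 2 = 3 := Real.sq_sqrt (by norm_num)
  have hu : ‖u‖ = 1 := by
    rw [EuclideanSpace.norm_eq, Fin.sum_univ_two]
    simp [u]
  have hn : ‖n‖ = 1 := by
    rw [EuclideanSpace.norm_eq, Fin.sum_univ_two]
    simp only [n, Matrix.cons_val_zero, Matrix.cons_val_one, Real.norm_eq_abs,
      sq_abs, div_pow, h3]
    norm_num
  have hun : ⟪u, n⟫_ℝ = Real.sqrt 3 / 2 := by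
    simp [u, n, PiLp.inner_apply, Fin.sum_univ_two]
  have h32 : Real.sqrt 3 < 2 := by nlinarith [Real.sqrt_nonneg 3]
  refine ⟨{(0 : Pl) - (4 : ℝ) • u}, segment ℝ ((0 : Pl) - (4 : ℝ) • u) 0, 0, u, n, 1, 1, ?_⟩
  exact
    { fin := finite_singleton _
      ne := singleton_nonempty _
      hu := hu
      hn := hn
      hun := hun
      κpos := one_pos
      κle := le_rfl
      cl := isClosed_seg _ _
      con := conn_seg _ _
      sub := singleton_subset_iff.2 (left_mem_segment ℝ _ _)
      far := by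
        intro x hx
        rw [mem_singleton_iff] at hx
        rw [hx, dist_zero_right, zero_sub, norm_neg, norm_smul, hu]
        norm_num
      loc := by
        ext x
        rw [mem_inter_iff, mem_closedBall, mem_segm (by norm_num), mem_segm (by norm_num)]
        constructor
        · rintro ⟨⟨σ, hσ, rfl⟩, hx⟩
          refine ⟨σ, ⟨hσ.1, ?_⟩, rfl⟩
          rwa [dist_zero_right, zero_sub, norm_neg, norm_smul, hu, mul_one,
            Real.norm_of_nonneg hσ.1] at hx
        · rintro ⟨σ, hσ, rfl⟩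
          refine ⟨⟨σ, ⟨hσ.1, by linarith [hσ.2]⟩, rfl⟩, ?_⟩
          rw [dist_zero_right, zero_sub, norm_neg, norm_smul, hu, mul_one,
            Real.norm_of_nonneg hσ.1]
          exact hσ.2
      uniq := uniq_base h 0 u hu
      out := by
        intro x hx
        rw [mem_singleton_iff] at hx
        rw [hx, dist_eq_norm]
        have e1 : (0 : Pl) - (4 : ℝ) • u - (0 - n) = n - (4 : ℝ) • u := by abel
        rw [e1]
        have e2 : ‖n - (4 : ℝ) • u‖ ^ 2 = 17 - 4 * Real.sqrt 3 := by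
          rw [norm_sub_sq_real, norm_smul, real_inner_smul_right, real_inner_comm, hun, hu, hn]
          norm_num
          ring
        have := norm_nonneg (n - (4 : ℝ) • u)
        by_contra hlt
        push Not at hlt
        nlinarith
      br := by
        intro b hb
        exact absurd hb (Finset.notMem_empty b) }

end Pool.Agent.K7.H60.SB
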