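import Pool.Agent.K7.H7.TB.Stm

/-!
# Project TB, job DIM: Lipschitz images of subsets of `ℝ⁴` in `ℝ⁵` have no interior points
-/

set_option autoImplicit false

open MeasureTheory Metric Set

namespace Pool.Agent.K7.H60.TBDIM

open Pool.Agent.K7.H7.TB

theorem t : StDim := by
  intro K G C hG
  by_contra hne
  have hne' : (interior (G '' K)).Nonempty := Set.nonempty_iff_ne_empty.2 hne
  have h1 : dimH (G '' K) = (Module.finrank ℝ (Fin 5 → ℝ) : ENNReal) :=
    Real.dimH_of_nonempty_interior hne'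
  have h2 : dimH (G '' K) ≤ dimH K := hG.dimH_image_le
  have h3 : dimH K ≤ dimH (univ : Set (Fin 4 → ℝ)) := dimH_mono (subset_univ K)
  rw [Real.dimH_univ_pi_fin] at h3
  rw [Module.finrank_fin_fun] at h1
  have h4 : ((5 : ℕ) : ENNReal) ≤ ((4 : ℕ) : ENNReal) := by
    rw [← h1]; exact h2.trans h3
  exact absurd (Nat.cast_le.1 h4) (by norm_num)

end Pool.Agent.K7.H60.TBDIM
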