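import Pool.Agent.K7.H7.TB.Stm

/-!
# Project TB, job GAP: bounded tori do not contain half of a large ball
-/

set_option autoImplicit false

open MeasureTheory Metric Set

namespace Pool.Agent.K7.H60.TBGAP

open Pool.Agent.K7.H7.TB

lemma vol_ball {r : ℝ} (hr : 0 ≤ r) :
    (volume (ball (0 : E) r)).toReal = r ^ 3 * (volume (ball (0 : E) 1)).toReal := by
  rw [Measure.addHaar_ball volume (0 : E) hr, ENNReal.toReal_mul, finrank_euclideanSpace_fin,
    ENNReal.toReal_ofReal (by positivity)]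

lemma vol_pos : 0 < (volume (ball (0 : E) 1)).toReal :=
  ENNReal.toReal_pos (measure_ball_pos volume (0 : E) one_pos).ne' measure_ball_lt_top.ne

lemma norm_e (i : Fin 3) : ‖e i‖ = 1 := by
  unfold e
  rw [EuclideanSpace.norm_single]; simp

lemma norm_S0 {n : ℕ} {p : Fin 4 → ℝ} (hp : p ∈ Q n) {y : E} (hy : y ∈ S0 p) :
    ‖y‖ ≤ 4 * n := by
  obtain ⟨h1, h2, h3⟩ := hp
  obtain ⟨t, rfl⟩ := hy
  have a0 : ‖p 0 • e 0‖ ≤ n := by
    rw [norm_smul, norm_e, mul_one]; exact h1 0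
  have a1 : ‖p 1 • e 2‖ ≤ n := by
    rw [norm_smul, norm_e, mul_one]; exact h1 1
  have a2 : ‖p 2 • (Real.cos t • e 0 + Real.sin t • e 1)‖ ≤ 2 * n := by
    rw [norm_smul]
    have b1 : ‖Real.cos t • e 0 + Real.sin t • e 1‖ ≤ 2 := by
      refine (norm_add_le _ _).trans ?_
      rw [norm_smul, norm_smul, norm_e, norm_e, mul_one, mul_one]
      have := Real.abs_cos_le_one t
      have := Real.abs_sin_le_one t
      simp only [Real.norm_eq_abs]
      linarith
    have b2 : ‖p 2‖ ≤ n := h1 2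
    calc ‖p 2‖ * ‖Real.cos t • e 0 + Real.sin t • e 1‖ ≤ n * 2 :=
          mul_le_mul b2 b1 (norm_nonneg _) (Nat.cast_nonneg n)
      _ = 2 * n := by ring
  calc _ ≤ ‖p 0 • e 0 + p 1 • e 2‖ + ‖p 2 • (Real.cos t • e 0 + Real.sin t • e 1)‖ :=
        norm_add_le _ _
    _ ≤ (‖p 0 • e 0‖ + ‖p 1 • e 2‖) + ‖p 2 • (Real.cos t • e 0 + Real.sin t • e 1)‖ := by
        gcongr; exact norm_add_le _ _
    _ ≤ _ := by linarith

lemma T0_subset {n : ℕ} {p : Fin 4 → ℝ} (hp : p ∈ Q n) : T0 p ⊆ ball (0 : E) (5 * n + 1) := by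
  intro x hx
  rw [mem_ball_zero_iff]
  have hne : (S0 p).Nonempty := ⟨_, 0, rfl⟩
  have h1 : ‖x‖ - 4 * n ≤ infDist x (S0 p) := by
    rw [le_infDist hne]
    intro y hy
    have := norm_S0 hp hy
    have h2 : ‖x‖ ≤ dist x y + ‖y‖ := by
      have := dist_triangle x y 0
      rwa [dist_zero_right, dist_zero_right] at this
    linarith
  have h2 : infDist x (S0 p) ≤ p 3 := hx
  have h3 : p 3 ≤ n := (le_abs_self _).trans (hp.1 3)
  linarith

theorem t : StGap := by
  refine ⟨fun n => ⟨20 * n + 16, fun p hp => ?_⟩, (volume (ball (0 : E) 1)).toReal,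
    ENNReal.toReal_nonneg, fun j p => ?_⟩
  · have hV := vol_pos
    have h1 : (volume (T0 p ∩ ball (0 : E) (((20 * n + 16 : ℕ) : ℝ) + 1))).toReal ≤
        (5 * (n : ℝ) + 1) ^ 3 * (volume (ball (0 : E) 1)).toReal := by
      rw [← vol_ball (by positivity)]
      apply ENNReal.toReal_mono measure_ball_lt_top.ne
      exact measure_mono (inter_subset_left.trans (T0_subset hp))
    have h2 : (volume (ball (0 : E) (((20 * n + 16 : ℕ) : ℝ) + 1))).toReal =
        (20 * (n : ℝ) + 17) ^ 3 * (volume (ball (0 : E) 1)).toReal := by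
      rw [vol_ball (by positivity)]
      congr 2
      push_cast
      ring
    have h3 : (5 * (n : ℝ) + 1) ^ 3 < (20 * (n : ℝ) + 17) ^ 3 / 2 := by
      have hn : (0 : ℝ) ≤ n := Nat.cast_nonneg n
      have h4 : (4 * (5 * (n : ℝ) + 1)) ^ 3 ≤ (20 * (n : ℝ) + 17) ^ 3 :=
        pow_le_pow_left₀ (by positivity) (by linarith) 3
      have h5 : 0 < (5 * (n : ℝ) + 1) ^ 3 := by positivity
      nlinarith
    have h4 : b (20 * n + 16) p < 0 := by
      unfold b
      rw [h2]
      nlinarith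
    exact h4.ne
  · unfold b
    have hj : (0 : ℝ) ≤ (j : ℝ) + 1 := by positivity
    have h1 : (volume (T0 p ∩ ball (0 : E) ((j : ℝ) + 1))).toReal ≤
        (volume (ball (0 : E) ((j : ℝ) + 1))).toReal :=
      ENNReal.toReal_mono measure_ball_lt_top.ne (measure_mono inter_subset_right)
    have h2 : 0 ≤ (volume (T0 p ∩ ball (0 : E) ((j : ℝ) + 1))).toReal := ENNReal.toReal_nonneg
    have h3 := vol_ball hj
    have h4 : 0 ≤ (volume (ball (0 : E) ((j : ℝ) + 1))).toReal := ENNReal.toReal_nonneg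
    calc |(volume (T0 p ∩ ball (0 : E) ((j : ℝ) + 1))).toReal -
          (volume (ball (0 : E) ((j : ℝ) + 1))).toReal / 2| ≤
          (volume (ball (0 : E) ((j : ℝ) + 1))).toReal := by
          rw [abs_le]; constructor <;> linarith
      _ = _ := by rw [h3]; ring

end Pool.Agent.K7.H60.TBGAP
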