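import Pool.Agent.K7.H60.UP.Stm

set_option autoImplicit false

namespace Pool.Agent.K7.H60.UPEQ

open Pool.Agent.K7.H60.UP

theorem t : StEq := by
  intro t
  have hr : Real.sqrt 2 ^ 2 = 2 := Real.sq_sqrt (by norm_num)
  have hcs := Real.sin_sq_add_cos_sq t
  constructor
  · rw [Complex.sq_norm, Complex.normSq_apply, Real.cos_two_mul]
    simp only [pow_two, Complex.add_re, Complex.add_im, Complex.mul_re, Complex.mul_im,
      Complex.ofReal_re, Complex.ofReal_im, Complex.one_re, Complex.one_im,
      Complex.exp_ofReal_mul_I_re, Complex.exp_ofReal_mul_I_im]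
    set c := Real.cos t
    set s := Real.sin t
    set r := Real.sqrt 2
    have e : s ^ 2 = 1 - c ^ 2 := by linarith
    linear_combination (8 / 9 * (1 / 2) * (s ^ 2 + c ^ 2)) * hr + (16 / 9 * (1/2) + 1 / 9 * (s ^ 2 + c ^ 2 + 1) - 2 / 3 + 4 * r / 9 * c) * hcs
  · rw [Complex.sq_norm, Complex.normSq_apply]
    simp only [Complex.add_re, Complex.add_im, Complex.mul_re, Complex.mul_im,
      Complex.ofReal_re, Complex.ofReal_im, Complex.one_re, Complex.one_im,
      Complex.exp_ofReal_mul_I_re, Complex.exp_ofReal_mul_I_im]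
    linear_combination (1 / 4) * hcs

end Pool.Agent.K7.H60.UPEQ
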