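import Pool.Agent.K7.H60.UP.Stm

/-!
# Project UP (MP_d3fa2a_an), final assembly
-/

set_option autoImplicit false

open Polynomial

namespace Pool.Agent.K7.H60.UPFIN

open Pool.Agent.K7.H60.UP

theorem sq_rpow (x q : ℝ) (hx : 0 ≤ x) : x ^ q = (x ^ 2) ^ (q / 2) := by
  rw [← Real.rpow_natCast x 2, ← Real.rpow_mul hx]
  congr 1
  push_cast
  ring

theorem norm_e (t : ℝ) : ‖Complex.exp (t * Complex.I)‖ = 1 := Complex.norm_exp_ofReal_mul_I t

/-- the modulus on the unit circle -/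
theorem norm_eval (p : ℂ[X]) (a b : ℂ) (h : ∀ z : ℂ, p.eval z = z + a * z ^ 2 + b * z ^ 3) (t : ℝ) :
    ‖p.eval (Complex.exp (t * Complex.I))‖ =
      ‖1 + a * Complex.exp (t * Complex.I) + b * Complex.exp (t * Complex.I) ^ 2‖ := by
  rw [h]
  have e : Complex.exp (t * Complex.I) + a * Complex.exp (t * Complex.I) ^ 2 +
      b * Complex.exp (t * Complex.I) ^ 3 = Complex.exp (t * Complex.I) *
      (1 + a * Complex.exp (t * Complex.I) + b * Complex.exp (t * Complex.I) ^ 2) := by ring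
  rw [e, norm_mul, norm_e, one_mul]

theorem eval3 (p : ℂ[X]) (hd : p.natDegree ≤ 3) (h0 : p.coeff 0 = 0) (h1 : p.coeff 1 = 1) (z : ℂ) :
    p.eval z = z + p.coeff 2 * z ^ 2 + p.coeff 3 * z ^ 3 := by
  rw [eval_eq_sum_range' (show p.natDegree < 4 by omega) z]
  simp only [Finset.sum_range_succ, Finset.sum_range_zero, h0, h1]
  ring

theorem mean_eq (q : ℝ) (p : ℂ[X]) (a b : ℂ)
    (h : ∀ z : ℂ, p.eval z = z + a * z ^ 2 + b * z ^ 3) :
    mean q p = ∫ t in (0 : ℝ)..(2 * Real.pi),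
      ‖1 + a * Complex.exp (t * Complex.I) + b * Complex.exp (t * Complex.I) ^ 2‖ ^ q := by
  unfold mean
  congr 1
  ext t
  rw [norm_eval p a b h t]

/-- `z + z² / 2` -/
noncomputable def E2 : ℂ[X] := X + C ((1 / 2 : ℝ) : ℂ) * X ^ 2

/-- `z + (2 √2 / 3) z² + z³ / 3` -/
noncomputable def E3 : ℂ[X] :=
  X + C ((2 * Real.sqrt 2 / 3 : ℝ) : ℂ) * X ^ 2 + C ((1 / 3 : ℝ) : ℂ) * X ^ 3

theorem E2_mem (hU : StUni) : E2 ∈ Univ 2 := by
  refine ⟨?_, ?_, ?_, ?_⟩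
  · unfold E2
    compute_degree
  · simp [E2]
  · simp [E2, coeff_X, coeff_X_pow]
  · have e : (fun z : ℂ => E2.eval z) = fun z : ℂ => z + (1 / 2 : ℝ) * z ^ 2 := by
      ext z
      simp [E2]
    rw [e]
    exact hU.2

theorem E3_mem (hU : StUni) : E3 ∈ Univ 3 := by
  refine ⟨?_, ?_, ?_, ?_⟩
  · unfold E3
    compute_degree
  · simp [E3]
  · simp [E3, coeff_X, coeff_X_pow]
  · have e : (fun z : ℂ => E3.eval z) =
        fun z : ℂ => z + (2 * Real.sqrt 2 / 3 : ℝ) * z ^ 2 + (1 / 3 : ℝ) * z ^ 3 := by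
      ext z
      simp [E3]
    rw [e]
    exact hU.1

theorem E2_mean (hE : StEq) (q : ℝ) :
    mean q E2 = ∫ t in (0 : ℝ)..(2 * Real.pi), (5 / 4 + Real.cos t) ^ (q / 2) := by
  have e : ∀ z : ℂ, E2.eval z = z + ((1 / 2 : ℝ) : ℂ) * z ^ 2 + 0 * z ^ 3 := by
    intro z
    simp [E2]
  rw [mean_eq q _ _ _ e]
  congr 1
  ext t
  rw [sq_rpow _ _ (norm_nonneg _), zero_mul, add_zero, (hE t).2]

theorem E3_mean (hE : StEq) (q : ℝ) :
    mean q E3 = ∫ t in (0 : ℝ)..(2 * Real.pi),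
      (2 + 16 * Real.sqrt 2 / 9 * Real.cos t + 2 / 3 * Real.cos (2 * t)) ^ (q / 2) := by
  have e : ∀ z : ℂ, E3.eval z =
      z + ((2 * Real.sqrt 2 / 3 : ℝ) : ℂ) * z ^ 2 + ((1 / 3 : ℝ) : ℂ) * z ^ 3 := by
    intro z
    simp [E3]
  rw [mean_eq q _ _ _ e]
  congr 1
  ext t
  rw [sq_rpow _ _ (norm_nonneg _), (hE t).1]

/-- the upper bound in degree two -/
theorem upper2 (hC : StCoef) (hT : StTwo) (q : ℝ) (hq : 1 ≤ q) (p : ℂ[X]) (hp : p ∈ Univ 2) :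
    mean q p ≤ ∫ t in (0 : ℝ)..(2 * Real.pi), (5 / 4 + Real.cos t) ^ (q / 2) := by
  obtain ⟨hd, h0, h1, hi⟩ := hp
  have h3 : p.coeff 3 = 0 := coeff_eq_zero_of_natDegree_lt (by omega)
  have hev := eval3 p (by omega) h0 h1
  have hi' : Set.InjOn (fun z : ℂ => z + p.coeff 2 * z ^ 2 + 0 * z ^ 3) (Metric.ball 0 1) := by
    rw [h3] at hev
    have : (fun z : ℂ => p.eval z) = fun z : ℂ => z + p.coeff 2 * z ^ 2 + 0 * z ^ 3 := by
      ext z; exact hev z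
    rw [← this]
    exact hi
  have ha := (hC _ _ hi').2.2 rfl
  rw [mean_eq q p _ _ hev, h3]
  refine le_trans (le_of_eq ?_) (hT.2 q (p.coeff 2) hq ha)
  congr 1
  ext t
  rw [zero_mul, add_zero]

/-- the upper bound in degree three -/
theorem upper3 (hC : StCoef) (hM : StMaj) (hT : StTwo) (q : ℝ) (hq : q = 2 ∨ 4 ≤ q) (p : ℂ[X])
    (hp : p ∈ Univ 3) : mean q p ≤ ∫ t in (0 : ℝ)..(2 * Real.pi),
      (2 + 16 * Real.sqrt 2 / 9 * Real.cos t + 2 / 3 * Real.cos (2 * t)) ^ (q / 2) := by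
  obtain ⟨hd, h0, h1, hi⟩ := hp
  have hev := eval3 p hd h0 h1
  have hi' : Set.InjOn (fun z : ℂ => z + p.coeff 2 * z ^ 2 + p.coeff 3 * z ^ 3)
      (Metric.ball 0 1) := by
    have : (fun z : ℂ => p.eval z) =
        fun z : ℂ => z + p.coeff 2 * z ^ 2 + p.coeff 3 * z ^ 3 := by
      ext z; exact hev z
    rw [← this]
    exact hi
  obtain ⟨hb, ha, -⟩ := hC _ _ hi'
  rw [mean_eq q p _ _ hev]
  rcases hq with rfl | hq
  · exact hT.1 _ _ ha hb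
  · exact hM q _ _ hq ha hb

/-- the final theorem -/
theorem final (hC : StCoef) (hU : StUni) (hM : StMaj) (hT : StTwo) (hE : StEq) : StFinal :=
  ⟨fun q hq => ⟨⟨E2, E2_mem hU, E2_mean hE q⟩,
    by rintro y ⟨p, hp, rfl⟩; exact upper2 hC hT q hq p hp⟩,
  fun q hq => ⟨⟨E3, E3_mem hU, E3_mean hE q⟩,
    by rintro y ⟨p, hp, rfl⟩; exact upper3 hC hM hT q hq p hp⟩⟩

end Pool.Agent.K7.H60.UPFIN
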