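import Pool.Agent.K7.H60.UP.Stm

/-!
# Project UP (MP_d3fa2a_an), job UNI: the extremal polynomials are univalent
-/

set_option autoImplicit false

namespace Pool.Agent.K7.H60.UPUNI

open Pool.Agent.K7.H60.UP

/-- the real inequality -/
theorem core (X P t N r : ℝ) (hr : r ^ 2 = 2) (hX : 4 * X ^ 2 = 2 * t - t ^ 2 - N)
    (hP : P = N + 2 * t) (hN : 0 < N)
    (h : (N * (1 - t) + 2 * t + t ^ 2 - N ^ 2) + 2 * r * X * P < 0) : False := by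
  have hM : N ≤ 2 * t - t ^ 2 := by nlinarith [sq_nonneg X]
  have ht : 0 < t := by nlinarith [sq_nonneg t]
  have ht2 : t < 2 := by nlinarith
  obtain ⟨E, hE⟩ : ∃ E, E = N * (1 - t) + 2 * t + t ^ 2 - N ^ 2 := ⟨_, rfl⟩
  have hE0 : 0 < E := by
    rw [hE]
    rcases le_or_gt 0 (1 - t - N) with h1 | h1
    · have : 0 ≤ N * (1 - t - N) := mul_nonneg hN.le h1
      nlinarith
    · have h2 : (2 * t - t ^ 2) * (1 - t - N) ≤ N * (1 - t - N) :=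
        mul_le_mul_of_nonpos_right hM h1.le
      have h3 : (2 * t - t ^ 2) * (1 - t - (2 * t - t ^ 2)) ≤ (2 * t - t ^ 2) * (1 - t - N) :=
        mul_le_mul_of_nonneg_left (by linarith) (by nlinarith)
      have h4 : 0 < 4 - 6 * t + 5 * t ^ 2 - t ^ 3 := by
        have : 0 ≤ t ^ 2 * (2 - t) := by positivity
        nlinarith [sq_nonneg (t - 1)]
      have h5 : (2 * t - t ^ 2) * (1 - t - (2 * t - t ^ 2)) + 2 * t + t ^ 2
          = t * (4 - 6 * t + 5 * t ^ 2 - t ^ 3) := by ring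
      have h6 : 0 < t * (4 - 6 * t + 5 * t ^ 2 - t ^ 3) := mul_pos ht h4
      nlinarith
  rw [← hE] at h
  have h1 : E ^ 2 < (2 * r * X * P) ^ 2 := by
    have : E < -(2 * r * X * P) := by linarith
    have h2 : E ^ 2 < (-(2 * r * X * P)) ^ 2 := by
      apply pow_lt_pow_left₀ this hE0.le (by norm_num)
    nlinarith
  have h2 : (2 * r * X * P) ^ 2 = 2 * P ^ 2 * (2 * t - t ^ 2 - N) := by
    have e : (2 * r * X * P) ^ 2 = r ^ 2 * (4 * X ^ 2) * P ^ 2 := by ring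
    rw [e, hr, hX]
    ring
  have h3 : 16 * (E ^ 2 - 2 * P ^ 2 * (2 * t - t ^ 2 - N))
      = (4 * P - 3 * P ^ 2 + 4 * P * N - N ^ 2) ^ 2 + 16 * P * N ^ 3 := by
    rw [hE, hP]
    ring
  have h4 : 0 < P := by rw [hP]; positivity
  have h5 : 0 < 16 * P * N ^ 3 := by positivity
  nlinarith [sq_nonneg (4 * P - 3 * P ^ 2 + 4 * P * N - N ^ 2)]

/-- no two points of the disc -/
theorem core2 (x₁ y₁ x₂ y₂ r : ℝ) (hr : r ^ 2 = 2) (h₁ : x₁ ^ 2 + y₁ ^ 2 < 1)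
    (h₂ : x₂ ^ 2 + y₂ ^ 2 < 1)
    (hre : 3 + 2 * r * (x₁ + x₂) + (x₁ + x₂) ^ 2 - (y₁ + y₂) ^ 2 - (x₁ * x₂ - y₁ * y₂) = 0)
    (him : 2 * r * (y₁ + y₂) + 2 * (x₁ + x₂) * (y₁ + y₂) - (x₁ * y₂ + x₂ * y₁) = 0) : False := by
  obtain ⟨X, hX⟩ : ∃ X, X = x₁ + x₂ + r := ⟨_, rfl⟩
  obtain ⟨Y, hY⟩ : ∃ Y, Y = y₁ + y₂ := ⟨_, rfl⟩
  obtain ⟨mr, hmr⟩ : ∃ mr, mr = x₁ * x₂ - y₁ * y₂ := ⟨_, rfl⟩
  obtain ⟨mi, hmi⟩ : ∃ mi, mi = x₁ * y₂ + x₂ * y₁ := ⟨_, rfl⟩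
  have e1 : mr = X ^ 2 - Y ^ 2 + 1 := by
    rw [hX, hY, hmr]
    linear_combination -hre - hr
  have e2 : mi = 2 * X * Y := by
    rw [hX, hY, hmi]
    linear_combination -him
  obtain ⟨t, ht⟩ : ∃ t, t = X ^ 2 + Y ^ 2 := ⟨_, rfl⟩
  obtain ⟨N, hN⟩ : ∃ N, N = 1 - (mr ^ 2 + mi ^ 2) := ⟨_, rfl⟩
  have hN0 : 0 < N := by
    have : mr ^ 2 + mi ^ 2 = (x₁ ^ 2 + y₁ ^ 2) * (x₂ ^ 2 + y₂ ^ 2) := by
      rw [hmr, hmi]; ring
    rw [hN, this]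
    nlinarith [sq_nonneg x₁, sq_nonneg y₁, sq_nonneg x₂, sq_nonneg y₂]
  have hX4 : 4 * X ^ 2 = 2 * t - t ^ 2 - N := by
    rw [hN, e1, e2, ht]
    ring
  -- `|s - conj s m|²`
  obtain ⟨U, hU⟩ : ∃ U, U = (X - r) - (X - r) * mr - Y * mi := ⟨_, rfl⟩
  obtain ⟨V, hV⟩ : ∃ V, V = Y - (X - r) * mi + Y * mr := ⟨_, rfl⟩
  have k1 : N ^ 2 - (U ^ 2 + V ^ 2) = (1 - (x₁ ^ 2 + y₁ ^ 2)) * (1 - (x₂ ^ 2 + y₂ ^ 2)) *
      ((1 - (x₁ * x₂ + y₁ * y₂)) ^ 2 + (y₁ * x₂ - x₁ * y₂) ^ 2) := by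
    rw [hN, hU, hV, hX, hY, hmr, hmi]
    ring
  have k2 : U ^ 2 + V ^ 2 = (N * (1 - t) + 2 * t + t ^ 2 - N ^ 2) + N ^ 2
      + 2 * r * X * (N + 2 * t) := by
    rw [hU, hV, hN, e1, e2, ht]
    linear_combination ((1 - (X ^ 2 - Y ^ 2 + 1)) ^ 2 + (2 * X * Y) ^ 2) * hr
  have k3 : 0 < N ^ 2 - (U ^ 2 + V ^ 2) := by
    rw [k1]
    have h3 : 0 < (1 - (x₁ * x₂ + y₁ * y₂)) := by
      nlinarith [sq_nonneg (x₁ - x₂), sq_nonneg (y₁ - y₂)]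
    have h4 : 0 < (1 - (x₁ * x₂ + y₁ * y₂)) ^ 2 + (y₁ * x₂ - x₁ * y₂) ^ 2 := by positivity
    have h5 : 0 < 1 - (x₁ ^ 2 + y₁ ^ 2) := by linarith
    have h6 : 0 < 1 - (x₂ ^ 2 + y₂ ^ 2) := by linarith
    positivity
  refine core X (N + 2 * t) t N r hr hX4 rfl hN0 ?_
  linarith

theorem uni1 : Set.InjOn (fun z : ℂ => z + (2 * Real.sqrt 2 / 3 : ℝ) * z ^ 2 + (1 / 3 : ℝ) * z ^ 3)
    (Metric.ball 0 1) := by
  intro z₁ h₁ z₂ h₂ h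
  by_contra hne
  rw [Metric.mem_ball, dist_zero_right] at h₁ h₂
  have hr : Real.sqrt 2 ^ 2 = 2 := Real.sq_sqrt (by norm_num)
  have h3 : (z₁ - z₂) * (3 + 2 * (Real.sqrt 2 : ℂ) * (z₁ + z₂) + (z₁ + z₂) ^ 2 - z₁ * z₂) = 0 := by
    simp only at h
    push_cast at h
    linear_combination 3 * h
  have h4 := (mul_eq_zero.mp h3).resolve_left (sub_ne_zero.mpr hne)
  have n1 : z₁.re ^ 2 + z₁.im ^ 2 < 1 := by
    have : ‖z₁‖ ^ 2 < 1 := by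
      have := norm_nonneg z₁
      nlinarith
    rw [Complex.sq_norm, Complex.normSq_apply] at this
    linarith
  have n2 : z₂.re ^ 2 + z₂.im ^ 2 < 1 := by
    have : ‖z₂‖ ^ 2 < 1 := by
      have := norm_nonneg z₂
      nlinarith
    rw [Complex.sq_norm, Complex.normSq_apply] at this
    linarith
  have hre := congrArg Complex.re h4
  have him := congrArg Complex.im h4
  simp only [pow_two, Complex.add_re, Complex.add_im, Complex.sub_re, Complex.sub_im,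
    Complex.mul_re, Complex.mul_im, Complex.ofReal_re, Complex.ofReal_im, Complex.zero_re,
    Complex.zero_im, Complex.re_ofNat, Complex.im_ofNat] at hre him
  refine core2 z₁.re z₁.im z₂.re z₂.im (Real.sqrt 2) hr n1 n2 ?_ ?_
  · linear_combination hre
  · linear_combination him

theorem uni2 : Set.InjOn (fun z : ℂ => z + (1 / 2 : ℝ) * z ^ 2) (Metric.ball 0 1) := by
  intro z₁ h₁ z₂ h₂ h
  by_contra hne
  rw [Metric.mem_ball, dist_zero_right] at h₁ h₂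
  have h3 : (z₁ - z₂) * (2 + (z₁ + z₂)) = 0 := by
    simp only at h
    push_cast at h
    linear_combination 2 * h
  have h4 := (mul_eq_zero.mp h3).resolve_left (sub_ne_zero.mpr hne)
  have h5 : z₁ + z₂ = -2 := by linear_combination h4
  have h6 := norm_add_le z₁ z₂
  rw [h5] at h6
  norm_num at h6
  linarith

/-- **JOB UNI.** -/
theorem t : StUni := ⟨uni1, uni2⟩

end Pool.Agent.K7.H60.UPUNI
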